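import Pool.Agent.Lib_helper8.SPQ.Defs

namespace Pool.Agent.SPQ

open Finset Equiv Function Pool.Agent.SEQ

variable {G : Type*} [AddCommGroup G] {k : ℕ}

/-! ### Block C1 -/

lemma c1_shift_support (f : G → ℝ) (hf : (support f).Finite) (t : G) :
    (support fun x => f (x - t)).Finite := by
  have : (support fun x => f (x - t)) = (fun x => x - t) ⁻¹' support f := rfl
  rw [this]
  exact hf.preimage (sub_left_injective).injOn

lemma c1_shift_support' (f : G → ℝ) (hf : (support f).Finite) (t : G) :
    (support fun x => f (x + t)).Finite := by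
  have : (support fun x => f (x + t)) = (fun x => x + t) ⁻¹' support f := rfl
  rw [this]
  exact hf.preimage (add_left_injective t).injOn

lemma c1_summable_mul (f g : G → ℝ) (hf : (support f).Finite) : Summable fun x => f x * g x :=
  summable_of_hasFiniteSupport (hf.subset fun x hx => by
    rw [mem_support] at hx ⊢
    exact left_ne_zero_of_mul hx)

lemma c1_shift (g : G → ℝ) (t : G) : ∑' x, g (x + t) = ∑' x, g x :=
  (Equiv.addRight t).tsum_eq g

theorem ff_support (d : ℕ → G) (n : ℕ) : (support (ff d n)).Finite := by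
  classical
  induction n with
  | zero =>
    refine (Set.finite_singleton (0 : G)).subset fun x hx => ?_
    rw [mem_support, ff] at hx
    by_contra hcon
    rw [Set.mem_singleton_iff] at hcon
    rw [if_neg hcon] at hx
    exact hx rfl
  | succ n ih =>
    refine (ih.union (c1_shift_support _ ih (d n))).subset fun x hx => ?_
    rw [mem_support, ff] at hx
    by_contra hcon
    simp only [Set.mem_union, mem_support, not_or, not_not] at hcon
    rw [hcon.1, hcon.2] at hx
    simp at hx

theorem ff_nonneg (d : ℕ → G) (n : ℕ) (x : G) : 0 ≤ ff d n x := by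
  classical
  induction n generalizing x with
  | zero =>
    rw [ff]
    split_ifs
    · exact zero_le_one
    · exact le_rfl
  | succ n ih =>
    rw [ff]
    have h1 := ih x
    have h2 := ih (x - d n)
    linarith

theorem ff_tsum (d : ℕ → G) (n : ℕ) : ∑' x, ff d n x = 1 := by
  classical
  induction n with
  | zero =>
    have h : ∀ x : G, ff d 0 x = if x = 0 then 1 else 0 := fun x => by rw [ff]
    simp_rw [h]
    rw [tsum_ite_eq]
  | succ n ih =>
    have h : ∀ x : G, ff d (n + 1) x = (1 / 2) * (ff d n x + ff d n (x - d n)) := fun x => by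
      rw [ff]; ring
    have s1 : Summable (ff d n) := summable_of_hasFiniteSupport (ff_support d n)
    have s2 : Summable fun x => ff d n (x - d n) :=
      summable_of_hasFiniteSupport (c1_shift_support _ (ff_support d n) (d n))
    have e : ∑' x, ff d n (x - d n) = ∑' x, ff d n x := by
      have := c1_shift (ff d n) (-d n)
      simp_rw [← sub_eq_add_neg] at this
      exact this
    simp_rw [h]
    rw [tsum_mul_left, s1.tsum_add s2, e, ih]
    norm_num

theorem ff_congr (d d' : ℕ → G) (n : ℕ) (h : ∀ j < n, d j = d' j) : ff d n = ff d' n := by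
  classical
  induction n with
  | zero => ext x; rw [ff, ff]
  | succ n ih =>
    have h1 := ih fun j hj => h j (by omega)
    ext x
    rw [ff, ff, h1, h n (by omega)]

theorem ac_nonneg (d : ℕ → G) (n : ℕ) (t : G) : 0 ≤ ac (ff d n) t := by
  unfold ac
  exact tsum_nonneg fun x => mul_nonneg (ff_nonneg d n _) (ff_nonneg d n _)

lemma c1_ac_le (f : G → ℝ) (hf : (support f).Finite) (t : G) : ac f t ≤ ac f 0 := by
  have s1 : Summable fun x => f x * f x := c1_summable_mul f f hf
  have s2 : Summable fun x => f (x + t) * f (x + t) :=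
    c1_summable_mul _ _ (c1_shift_support' f hf t)
  have s3 : Summable fun x => f x * f (x + t) := c1_summable_mul f _ hf
  have e1 : ∑' x, f x * f x = ac f 0 := by unfold ac; simp
  have e2 : ∑' x, f (x + t) * f (x + t) = ac f 0 := by
    rw [c1_shift (fun x => f x * f x) t, e1]
  have h1 : ∑' x, f x * f (x + t) ≤ ∑' x, (1 / 2) * (f x * f x + f (x + t) * f (x + t)) := by
    refine s3.tsum_le_tsum (fun x => ?_) ((s1.add s2).mul_left _)
    nlinarith [sq_nonneg (f x - f (x + t))]
  rw [tsum_mul_left, s1.tsum_add s2, e1, e2] at h1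
  calc ac f t = ∑' x, f x * f (x + t) := rfl
    _ ≤ 1 / 2 * (ac f 0 + ac f 0) := h1
    _ = ac f 0 := by ring

theorem ac_le (d : ℕ → G) (n : ℕ) (t : G) : ac (ff d n) t ≤ ac (ff d n) 0 :=
  c1_ac_le _ (ff_support d n) t

theorem ac_start (d : ℕ → G) : ac (ff d 0) 0 = 1 := by
  classical
  unfold ac
  have h : ∀ x : G, ff d 0 x * ff d 0 (x + 0) = if x = 0 then 1 else 0 := fun x => by
    rw [add_zero, ff]
    split_ifs <;> simp
  simp_rw [h]
  rw [tsum_ite_eq]

theorem ac_succ (d : ℕ → G) (n : ℕ) :
    ac (ff d (n + 1)) 0 = (ac (ff d n) 0 + ac (ff d n) (d n)) / 2 := by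
  have hf := ff_support d n
  generalize hF : ff d n = f at hf
  have s1 : Summable fun x => f x * f x := c1_summable_mul f f hf
  have s2 : Summable fun x => f (x - d n) * f (x - d n) :=
    c1_summable_mul _ _ (c1_shift_support f hf (d n))
  have s3 : Summable fun x => f x * f (x - d n) := c1_summable_mul f _ hf
  have e1 : ∑' x, f x * f x = ac f 0 := by unfold ac; simp
  have e2 : ∑' x, f (x - d n) * f (x - d n) = ac f 0 := by
    have := c1_shift (fun x => f x * f x) (-d n)
    simp_rw [← sub_eq_add_neg] at this
    rw [this, e1]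
  have e3 : ∑' x, f x * f (x - d n) = ac f (d n) := by
    have := c1_shift (fun x => f x * f (x - d n)) (d n)
    rw [← this]
    unfold ac
    apply tsum_congr
    intro x
    rw [add_sub_cancel_right, mul_comm]
  have h : ∀ x, ff d (n + 1) x * ff d (n + 1) (x + 0)
      = (1 / 4) * ((f x * f x + f (x - d n) * f (x - d n)) + 2 * (f x * f (x - d n))) := by
    intro x
    rw [add_zero, ff, hF]
    ring
  unfold ac at e1 e2 e3 ⊢
  simp_rw [h]
  rw [tsum_mul_left, (s1.add s2).tsum_add (s3.mul_left 2), s1.tsum_add s2, tsum_mul_left, e1, e2,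
    e3]
  ring

end Pool.Agent.SPQ
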