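import Pool.Agent.Lib_helper8.SPQ.Defs
import Pool.Agent.Lib_helper8.SPQ.C1

namespace Pool.Agent.SPQ

open Finset Equiv Function Pool.Agent.SEQ

variable {G : Type*} [AddCommGroup G] {k : ℕ}

/-! ### other blocks -/

/-! ### block C2 -/

open Classical in
theorem c2_count_eq (d : ℕ → G) (n : ℕ) (x : G) :
    (((range n).powerset.filter fun T => ∑ j ∈ T, d j = x).card : ℝ) =
      ∑ T ∈ (range n).powerset, (if ∑ j ∈ T, d j = x then (1 : ℝ) else 0) := by
  rw [Finset.card_filter]
  push_cast
  rfl

open Classical in
theorem ff_count (d : ℕ → G) (n : ℕ) (x : G) :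
    (((range n).powerset.filter fun T => ∑ j ∈ T, d j = x).card : ℝ) = 2 ^ n * ff d n x := by
  rw [c2_count_eq]
  induction n generalizing x with
  | zero =>
    rw [Finset.range_zero, Finset.powerset_empty, Finset.sum_singleton, pow_zero, one_mul]
    simp only [ff]
    have he : ∑ j ∈ (∅ : Finset ℕ), d j = 0 := Finset.sum_empty
    split_ifs with h1 h2 h2
    · rfl
    · exact absurd (h1.symm.trans he) h2
    · exact absurd (he.trans h2.symm) h1
    · rfl
  | succ n ih =>
    have hn : n ∉ range n := by simp
    rw [Finset.range_add_one, Finset.sum_powerset_insert hn, ih x]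
    have h2 : ∑ T ∈ (range n).powerset, (if ∑ j ∈ insert n T, d j = x then (1 : ℝ) else 0) =
        ∑ T ∈ (range n).powerset, (if ∑ j ∈ T, d j = x - d n then (1 : ℝ) else 0) := by
      refine Finset.sum_congr rfl fun T hT => ?_
      have hnT : n ∉ T := fun h => hn (Finset.mem_powerset.1 hT h)
      rw [Finset.sum_insert hnT]
      have : (d n + ∑ j ∈ T, d j = x) ↔ (∑ j ∈ T, d j = x - d n) := by
        constructor
        · intro h
          rw [← h]
          abel
        · intro h
          rw [h]
          abel
      by_cases h : ∑ j ∈ T, d j = x - d n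
      · rw [if_pos h, if_pos (this.2 h)]
      · rw [if_neg h, if_neg (fun h' => h (this.1 h'))]
    rw [h2, ih (x - d n)]
    simp only [ff]
    rw [pow_succ]
    ring

/-- the convolution formula -/
theorem c2_conv (d : ℕ → G) (n m : ℕ) (x : G) :
    ff d (n + m) x = ∑ y ∈ (ff_support d n).toFinset,
      ff d n y * ff (fun j => d (n + j)) m (x - y) := by
  classical
  induction m generalizing x with
  | zero =>
    simp only [Nat.add_zero, ff]
    by_cases hx : ff d n x = 0
    · rw [hx]
      symm
      refine Finset.sum_eq_zero fun y hy => ?_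
      by_cases h : x - y = 0
      · have : x = y := sub_eq_zero.1 h
        rw [← this, hx, zero_mul]
      · rw [if_neg h, mul_zero]
    · have hm : x ∈ (ff_support d n).toFinset := by
        rw [Set.Finite.mem_toFinset]
        exact hx
      rw [Finset.sum_eq_single_of_mem x hm]
      · rw [sub_self, if_pos rfl, mul_one]
      · intro y _ hy
        rw [if_neg (fun h => hy (sub_eq_zero.1 h).symm), mul_zero]
  | succ m ih =>
    have h1 : ff d (n + (m + 1)) x = (ff d (n + m) x + ff d (n + m) (x - d (n + m))) / 2 := rfl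
    rw [h1, ih x, ih (x - d (n + m)), ← Finset.sum_add_distrib, Finset.sum_div]
    refine Finset.sum_congr rfl fun y _ => ?_
    have h2 : ff (fun j => d (n + j)) (m + 1) (x - y) =
        (ff (fun j => d (n + j)) m (x - y) +
          ff (fun j => d (n + j)) m (x - y - d (n + m))) / 2 := rfl
    rw [h2]
    have h3 : x - d (n + m) - y = x - y - d (n + m) := by abel
    rw [h3]
    ring

theorem c2_sq_sum (f : G → ℝ) (hf : (support f).Finite) (S : Finset G) :
    ∑ y ∈ S, f y ^ 2 ≤ ac f 0 := by
  have hs : (support fun x => f x * f (x + 0)).Finite := by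
    refine hf.subset fun x hx => ?_
    rw [mem_support] at hx ⊢
    intro h
    exact hx (by rw [h, zero_mul])
  have hsum : Summable fun x => f x * f (x + 0) := summable_of_hasFiniteSupport hs
  have h := hsum.sum_le_tsum S (fun x _ => by
    rw [add_zero]
    exact mul_self_nonneg _)
  refine le_trans (le_of_eq ?_) h
  refine Finset.sum_congr rfl fun y _ => ?_
  rw [add_zero, sq]

open Classical in
theorem ff_halves (d : ℕ → G) (n : ℕ) (x : G) :
    (((range (2 * n)).powerset.filter fun T => ∑ j ∈ T, d j = x).card : ℝ) ≤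
      4 ^ n * ((ac (ff d n) 0 + ac (ff (fun j => d (n + j)) n) 0) / 2) := by
  rw [ff_count]
  have h4 : (2 : ℝ) ^ (2 * n) = 4 ^ n := by
    rw [pow_mul]
    norm_num
  rw [h4]
  refine mul_le_mul_of_nonneg_left ?_ (by positivity)
  rw [two_mul, c2_conv]
  set f := ff d n with hf
  set g := ff (fun j => d (n + j)) n with hg
  have hb : ∀ y ∈ (ff_support d n).toFinset, f y * g (x - y) ≤
      (f y ^ 2 + g (x - y) ^ 2) / 2 := by
    intro y _
    nlinarith [sq_nonneg (f y - g (x - y))]
  refine (Finset.sum_le_sum hb).trans ?_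
  rw [← Finset.sum_div, Finset.sum_add_distrib]
  have h1 : ∑ y ∈ (ff_support d n).toFinset, f y ^ 2 ≤ ac f 0 :=
    c2_sq_sum f (ff_support d n) _
  have h2 : ∑ y ∈ (ff_support d n).toFinset, g (x - y) ^ 2 ≤ ac g 0 := by
    have := c2_sq_sum g (ff_support _ n) ((ff_support d n).toFinset.image fun y => x - y)
    rw [Finset.sum_image (fun a _ b _ h => sub_right_injective h)] at this
    exact this
  linarith

end Pool.Agent.SPQ
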