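import Pool.Agent.Lib_helper8.SPQ.Defs

/-! Block T of SPQ: interchanges of positions. -/

namespace Pool.Agent.SPQ

open Finset Equiv Function Pool.Agent.SEQ

variable {G : Type*} [AddCommGroup G] {k : ℕ}

theorem sw_el (e : Fin k → G) (π : Perm (Fin k)) (x y p : ℕ) (hx : x < k) (hy : y < k) :
    el e (π * sw x y) p = if p = x then el e π y else if p = y then el e π x else el e π p := by
  unfold sw
  rw [dif_pos ⟨hx, hy⟩]
  by_cases hpx : p = x
  · subst hpx
    rw [if_pos rfl]
    unfold el
    rw [dif_pos hx, dif_pos hy, Equiv.Perm.mul_apply, Equiv.swap_apply_left]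
  · rw [if_neg hpx]
    by_cases hpy : p = y
    · subst hpy
      rw [if_pos rfl]
      unfold el
      rw [dif_pos hx, dif_pos hy, Equiv.Perm.mul_apply, Equiv.swap_apply_right]
    · rw [if_neg hpy]
      unfold el
      by_cases hp : p < k
      · rw [dif_pos hp, dif_pos hp, Equiv.Perm.mul_apply, Equiv.swap_apply_of_ne_of_ne]
        · simpa [Fin.ext_iff] using hpx
        · simpa [Fin.ext_iff] using hpy
      · rw [dif_neg hp, dif_neg hp]

theorem dep_sw {β : Type*} (D : Finset ℕ) (f : Perm (Fin k) → β) (hf : Dep D f) (x y : ℕ)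
    (hx : x ∉ D) (hy : y ∉ D) (π : Perm (Fin k)) : f (π * sw x y) = f π := by
  apply hf
  intro d hd
  unfold sw
  by_cases h : x < k ∧ y < k
  · rw [dif_pos h, Equiv.Perm.mul_apply, Equiv.swap_apply_of_ne_of_ne]
    · rintro rfl
      exact hx hd
    · rintro rfl
      exact hy hd
  · rw [dif_neg h, mul_one]

theorem t_sum_sw (e : Fin k → G) (π : Perm (Fin k)) (x y : ℕ) (hx : x < k) (hy : y < k)
    (P : Finset ℕ) (h : x ∈ P ↔ y ∈ P) :
    ∑ p ∈ P, el e (π * sw x y) p = ∑ p ∈ P, el e π p := by
  classical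
  have e1 : ∀ p, el e (π * sw x y) p = el e π (Equiv.swap x y p) := by
    intro p
    rw [sw_el e π x y p hx hy, Equiv.swap_apply_def]
    split_ifs <;> rfl
  rw [Finset.sum_congr rfl (fun p _ => e1 p)]
  by_cases hxP : x ∈ P
  · have hyP : y ∈ P := h.1 hxP
    apply Equiv.Perm.sum_comp (Equiv.swap x y) P (fun p => el e π p)
    intro p hp
    by_contra hpP
    apply hp
    apply Equiv.swap_apply_of_ne_of_ne
    · rintro rfl
      exact hpP hxP
    · rintro rfl
      exact hpP hyP
  · have hyP : y ∉ P := fun hy' => hxP (h.2 hy')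
    apply Finset.sum_congr rfl
    intro p hp
    rw [Equiv.swap_apply_of_ne_of_ne]
    · rintro rfl
      exact hxP hp
    · rintro rfl
      exact hyP hp

theorem t_sum_sw' (e : Fin k → G) (π : Perm (Fin k)) (x y : ℕ) (hx : x < k) (hy : y < k)
    (P : Finset ℕ) (hxP : x ∈ P) (hyP : y ∉ P) :
    ∑ p ∈ P, el e (π * sw x y) p = ∑ p ∈ P, el e π p + (el e π y - el e π x) := by
  classical
  rw [← Finset.add_sum_erase P _ hxP, ← Finset.add_sum_erase P (fun p => el e π p) hxP]
  have h1 : ∑ p ∈ P.erase x, el e (π * sw x y) p = ∑ p ∈ P.erase x, el e π p := by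
    apply Finset.sum_congr rfl
    intro p hp
    rw [Finset.mem_erase] at hp
    rw [sw_el e π x y p hx hy, if_neg hp.1, if_neg]
    rintro rfl
    exact hyP hp.2
  rw [h1, sw_el e π x y x hx hy, if_pos rfl]
  abel

theorem ps_sw (e : Fin k → G) (π : Perm (Fin k)) (x y j : ℕ) (hx : x < k) (hy : y < k)
    (hj : j ≤ k) (h : x < j ↔ y < j) : ps e (π * sw x y) j = ps e π j := by
  unfold ps
  apply t_sum_sw e π x y hx hy
  rw [Finset.mem_range, Finset.mem_range]
  exact h

theorem tw_dep {β : Type*} (D : Finset ℕ) (f : Perm (Fin k) → β) (hf : Dep D f) (a b : ℕ → ℕ)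
    (T : Finset ℕ) (M : ℕ) (ha : ∀ m < M, a m ∉ D) (hb : ∀ m < M, b m ∉ D)
    (π : Perm (Fin k)) : f (π * tw a b T M) = f π := by
  induction M with
  | zero => simp [tw]
  | succ M ih =>
    have ih' := ih (fun m hm => ha m (by omega)) (fun m hm => hb m (by omega))
    unfold tw
    split_ifs
    · rw [← mul_assoc, dep_sw D f hf _ _ (ha M (by omega)) (hb M (by omega)), ih']
    · rw [mul_one, ih']

theorem tw_inv {β : Type*} (f : Perm (Fin k) → β) (a b : ℕ → ℕ) (T : Finset ℕ) (M : ℕ)
    (hf : ∀ π, ∀ m < M, f (π * sw (a m) (b m)) = f π) (π : Perm (Fin k)) :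
    f (π * tw a b T M) = f π := by
  induction M with
  | zero => simp [tw]
  | succ M ih =>
    have ih' := ih (fun π m hm => hf π m (by omega))
    unfold tw
    split_ifs
    · rw [← mul_assoc, hf _ M (by omega), ih']
    · rw [mul_one, ih']

theorem t_tw_el (e : Fin k → G) (a b : ℕ → ℕ) (T : Finset ℕ) (M : ℕ) (ha : ∀ m < M, a m < k)
    (hb : ∀ m < M, b m < k) (p : ℕ) (hpa : ∀ m < M, p ≠ a m) (hpb : ∀ m < M, p ≠ b m)
    (π : Perm (Fin k)) : el e (π * tw a b T M) p = el e π p := by
  induction M with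
  | zero => simp [tw]
  | succ M ih =>
    have ih' := ih (fun m hm => ha m (by omega)) (fun m hm => hb m (by omega))
      (fun m hm => hpa m (by omega)) (fun m hm => hpb m (by omega))
    unfold tw
    split_ifs
    · rw [← mul_assoc, sw_el e _ _ _ p (ha M (by omega)) (hb M (by omega)),
        if_neg (hpa M (by omega)), if_neg (hpb M (by omega)), ih']
    · rw [mul_one, ih']

open Classical in
theorem tw_sum (e : Fin k → G) (a b : ℕ → ℕ) (T : Finset ℕ) (M : ℕ) (ha : ∀ m < M, a m < k)
    (hb : ∀ m < M, b m < k) (hab : ∀ i < M, ∀ j < M, a i ≠ b j)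
    (haa : ∀ i < M, ∀ j < M, i ≠ j → a i ≠ a j ∧ b i ≠ b j) (P : Finset ℕ)
    (hP : ∀ m < M, b m ∈ P → a m ∈ P) (π : Perm (Fin k)) :
    ∑ x ∈ P, el e (π * tw a b T M) x = ∑ x ∈ P, el e π x +
      ∑ m ∈ (range M).filter (fun m => m ∈ T ∧ a m ∈ P ∧ b m ∉ P),
        (el e π (b m) - el e π (a m)) := by
  induction M with
  | zero => simp [tw]
  | succ M ih =>
    have ih' := ih (fun m hm => ha m (by omega)) (fun m hm => hb m (by omega))
      (fun i hi j hj => hab i (by omega) j (by omega))
      (fun i hi j hj => haa i (by omega) j (by omega)) (fun m hm => hP m (by omega))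
    have haM := ha M (by omega)
    have hbM := hb M (by omega)
    have hPM := hP M (by omega)
    unfold tw
    rw [Finset.range_add_one, Finset.filter_insert]
    by_cases hT : M ∈ T
    · rw [if_pos hT, ← mul_assoc]
      by_cases haP : a M ∈ P
      · by_cases hbP : b M ∈ P
        · rw [if_neg (by tauto), t_sum_sw e _ _ _ haM hbM P (by tauto), ih']
        · have hnot : M ∉ (range M).filter (fun m => m ∈ T ∧ a m ∈ P ∧ b m ∉ P) := by
            simp
          rw [if_pos ⟨hT, haP, hbP⟩, t_sum_sw' e _ _ _ haM hbM P haP hbP, ih',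
            Finset.sum_insert hnot]
          have h1 : el e (π * tw a b T M) (b M) = el e π (b M) :=
            t_tw_el e a b T M (fun m hm => ha m (by omega)) (fun m hm => hb m (by omega)) (b M)
              (fun m hm => (hab m (by omega) M (by omega)).symm)
              (fun m hm => (haa M (by omega) m (by omega) (by omega)).2) π
          have h2 : el e (π * tw a b T M) (a M) = el e π (a M) :=
            t_tw_el e a b T M (fun m hm => ha m (by omega)) (fun m hm => hb m (by omega)) (a M)
              (fun m hm => (haa M (by omega) m (by omega) (by omega)).1)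
              (fun m hm => hab M (by omega) m (by omega)) π
          rw [h1, h2]
          abel
      · have hbP : b M ∉ P := fun h => haP (hPM h)
        rw [if_neg (by tauto), t_sum_sw e _ _ _ haM hbM P (by tauto), ih']
    · rw [if_neg hT, if_neg (by tauto), mul_one, ih']

end Pool.Agent.SPQ
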