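import Pool.Agent.Lib_helper8.SPQ.Defs
import Pool.Agent.Lib_helper8.SPQ.C2
import Pool.Agent.Lib_helper8.SPQ.T

namespace Pool.Agent.SPQ

open Finset Equiv Function Pool.Agent.SEQ

variable {G : Type*} [AddCommGroup G] {k : ℕ}

/-! ### other blocks -/

/-! ### Block J1 -/

theorem j1_dm {n u m : ℕ} (hm : m < u * (2 * n)) :
    m / (2 * n) < u ∧ m % (2 * n) < 2 * n ∧ m / (2 * n) * (2 * n) + m % (2 * n) = m := by
  have hn : 0 < 2 * n := by
    rcases Nat.eq_zero_or_pos (2 * n) with h0 | h0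
    · rw [h0] at hm; simp at hm
    · exact h0
  exact ⟨Nat.div_lt_of_lt_mul (by rw [mul_comm]; exact hm), Nat.mod_lt _ hn,
    Nat.div_add_mod' m (2 * n)⟩

theorem j1_md {n i j : ℕ} (hj : j < 2 * n) :
    (i * (2 * n) + j) / (2 * n) = i ∧ (i * (2 * n) + j) % (2 * n) = j := by
  have hn : 0 < 2 * n := by omega
  constructor
  · rw [mul_comm, Nat.mul_add_div hn, Nat.div_eq_of_lt hj, add_zero]
  · rw [mul_comm, Nat.mul_add_mod, Nat.mod_eq_of_lt hj]

theorem j1_lt {n u i j : ℕ} (hi : i < u) (hj : j < 2 * n) : i * (2 * n) + j < u * (2 * n) := by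
  have h1 : (i + 1) * (2 * n) ≤ u * (2 * n) := Nat.mul_le_mul_right _ hi
  have h2 : (i + 1) * (2 * n) = i * (2 * n) + 2 * n := by ring
  omega

open Classical in
theorem j1_inj (n u : ℕ) (F : ℕ → Finset ℕ → Prop) :
    ((range (u * (2 * n))).powerset.filter fun T =>
      ∀ i < u, F i ((range (2 * n)).filter fun j => i * (2 * n) + j ∈ T)).card ≤
    ∏ i ∈ range u, ((range (2 * n)).powerset.filter fun T => F i T).card := by
  rw [Finset.prod_range, ← Fintype.card_piFinset]
  apply Finset.card_le_card_of_injOn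
    (fun T (i : Fin u) => (range (2 * n)).filter fun j => (i : ℕ) * (2 * n) + j ∈ T)
  · intro T hT
    rw [mem_coe, mem_filter] at hT
    rw [mem_coe, Fintype.mem_piFinset]
    intro i
    rw [mem_filter, mem_powerset]
    exact ⟨filter_subset _ _, hT.2 i i.2⟩
  · intro T hT T' hT' h
    rw [mem_coe, mem_filter, mem_powerset] at hT hT'
    have key : ∀ m, m < u * (2 * n) → (m ∈ T ↔ m ∈ T') := by
      intro m hm
      obtain ⟨h1, h2, h3⟩ := j1_dm hm
      have h4 := congrFun h ⟨m / (2 * n), h1⟩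
      simp only at h4
      have h5 := Finset.ext_iff.1 h4 (m % (2 * n))
      rw [mem_filter, mem_filter, h3, mem_range] at h5
      constructor
      · intro hh
        exact (h5.1 ⟨h2, hh⟩).2
      · intro hh
        exact (h5.2 ⟨h2, hh⟩).2
    ext m
    constructor
    · intro hm
      exact (key m (mem_range.1 (hT.1 hm))).1 hm
    · intro hm
      exact (key m (mem_range.1 (hT'.1 hm))).2 hm

open Classical in
theorem j1_sum (n u : ℕ) (T : Finset ℕ) (i : ℕ) (hi : i < u) (R : Finset ℕ)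
    (hR : ∀ m, m ∈ R ↔ m < u * (2 * n) ∧ m ∈ T ∧ m / (2 * n) = i) (d : ℕ → ℕ → G) :
    ∑ m ∈ R, d (m / (2 * n)) (m % (2 * n)) =
    ∑ j ∈ (range (2 * n)).filter (fun j => i * (2 * n) + j ∈ T), d i j := by
  symm
  refine Finset.sum_bij (fun j _ => i * (2 * n) + j) ?_ ?_ ?_ ?_
  · intro j hj
    rw [mem_filter, mem_range] at hj
    rw [hR]
    exact ⟨j1_lt hi hj.1, hj.2, (j1_md hj.1).1⟩
  · intro j _ j' _ h
    simpa using h
  · intro m hm
    rw [hR] at hm
    obtain ⟨hm1, hm2, h1⟩ := hm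
    obtain ⟨h2, h3, h4⟩ := j1_dm hm1
    rw [h1] at h4
    refine ⟨m % (2 * n), ?_, h4⟩
    rw [mem_filter, mem_range, h4]
    exact ⟨h3, hm2⟩
  · intro j hj
    rw [mem_filter, mem_range] at hj
    rw [(j1_md hj.1).1, (j1_md hj.1).2]

open Classical in
theorem j1_double (E : Perm (Fin k) → Prop) (tws : Finset ℕ → Perm (Fin k)) (M : ℕ) :
    (2 : ℝ) ^ M * (cnt E : ℝ) =
      ∑ π, (((range M).powerset.filter fun T => E (π * tws T)).card : ℝ) := by
  have h1 : (cnt E : ℝ) = ∑ π, (if E π then (1 : ℝ) else 0) := by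
    unfold cnt
    rw [Finset.sum_boole]
  have hcount : ∀ T : Finset ℕ, (cnt E : ℝ) =
      ∑ π, (if E (π * tws T) then (1 : ℝ) else 0) := by
    intro T
    rw [h1]
    exact (Equiv.sum_comp (Equiv.mulRight (tws T))
      (fun π => if E π then (1 : ℝ) else 0)).symm
  calc (2 : ℝ) ^ M * (cnt E : ℝ) = ∑ _T ∈ (range M).powerset, (cnt E : ℝ) := by
        rw [sum_const, card_powerset, card_range, nsmul_eq_mul]
        push_cast
        ring
    _ = ∑ T ∈ (range M).powerset, ∑ π, (if E (π * tws T) then (1 : ℝ) else 0) :=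
        sum_congr rfl fun T _ => hcount T
    _ = ∑ π, ∑ T ∈ (range M).powerset, (if E (π * tws T) then (1 : ℝ) else 0) :=
        sum_comm
    _ = _ := by
        refine sum_congr rfl fun π _ => ?_
        rw [Finset.sum_boole]

open Classical in
theorem j1_bound (E S : Perm (Fin k) → Prop) (tws : Finset ℕ → Perm (Fin k)) (n u : ℕ)
    (F : Perm (Fin k) → ℕ → Finset ℕ → Prop)
    (hcond : ∀ π T, E (π * tws T) → S π ∧
      ∀ i < u, F π i ((range (2 * n)).filter fun j => i * (2 * n) + j ∈ T))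
    (r : ℕ → Perm (Fin k) → ℝ)
    (hr : ∀ π, ∀ i < u, (((range (2 * n)).powerset.filter fun T => F π i T).card : ℝ) ≤
      4 ^ n * r i π) :
    (cnt E : ℝ) ≤ ∑ π, (if S π then 1 else 0) * ∏ i ∈ range u, r i π := by
  set M : ℕ := u * (2 * n) with hM
  have h2M : (0 : ℝ) < 2 ^ M := by positivity
  refine le_of_mul_le_mul_left ?_ h2M
  rw [j1_double E tws M, mul_sum]
  refine sum_le_sum fun π _ => ?_
  by_cases hSπ : S π
  · rw [if_pos hSπ, one_mul]
    have c1 : ((range M).powerset.filter fun T => E (π * tws T)).card ≤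
        ∏ i ∈ range u, ((range (2 * n)).powerset.filter fun T' => F π i T').card := by
      refine le_trans (card_le_card ?_) (j1_inj n u (F π))
      intro T hT
      rw [mem_filter] at hT ⊢
      exact ⟨hT.1, (hcond π T hT.2).2⟩
    have c2 : (((range M).powerset.filter fun T => E (π * tws T)).card : ℝ) ≤
        ∏ i ∈ range u, (((range (2 * n)).powerset.filter fun T' => F π i T').card : ℝ) := by
      exact_mod_cast c1
    refine c2.trans ?_
    calc _ ≤ ∏ i ∈ range u, ((4 : ℝ) ^ n * r i π) :=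
          prod_le_prod (fun i _ => Nat.cast_nonneg _) fun i hi => hr π i (mem_range.1 hi)
      _ = 2 ^ M * ∏ i ∈ range u, r i π := by
          rw [prod_mul_distrib, prod_const, card_range, hM]
          congr 1
          rw [← pow_mul, show (4 : ℝ) = 2 ^ 2 by norm_num, ← pow_mul]
          congr 1
          ring
  · rw [if_neg hSπ, zero_mul, mul_zero]
    have c1 : ((range M).powerset.filter fun T => E (π * tws T)) = ∅ :=
      filter_eq_empty_iff.2 fun T _ hT => hSπ (hcond π T hT).1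
    rw [c1, card_empty, Nat.cast_zero]

open Classical in
theorem joint_count (e : Fin k → G) (D : Finset ℕ) (S : Perm (Fin k) → Prop) (hS : Dep D S)
    (n u : ℕ) (P : ℕ → Finset ℕ) (a b : ℕ → ℕ → ℕ) (g : ℕ → Perm (Fin k) → G)
    (ha : ∀ i < u, ∀ j < 2 * n, a i j < k ∧ a i j ∈ P i ∧ a i j ∉ D)
    (hb : ∀ i < u, ∀ j < 2 * n, b i j < k ∧ b i j ∉ P i ∧ b i j ∉ D)
    (hside : ∀ i < u, ∀ i' < u, i' ≠ i → ∀ j < 2 * n, (a i j ∈ P i' ↔ b i j ∈ P i'))
    (haa : ∀ i < u, ∀ j < 2 * n, ∀ i' < u, ∀ j' < 2 * n, (i, j) ≠ (i', j') →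
      a i j ≠ a i' j' ∧ b i j ≠ b i' j')
    (hab : ∀ i < u, ∀ j < 2 * n, ∀ i' < u, ∀ j' < 2 * n, a i j ≠ b i' j')
    (hg : ∀ i < u, ∀ i' < u, ∀ j < 2 * n, ∀ π, g i (π * sw (a i' j) (b i' j)) = g i π) :
    (cnt (fun π => S π ∧ ∀ i < u, ∑ x ∈ P i, el e π x = g i π) : ℝ) ≤
      ∑ π, (if S π then 1 else 0) * ∏ i ∈ range u, rho e n (a i) (b i) π := by
  set A : ℕ → ℕ := fun m => a (m / (2 * n)) (m % (2 * n)) with hA
  set B : ℕ → ℕ := fun m => b (m / (2 * n)) (m % (2 * n)) with hB
  set M : ℕ := u * (2 * n) with hM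
  set E : Perm (Fin k) → Prop := fun π => S π ∧ ∀ i < u, ∑ x ∈ P i, el e π x = g i π with hE
  have hne : ∀ i < M, ∀ j < M, i ≠ j →
      (i / (2 * n), i % (2 * n)) ≠ (j / (2 * n), j % (2 * n)) := by
    intro i hi j hj hij hc
    rw [Prod.mk.injEq] at hc
    obtain ⟨_, _, h3⟩ := j1_dm hi
    obtain ⟨_, _, h6⟩ := j1_dm hj
    rw [hc.1, hc.2, h6] at h3
    exact hij h3.symm
  -- the condition after the interchanges
  have hcond : ∀ π (T : Finset ℕ), E (π * tw A B T M) → S π ∧
      ∀ i < u, (fun (i : ℕ) (T' : Finset ℕ) =>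
        ∑ j ∈ T', (el e π (b i j) - el e π (a i j)) = g i π - ∑ x ∈ P i, el e π x) i
          ((range (2 * n)).filter fun j => i * (2 * n) + j ∈ T) := by
    intro π T hET
    have hS' : S (π * tw A B T M) = S π := by
      refine tw_dep D S hS A B T M ?_ ?_ π
      · intro m hm
        obtain ⟨h1, h2, _⟩ := j1_dm hm
        exact (ha _ h1 _ h2).2.2
      · intro m hm
        obtain ⟨h1, h2, _⟩ := j1_dm hm
        exact (hb _ h1 _ h2).2.2
    refine ⟨hS' ▸ hET.1, fun i hi => ?_⟩
    have h1 := hET.2 i hi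
    have h2 : g i (π * tw A B T M) = g i π := by
      refine tw_inv (g i) A B T M (fun π m hm => ?_) π
      obtain ⟨h1, h2, _⟩ := j1_dm hm
      exact hg i hi _ h1 _ h2 π
    have h3 := tw_sum e A B T M
      (fun m hm => by
        obtain ⟨h1, h2, _⟩ := j1_dm hm
        exact (ha _ h1 _ h2).1)
      (fun m hm => by
        obtain ⟨h1, h2, _⟩ := j1_dm hm
        exact (hb _ h1 _ h2).1)
      (fun m hm m' hm' => by
        obtain ⟨h1, h2, _⟩ := j1_dm hm
        obtain ⟨h1', h2', _⟩ := j1_dm hm'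
        exact hab _ h1 _ h2 _ h1' _ h2')
      (fun m hm m' hm' hmm => by
        obtain ⟨h1, h2, _⟩ := j1_dm hm
        obtain ⟨h1', h2', _⟩ := j1_dm hm'
        exact haa _ h1 _ h2 _ h1' _ h2' (hne m hm m' hm' hmm))
      (P i)
      (fun m hm hmP => by
        obtain ⟨h1, h2, _⟩ := j1_dm hm
        by_cases hi' : m / (2 * n) = i
        · exfalso
          have h3 := (hb _ h1 _ h2).2.1
          simp only [hB, hi'] at hmP
          rw [hi'] at h3
          exact h3 hmP
        · exact (hside _ h1 i hi (fun hc => hi' hc.symm) _ h2).2 hmP)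
      π
    have h4 := j1_sum n u T i hi ((range M).filter (fun m => m ∈ T ∧ A m ∈ P i ∧ B m ∉ P i))
      (fun m => by
        rw [mem_filter, mem_range]
        refine and_congr_right fun hm => and_congr_right fun _ => ?_
        show A m ∈ P i ∧ B m ∉ P i ↔ _
        obtain ⟨h1, h2, _⟩ := j1_dm hm
        constructor
        · intro hh
          by_contra hi'
          exact hh.2 ((hside _ h1 i hi (fun hc => hi' hc.symm) _ h2).1 hh.1)
        · intro hi'
          have h3 := (ha _ h1 _ h2).2.1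
          have h4 := (hb _ h1 _ h2).2.1
          rw [hi'] at h3 h4
          simp only [hA, hB, hi']
          exact ⟨h3, h4⟩)
      (fun i j => el e π (b i j) - el e π (a i j))
    rw [h1, h2] at h3
    show ∑ j ∈ (range (2 * n)).filter (fun j => i * (2 * n) + j ∈ T),
      (el e π (b i j) - el e π (a i j)) = g i π - ∑ x ∈ P i, el e π x
    rw [eq_sub_iff_add_eq, h3, add_comm]
    congr 1
    exact h4.symm
  exact j1_bound E S (fun T => tw A B T M) n u
    (fun π i T' => ∑ j ∈ T', (el e π (b i j) - el e π (a i j)) =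
      g i π - ∑ x ∈ P i, el e π x) hcond (fun i π => rho e n (a i) (b i) π)
    (fun π i _ => ff_halves (fun j => el e π (b i j) - el e π (a i j)) n _)

end Pool.Agent.SPQ
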