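import Pool.Agent.Lib_helper8.SPQ.Defs

namespace Pool.Agent.SPQ

open Finset Equiv Function Pool.Agent.SEQ
open scoped Pointwise

variable {G : Type*} [AddCommGroup G] {k : ℕ}

/-! ### Block D -/

open Classical in
/-- small doubling `< 3/2` in additive notation -/
lemma decay_small (D : Finset G) (h0 : (0 : G) ∈ D) (h : ((D + D).card : ℝ) < 3 / 2 * D.card) :
    ∃ H : AddSubgroup G, (H : Set G).Finite ∧ (Nat.card H : ℝ) < 3 / 2 * D.card ∧
      ∀ x ∈ D, x ∈ H := by
  let ι : G ↪ Multiplicative G := Multiplicative.ofAdd.toEmbedding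
  let A : Finset (Multiplicative G) := D.map ι
  have hAA : A * A = (D + D).map ι := by
    ext x
    simp only [A, Finset.mem_mul, Finset.mem_map, Finset.mem_add]
    constructor
    · rintro ⟨_, ⟨y, hy, rfl⟩, _, ⟨z, hz, rfl⟩, rfl⟩
      exact ⟨y + z, ⟨y, hy, z, hz, rfl⟩, rfl⟩
    · rintro ⟨_, ⟨y, hy, z, hz, rfl⟩, rfl⟩
      exact ⟨ι y, ⟨y, hy, rfl⟩, ι z, ⟨z, hz, rfl⟩, rfl⟩
  have hA : ((A * A).card : ℚ) < (3 / 2 : ℚ) * A.card := by
    rw [hAA, Finset.card_map, Finset.card_map]
    have h' : (((D + D).card : ℚ) : ℝ) < (((3 / 2 : ℚ) * D.card : ℚ) : ℝ) := by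
      push_cast
      exact h
    exact_mod_cast h'
  obtain ⟨H, _, hH1, hH2⟩ := Finset.doubling_lt_three_halves hA
  refine ⟨AddSubgroup.toSubgroup.symm H, ?_, ?_, ?_⟩
  · have : (H : Set (Multiplicative G)).Finite := Set.toFinite _
    exact this
  · have h1 : Nat.card (AddSubgroup.toSubgroup.symm H : AddSubgroup G) = Fintype.card H := by
      rw [← Nat.card_eq_fintype_card]
      rfl
    rw [h1]
    have h2 : ((Fintype.card H : ℚ) : ℝ) < (((3 / 2 : ℚ) * A.card : ℚ) : ℝ) := by
      exact_mod_cast hH1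
    rw [Finset.card_map] at h2
    push_cast at h2
    exact h2
  · intro x hx
    have h1 := (hH2 (ι 0) (Finset.mem_map_of_mem ι h0)).1
    have h2 : ι x ∈ ι 0 • (H : Set (Multiplicative G)) :=
      h1 (by exact_mod_cast Finset.mem_map_of_mem ι hx)
    have h3 : (ι 0 : Multiplicative G) = 1 := rfl
    rw [h3, one_smul] at h2
    exact h2

section
variable (f : G → ℝ) (hf : (support f).Finite)

include hf in
lemma decay_summable_mul (g : G → ℝ) : Summable fun x => f x * g x :=
  summable_of_hasFiniteSupport (hf.subset fun x hx => by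
    rw [mem_support] at hx ⊢
    exact left_ne_zero_of_mul hx)

include hf in
lemma decay_shift_support (t : G) : (support fun x => f (x + t)).Finite := by
  have : (support fun x => f (x + t)) = (fun x => x + t) ⁻¹' support f := rfl
  rw [this]
  exact hf.preimage (add_left_injective t).injOn

lemma decay_shift (g : G → ℝ) (t : G) : ∑' x, g (x + t) = ∑' x, g x :=
  (Equiv.addRight t).tsum_eq g

lemma decay_ac_neg (t : G) : ac f (-t) = ac f t := by
  unfold ac
  rw [← decay_shift (fun x => f x * f (x + -t)) t]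
  apply tsum_congr
  intro x
  rw [add_neg_cancel_right, mul_comm]

include hf in
/-- `∑ (f x - f (x + t))² = 2 ac 0 - 2 ac t` -/
lemma decay_Q (t : G) : ∑' x, (f x - f (x + t)) ^ 2 = 2 * ac f 0 - 2 * ac f t := by
  have h1 : ∑' x, f (x + t) * f (x + t) = ac f 0 := by
    rw [decay_shift (fun x => f x * f x) t]
    unfold ac
    simp
  have s1 : Summable fun x => f x * f x := decay_summable_mul f hf f
  have s2 : Summable fun x => f (x + t) * f (x + t) :=
    decay_summable_mul _ (decay_shift_support f hf t) _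
  have s3 : Summable fun x => f x * f (x + t) := decay_summable_mul f hf _
  have h0 : ∑' x, f x * f x = ac f 0 := by unfold ac; simp
  have h2 : ∀ x, (f x - f (x + t)) ^ 2 = (f x * f x + f (x + t) * f (x + t))
      - 2 * (f x * f (x + t)) := fun x => by ring
  simp_rw [h2]
  rw [(s1.add s2).tsum_sub (s3.mul_left 2), s1.tsum_add s2, tsum_mul_left, h0, h1]
  unfold ac
  ring

include hf in
lemma decay_Q_add (t t' : G) :
    2 * ac f 0 - 2 * ac f (t + t') ≤ 2 * (2 * ac f 0 - 2 * ac f t)
      + 2 * (2 * ac f 0 - 2 * ac f t') := by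
  rw [← decay_Q f hf, ← decay_Q f hf, ← decay_Q f hf]
  have e1 : ∑' x, (f x - f (x + t')) ^ 2 = ∑' x, (f (x + t) - f (x + t + t')) ^ 2 :=
    (decay_shift (fun x => (f x - f (x + t')) ^ 2) t).symm
  have s : ∀ u : G, Summable fun x => (f x - f (x + u)) ^ 2 := fun u =>
    summable_of_hasFiniteSupport ((hf.union (decay_shift_support f hf u)).subset fun x hx => by
      rw [mem_support] at hx
      by_contra hcon
      simp only [Set.mem_union, mem_support, not_or, not_not] at hcon
      apply hx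
      rw [hcon.1, hcon.2]
      simp)
  have s' : Summable fun x => (f (x + t) - f (x + t + t')) ^ 2 :=
    (Equiv.addRight t).summable_iff.mpr (s t')
  rw [e1, ← tsum_mul_left, ← tsum_mul_left, ← ((s t).mul_left 2).tsum_add (s'.mul_left 2)]
  refine (s (t + t')).tsum_le_tsum (fun x => ?_) (((s t).mul_left 2).add (s'.mul_left 2))
  rw [← add_assoc]
  have h := sq_nonneg ((f x - f (x + t)) - (f (x + t) - f (x + t + t')))
  have h' : 2 * (f x - f (x + t)) ^ 2 + 2 * (f (x + t) - f (x + t + t')) ^ 2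
      = (f x - f (x + t + t')) ^ 2 + ((f x - f (x + t)) - (f (x + t) - f (x + t + t'))) ^ 2 := by
    ring
  rw [h']
  exact le_add_of_nonneg_right h

include hf in
lemma decay_sum_ac (hf0 : ∀ x, 0 ≤ f x) (hf1 : ∑' x, f x = 1) (T : Finset G) :
    ∑ t ∈ T, ac f t ≤ 1 := by
  have hs : Summable f := summable_of_hasFiniteSupport hf
  have h1 : ∑ t ∈ T, ac f t = ∑' x, f x * ∑ t ∈ T, f (x + t) := by
    unfold ac
    rw [← Summable.tsum_finsetSum fun t _ => decay_summable_mul f hf fun x => f (x + t)]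
    simp_rw [Finset.mul_sum]
  rw [h1]
  calc ∑' x, f x * ∑ t ∈ T, f (x + t) ≤ ∑' x, f x := by
        refine (decay_summable_mul f hf _).tsum_le_tsum (fun x => ?_) hs
        have h2 : ∑ t ∈ T, f (x + t) ≤ 1 := by
          have h3 : ∑ t ∈ T, f (x + t) = ∑ y ∈ T.map (addLeftEmbedding x), f y := by
            rw [Finset.sum_map]
            rfl
          rw [h3, ← hf1]
          exact hs.sum_le_tsum _ fun y _ => hf0 y
        calc f x * ∑ t ∈ T, f (x + t) ≤ f x * 1 := mul_le_mul_of_nonneg_left h2 (hf0 x)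
          _ = f x := mul_one _
    _ = 1 := hf1

end

theorem decay (A : Finset G) (f : G → ℝ) (hf : (support f).Finite) (hf0 : ∀ x, 0 ≤ f x)
    (hf1 : ∑' x, f x = 1) (c η : ℝ) (J : ℕ) (hc : 0 < c) (hJ : 4 / c ≤ (3 / 2 : ℝ) ^ J)
    (hη : 0 < η) (hη' : η ≤ 1 / 2) (hR : c < ac f 0 * A.card) (hA : Spread A c (1 - η)) :
    ∑ a ∈ A, ∑ a' ∈ A, ac f (a - a') ≤
      (1 - η / (2 * 4 ^ J)) * (A.card : ℝ) ^ 2 * ac f 0 := by
  classical
  by_contra hcon
  push Not at hcon
  have hac0 : 0 ≤ ac f 0 := by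
    unfold ac
    exact tsum_nonneg fun x => mul_nonneg (hf0 _) (hf0 _)
  have hApos : (0 : ℝ) < A.card := by
    rcases Nat.eq_zero_or_pos A.card with h | h
    · rw [h] at hR
      simp at hR
      linarith
    · exact_mod_cast h
  have hacp : 0 < ac f 0 := by
    rcases hac0.eq_or_lt with h | h
    · rw [← h] at hR
      simp at hR
      linarith
    · exact h
  have h4 : (0 : ℝ) < 4 ^ J := by positivity
  -- the base point
  obtain ⟨a₀, ha₀, hbase⟩ : ∃ a₀ ∈ A, (1 - η / (2 * 4 ^ J)) * A.card * ac f 0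
      < ∑ a ∈ A, ac f (a - a₀) := by
    by_contra hno
    push Not at hno
    rw [Finset.sum_comm] at hcon
    have h1 : ∑ a' ∈ A, ∑ a ∈ A, ac f (a - a') ≤
        ∑ _a' ∈ A, (1 - η / (2 * 4 ^ J)) * A.card * ac f 0 := Finset.sum_le_sum hno
    rw [Finset.sum_const, nsmul_eq_mul] at h1
    have h2 : (A.card : ℝ) * ((1 - η / (2 * 4 ^ J)) * A.card * ac f 0)
        = (1 - η / (2 * 4 ^ J)) * (A.card : ℝ) ^ 2 * ac f 0 := by ring
    linarith
  set Q : G → ℝ := fun t => 2 * ac f 0 - 2 * ac f t with hQdef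
  have hQ0 : ∀ t, 0 ≤ Q t := fun t => by
    have := decay_Q f hf t
    simp only [hQdef]
    rw [← this]
    exact tsum_nonneg fun x => sq_nonneg _
  have hQadd : ∀ t t', Q (t + t') ≤ 2 * Q t + 2 * Q t' := fun t t' => decay_Q_add f hf t t'
  have hQz : Q 0 = 0 := by simp [hQdef]
  -- the sets `D j`
  set thr : ℕ → ℝ := fun j => 4 ^ j / 4 ^ J * ac f 0 with hthr
  have hthr0 : ∀ j, 0 < thr j := fun j => by positivity
  have hDfin : ∀ j ≤ J, {t : G | Q t ≤ thr j}.Finite := by
    intro j hj
    have hsub : {t : G | Q t ≤ thr j} ⊆ (hf.toFinset - hf.toFinset : Finset G) := by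
      intro t ht
      simp only [Set.mem_ofPred_eq] at ht
      have h1 : thr j ≤ ac f 0 := by
        have : (4 : ℝ) ^ j / 4 ^ J ≤ 1 := by
          rw [div_le_one h4]
          exact pow_le_pow_right₀ (by norm_num) hj
        calc thr j = 4 ^ j / 4 ^ J * ac f 0 := rfl
          _ ≤ 1 * ac f 0 := mul_le_mul_of_nonneg_right this hac0
          _ = ac f 0 := one_mul _
      have h2 : 0 < ac f t := by
        simp only [hQdef] at ht
        linarith
      obtain ⟨x, hx⟩ : ∃ x, f x * f (x + t) ≠ 0 := by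
        by_contra hno
        push Not at hno
        have : ac f t = 0 := by
          unfold ac
          simp only [hno, tsum_zero]
        linarith
      have hx1 := left_ne_zero_of_mul hx
      have hx2 := right_ne_zero_of_mul hx
      rw [Finset.mem_coe, Finset.mem_sub]
      exact ⟨x + t, by simpa using hx2, x, by simpa using hx1, by abel⟩
    exact (Finset.finite_toSet _).subset hsub
  obtain ⟨D, hmem⟩ : ∃ D : ℕ → Finset G, ∀ j ≤ J, ∀ t, t ∈ D j ↔ Q t ≤ thr j := by
    have h1 : ∀ j : ℕ, ∃ E : Finset G, j ≤ J → ∀ t, t ∈ E ↔ Q t ≤ thr j := by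
      intro j
      by_cases hj : j ≤ J
      · exact ⟨(hDfin j hj).toFinset, fun _ t => by
          rw [Set.Finite.mem_toFinset, Set.mem_ofPred_eq]⟩
      · exact ⟨∅, fun h => absurd h hj⟩
    choose D hD using h1
    exact ⟨D, fun j hj t => hD j hj t⟩
  have hDcard : ∀ j ≤ J, ((D j).card : ℝ) < 2 * A.card / c := by
    intro j hj
    have h1 := decay_sum_ac f hf hf0 hf1 (D j)
    have h2 : ((D j).card : ℝ) * (ac f 0 / 2) ≤ ∑ t ∈ D j, ac f t := by
      rw [← nsmul_eq_mul]
      apply Finset.card_nsmul_le_sum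
      intro t ht
      rw [hmem j hj] at ht
      have h3 : thr j ≤ ac f 0 := by
        have : (4 : ℝ) ^ j / 4 ^ J ≤ 1 := by
          rw [div_le_one h4]
          exact pow_le_pow_right₀ (by norm_num) hj
        calc thr j = 4 ^ j / 4 ^ J * ac f 0 := rfl
          _ ≤ 1 * ac f 0 := mul_le_mul_of_nonneg_right this hac0
          _ = ac f 0 := one_mul _
      simp only [hQdef] at ht
      linarith
    rw [lt_div_iff₀ hc]
    have h5 : ((D j).card : ℝ) * ac f 0 ≤ 2 := by linarith
    have hcardnn : (0 : ℝ) ≤ (D j).card := Nat.cast_nonneg _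
    rcases hcardnn.eq_or_lt with h6 | h6
    · rw [← h6, zero_mul]
      exact mul_pos two_pos hApos
    · calc ((D j).card : ℝ) * c < (D j).card * (ac f 0 * A.card) := mul_lt_mul_of_pos_left hR h6
        _ = ((D j).card * ac f 0) * A.card := by ring
        _ ≤ 2 * A.card := mul_le_mul_of_nonneg_right h5 hApos.le
  -- most of `A - a₀` lies in `D 0`
  have hmany : (1 - η) * A.card < ((A.filter fun a => a - a₀ ∈ D 0).card : ℝ) := by
    have h1 : ∑ a ∈ A, Q (a - a₀) < η / 4 ^ J * A.card * ac f 0 := by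
      simp only [hQdef]
      rw [Finset.sum_sub_distrib, ← Finset.mul_sum, ← Finset.mul_sum, Finset.sum_const,
        nsmul_eq_mul]
      have h2 : η / 4 ^ J * A.card * ac f 0
          = 2 * (A.card * ac f 0) - 2 * ((1 - η / (2 * 4 ^ J)) * A.card * ac f 0) := by
        field_simp
        ring
      rw [h2]
      linarith
    have h2 : ((A.filter fun a => ¬ (a - a₀ ∈ D 0)).card : ℝ) * (ac f 0 / 4 ^ J)
        ≤ ∑ a ∈ A, Q (a - a₀) := by
      calc ((A.filter fun a => ¬ (a - a₀ ∈ D 0)).card : ℝ) * (ac f 0 / 4 ^ J)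
          ≤ ∑ a ∈ A.filter (fun a => ¬ (a - a₀ ∈ D 0)), Q (a - a₀) := by
            rw [← nsmul_eq_mul]
            apply Finset.card_nsmul_le_sum
            intro a ha
            rw [Finset.mem_filter, hmem 0 (Nat.zero_le _)] at ha
            have h3 := ha.2
            push Not at h3
            have h5 : thr 0 = ac f 0 / 4 ^ J := by
              simp only [hthr, pow_zero]
              ring
            rw [h5] at h3
            exact h3.le
        _ ≤ ∑ a ∈ A, Q (a - a₀) :=
            Finset.sum_le_sum_of_subset_of_nonneg (Finset.filter_subset _ _)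
              fun a _ _ => hQ0 _
    have h3 : ((A.filter fun a => ¬ (a - a₀ ∈ D 0)).card : ℝ) < η * A.card := by
      have h5 : ((A.filter fun a => ¬ (a - a₀ ∈ D 0)).card : ℝ) * (ac f 0 / 4 ^ J)
          < η * A.card * (ac f 0 / 4 ^ J) := by
        calc _ ≤ ∑ a ∈ A, Q (a - a₀) := h2
          _ < η / 4 ^ J * A.card * ac f 0 := h1
          _ = η * A.card * (ac f 0 / 4 ^ J) := by ring
      exact lt_of_mul_lt_mul_right h5 (by positivity)
    have h6 : ((A.filter fun a => a - a₀ ∈ D 0).card : ℝ)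
        + ((A.filter fun a => ¬ (a - a₀ ∈ D 0)).card : ℝ) = A.card := by
      exact_mod_cast Finset.card_filter_add_card_filter_not (s := A) (fun a => a - a₀ ∈ D 0)
    linarith
  have hD0 : (A.card : ℝ) / 2 < (D 0).card := by
    have h1 : ((A.filter fun a => a - a₀ ∈ D 0).card : ℝ) ≤ (D 0).card := by
      have h2 : (A.filter fun a => a - a₀ ∈ D 0).card ≤ (D 0).card := by
        apply Finset.card_le_card_of_injOn (fun a => a - a₀)
        · intro a ha
          exact (Finset.mem_filter.mp ha).2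
        · intro x _ y _ hxy
          exact sub_left_injective hxy
      exact_mod_cast h2
    have h3 : (1 / 2 : ℝ) * A.card ≤ (1 - η) * A.card :=
      mul_le_mul_of_nonneg_right (by linarith only [hη']) hApos.le
    linarith only [h1, h3, hmany]
  -- some step does not grow
  obtain ⟨j, hj, hsmall⟩ : ∃ j < J, ((D (j + 1)).card : ℝ) < 3 / 2 * (D j).card := by
    by_contra hno
    push Not at hno
    have hgrow : ∀ j ≤ J, (3 / 2 : ℝ) ^ j * (D 0).card ≤ (D j).card := by
      intro j
      induction j with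
      | zero => intro _; simp
      | succ j ih =>
        intro hj
        have h1 := ih (by omega)
        have h2 := hno j (by omega)
        calc (3 / 2 : ℝ) ^ (j + 1) * (D 0).card = 3 / 2 * ((3 / 2 : ℝ) ^ j * (D 0).card) := by
              rw [pow_succ]; ring
          _ ≤ 3 / 2 * (D j).card := mul_le_mul_of_nonneg_left h1 (by norm_num)
          _ ≤ (D (j + 1)).card := h2
    have h1 := hgrow J le_rfl
    have h2 := hDcard J le_rfl
    have h3 : 4 / c * ((A.card : ℝ) / 2) < (3 / 2 : ℝ) ^ J * (D 0).card := by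
      have h5 : (0 : ℝ) < 4 / c := by positivity
      calc 4 / c * ((A.card : ℝ) / 2) < 4 / c * (D 0).card := mul_lt_mul_of_pos_left hD0 h5
        _ ≤ (3 / 2 : ℝ) ^ J * (D 0).card := mul_le_mul_of_nonneg_right hJ (Nat.cast_nonneg _)
    have h6 : 4 / c * ((A.card : ℝ) / 2) = 2 * A.card / c := by ring
    linarith
  have hsum : D j + D j ⊆ D (j + 1) := by
    intro x hx
    obtain ⟨y, hy, z, hz, rfl⟩ := Finset.mem_add.mp hx
    rw [hmem j hj.le] at hy hz
    rw [hmem (j + 1) hj]
    have h1 := hQadd y z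
    have h2 : thr (j + 1) = 4 * thr j := by simp only [hthr, pow_succ]; ring
    rw [h2]
    linarith
  have h0 : (0 : G) ∈ D j := by
    rw [hmem j hj.le, hQz]
    exact (hthr0 j).le
  obtain ⟨H, hH1, hH2, hH3⟩ := decay_small (D j) h0 (lt_of_le_of_lt
    (by exact_mod_cast Finset.card_le_card hsum) hsmall)
  have hsp := hA H a₀ hH1 (by
    have h1 := hDcard j hj.le
    have h2 : (Nat.card H : ℝ) * c < 3 / 2 * (2 * A.card / c) * c := by
      apply mul_lt_mul_of_pos_right _ hc
      linarith
    have h3 : 3 / 2 * (2 * (A.card : ℝ) / c) * c = 3 * A.card := by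
      field_simp
    linarith)
  have hincl : ((A.filter fun a => a - a₀ ∈ D 0).card : ℝ)
      ≤ ((A.filter fun a => a - a₀ ∈ H).card : ℝ) := by
    have : (A.filter fun a => a - a₀ ∈ D 0).card ≤ (A.filter fun a => a - a₀ ∈ H).card := by
      apply Finset.card_le_card
      intro a ha
      rw [Finset.mem_filter] at ha ⊢
      refine ⟨ha.1, hH3 _ ?_⟩
      have h1 := ha.2
      rw [hmem 0 (Nat.zero_le _)] at h1
      rw [hmem j hj.le]
      refine h1.trans ?_
      simp only [hthr]
      gcongr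
      · norm_num
      · omega
    exact_mod_cast this
  linarith

end Pool.Agent.SPQ
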