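import Pool.Agent.Lib_helper8.SPQ.Defs

/-! Block P of SPQ: exchange of two free positions. -/

namespace Pool.Agent.SPQ

open Finset Equiv Function Pool.Agent.SEQ

variable {G : Type*} [AddCommGroup G] {k : ℕ}

theorem p_perm (D : Finset ℕ) (l r p p' : Fin k) (hlr : l ≠ r) (hpp : p ≠ p')
    (hl : (l : ℕ) ∉ D) (hr : (r : ℕ) ∉ D) (hp : (p : ℕ) ∉ D) (hp' : (p' : ℕ) ∉ D) :
    ∃ σ : Perm (Fin k), σ l = p ∧ σ r = p' ∧ ∀ d : Fin k, (d : ℕ) ∈ D → σ d = d := by
  classical
  set τ : Perm (Fin k) := Equiv.swap l p with hτ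
  have hτD : ∀ d : Fin k, (d : ℕ) ∈ D → τ d = d := by
    intro d hd
    rw [hτ]
    apply Equiv.swap_apply_of_ne_of_ne
    · rintro rfl
      exact hl hd
    · rintro rfl
      exact hp hd
  have hτl : τ l = p := Equiv.swap_apply_left l p
  have h1 : τ r ≠ p := by
    intro h
    rw [← hτl] at h
    exact hlr (τ.injective h).symm
  refine ⟨Equiv.swap (τ r) p' * τ, ?_, ?_, ?_⟩
  · rw [Equiv.Perm.mul_apply, hτl]
    exact Equiv.swap_apply_of_ne_of_ne h1.symm hpp
  · rw [Equiv.Perm.mul_apply]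
    exact Equiv.swap_apply_left _ _
  · intro d hd
    rw [Equiv.Perm.mul_apply, hτD d hd]
    apply Equiv.swap_apply_of_ne_of_ne
    · intro h
      rw [← hτD d hd] at h
      have := τ.injective h
      rw [this] at hd
      exact hr hd
    · rintro rfl
      exact hp' hd

theorem exch (e : Fin k → G) (D : Finset ℕ) (hD : D ⊆ range k) (l r : ℕ) (hl : l < k)
    (hr : r < k) (hlr : l ≠ r) (hlD : l ∉ D) (hrD : r ∉ D) (g : Perm (Fin k) → G → G → ℝ)
    (hg : Dep D g) :
    ((k : ℝ) - D.card) * ((k : ℝ) - D.card - 1) * ∑ π, g π (el e π l) (el e π r) =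
      ∑ π, ∑ p ∈ range k \ D, ∑ p' ∈ (range k \ D).erase p, g π (el e π p) (el e π p') := by
  classical
  set C : ℝ := ∑ π, g π (el e π l) (el e π r) with hC
  have key : ∀ p ∈ range k \ D, ∀ p' ∈ (range k \ D).erase p,
      ∑ π, g π (el e π p) (el e π p') = C := by
    intro p hp p' hp'
    rw [Finset.mem_erase, Finset.mem_sdiff, Finset.mem_range] at hp'
    rw [Finset.mem_sdiff, Finset.mem_range] at hp
    obtain ⟨σ, h1, h2, h3⟩ := p_perm D ⟨l, hl⟩ ⟨r, hr⟩ ⟨p, hp.1⟩ ⟨p', hp'.2.1⟩
      (by simpa [Fin.ext_iff] using hlr) (by simpa [Fin.ext_iff] using hp'.1.symm)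
      hlD hrD hp.2 hp'.2.2
    rw [hC, ← Equiv.sum_comp (Equiv.mulRight σ) (fun π => g π (el e π l) (el e π r))]
    apply Finset.sum_congr rfl
    intro π _
    rw [Equiv.coe_mulRight]
    show g π (el e π p) (el e π p') = g (π * σ) (el e (π * σ) l) (el e (π * σ) r)
    have e1 : g (π * σ) = g π := by
      apply hg
      intro d hd
      rw [Equiv.Perm.mul_apply, h3 d hd]
    have e2 : el e (π * σ) l = el e π p := by
      unfold el
      rw [dif_pos hl, dif_pos hp.1, Equiv.Perm.mul_apply, h1]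
    have e3 : el e (π * σ) r = el e π p' := by
      unfold el
      rw [dif_pos hr, dif_pos hp'.2.1, Equiv.Perm.mul_apply, h2]
    rw [e1, e2, e3]
  have hcard : ((range k \ D).card : ℝ) = (k : ℝ) - D.card := by
    have h := Finset.card_sdiff_add_card_eq_card hD
    rw [Finset.card_range] at h
    have h' : ((range k \ D).card : ℝ) + D.card = k := by exact_mod_cast h
    linarith
  calc ((k : ℝ) - D.card) * ((k : ℝ) - D.card - 1) * C
      = ∑ p ∈ range k \ D, ∑ p' ∈ (range k \ D).erase p, C := by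
        have h1 : ∀ p ∈ range k \ D, ∑ p' ∈ (range k \ D).erase p, C =
            ((k : ℝ) - D.card - 1) * C := by
          intro p hp
          rw [Finset.sum_const, nsmul_eq_mul, Finset.card_erase_of_mem hp]
          have hpos : 1 ≤ (range k \ D).card := Finset.card_pos.2 ⟨p, hp⟩
          rw [Nat.cast_sub hpos, hcard, Nat.cast_one]
        rw [Finset.sum_congr rfl h1, Finset.sum_const, nsmul_eq_mul, hcard, mul_assoc]
    _ = ∑ p ∈ range k \ D, ∑ p' ∈ (range k \ D).erase p,
          ∑ π, g π (el e π p) (el e π p') := by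
        apply Finset.sum_congr rfl
        intro p hp
        apply Finset.sum_congr rfl
        intro p' hp'
        rw [key p hp p' hp']
    _ = ∑ p ∈ range k \ D, ∑ π, ∑ p' ∈ (range k \ D).erase p,
          g π (el e π p) (el e π p') := by
        apply Finset.sum_congr rfl
        intro p _
        rw [Finset.sum_comm]
    _ = _ := Finset.sum_comm

end Pool.Agent.SPQ
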