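import Pool.Agent.Lib_helper8.SPQ.Defs
import Pool.Agent.Lib_helper8.SPQ.C1
import Pool.Agent.Lib_helper8.SPQ.D
import Pool.Agent.Lib_helper8.SPQ.P

/-!
Block I of the project SPQ: iteration of the decay of the collision probability.
-/

namespace Pool.Agent.SPQ

open Finset Equiv Function Pool.Agent.SEQ

variable {G : Type*} [AddCommGroup G] {k : ℕ}

section OtherBlocks

/-! other blocks (D, C1, P) -/

end OtherBlocks

/-! ### Block I -/

/-- `el` is injective on the positions -/
theorem i_el_inj (e : Fin k → G) (he : Injective e) (π : Perm (Fin k)) (p p' : ℕ) (hp : p < k)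
    (hp' : p' < k) (h : el e π p = el e π p') : p = p' := by
  unfold el at h
  rw [dif_pos hp, dif_pos hp'] at h
  have := π.injective (he h)
  simpa using congrArg Fin.val this

/-- the elements at the positions outside a small set are still spread -/
theorem i_spread (e : Fin k → G) (c η : ℝ) (J : ℕ) (h : Par e c η J) (U : Finset ℕ)
    (hcard : (U.card : ℝ) ≤ η * k) (A : Finset G)
    (hA : ∀ g ∈ A, ∃ i, e i = g) (hAc : (k : ℝ) - U.card ≤ A.card) : Spread A c (1 - η) := by
  classical
  intro H x hH hc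
  have hsub : A ⊆ univ.map ⟨e, h.inj⟩ := by
    intro g hg
    obtain ⟨i, hi⟩ := hA g hg
    simp only [Finset.mem_map, Finset.mem_univ, true_and, Function.Embedding.coeFn_mk]
    exact ⟨i, hi⟩
  have hck : ((univ.map ⟨e, h.inj⟩ : Finset G).card : ℝ) = k := by simp
  have hle : (A.card : ℝ) ≤ k := by
    rw [← hck]
    exact_mod_cast Finset.card_le_card hsub
  have h1 := h.spread H x hH (by rw [hck]; linarith)
  rw [hck] at h1
  have h2 : ((A.filter fun a => a - x ∈ H).card : ℝ) ≤
      (((univ.map ⟨e, h.inj⟩ : Finset G).filter fun a => a - x ∈ H).card : ℝ) := by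
    exact_mod_cast Finset.card_le_card (Finset.filter_subset_filter _ hsub)
  have h3 : (1 - 2 * η) * (k : ℝ) ≤ (1 - η) * A.card := by
    have h4 : (1 - η) * (k : ℝ) ≤ A.card := by linarith
    have h5 : 0 ≤ 1 - η := by linarith [h.η1]
    have h6 : (1 - η) * ((1 - η) * (k : ℝ)) ≤ (1 - η) * A.card :=
      mul_le_mul_of_nonneg_left h4 h5
    have h7 : (0 : ℝ) ≤ η ^ 2 * k := by positivity
    nlinarith
  refine lt_of_le_of_lt ?_ (lt_of_lt_of_le h1 h3)
  convert! h2

/-- the sum over ordered pairs of distinct free positions -/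
theorem i_pairs (e : Fin k → G) (c η : ℝ) (J : ℕ) (h : Par e c η J) (U : Finset ℕ)
    (hU : U ⊆ range k) (hcard : (U.card : ℝ) ≤ η * k) (hk : 0 < k) (π : Perm (Fin k)) (d : ℕ → G)
    (j : ℕ) (hR : c / ((1 - η) * k) < ac (ff d j) 0) :
    ∑ p ∈ range k \ U, ∑ p' ∈ (range k \ U).erase p,
        (ac (ff d j) 0 + ac (ff d j) (el e π p' - el e π p)) / 2 ≤
      (1 - η / (4 * 4 ^ J)) * (((k : ℝ) - U.card) * ((k : ℝ) - U.card - 1)) * ac (ff d j) 0 := by
  classical
  set R : ℝ := ac (ff d j) 0 with hRdef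
  set P : Finset ℕ := range k \ U with hP
  have hη0 := h.η0
  have hη1 := h.η1
  have hkr : (0 : ℝ) < k := by exact_mod_cast hk
  have hPc : (P.card : ℝ) = (k : ℝ) - U.card := by
    rw [hP, Finset.card_sdiff_of_subset hU, Finset.card_range, Nat.cast_sub]
    have := Finset.card_le_card hU
    simpa using this
  have hPk : ∀ p ∈ P, p < k := fun p hp => Finset.mem_range.1 (Finset.mem_sdiff.1 hp).1
  have hinj : Set.InjOn (el e π) P := fun p hp p' hp' hpp =>
    i_el_inj e h.inj π p p' (hPk p hp) (hPk p' hp') hpp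
  set A : Finset G := P.image (el e π) with hA
  have hAc : A.card = P.card := Finset.card_image_of_injOn hinj
  have hAcr : (A.card : ℝ) = (k : ℝ) - U.card := by rw [hAc, hPc]
  have hsp : Spread A c (1 - η) := by
    refine i_spread e c η J h U hcard A ?_ (by rw [hAcr])
    intro g hg
    obtain ⟨p, hp, rfl⟩ := Finset.mem_image.1 hg
    refine ⟨π ⟨p, hPk p hp⟩, ?_⟩
    unfold el
    rw [dif_pos (hPk p hp)]
  have h1η : 0 < (1 - η) * (k : ℝ) := by
    have : 0 < 1 - η := by linarith
    positivity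
  have hRpos : 0 < R := lt_of_le_of_lt (div_nonneg h.c0.le h1η.le) hR
  have hRc : c < R * A.card := by
    have h1 : c < R * ((1 - η) * k) := by
      rwa [div_lt_iff₀ h1η] at hR
    have h2 : (1 - η) * (k : ℝ) ≤ A.card := by rw [hAcr]; linarith
    exact lt_of_lt_of_le h1 (mul_le_mul_of_nonneg_left h2 hRpos.le)
  have hdec := decay A (ff d j) (ff_support d j) (ff_nonneg d j) (ff_tsum d j) c η J h.c0 h.hJ
    hη0 (by linarith) hRc hsp
  rw [← hRdef] at hdec
  -- rewrite the left-hand side of `hdec` with positions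
  have hsum : ∑ a ∈ A, ∑ a' ∈ A, ac (ff d j) (a - a') =
      ∑ p ∈ P, ∑ p' ∈ P, ac (ff d j) (el e π p' - el e π p) := by
    rw [Finset.sum_comm, hA, Finset.sum_image hinj]
    refine Finset.sum_congr rfl fun p _ => ?_
    rw [Finset.sum_image hinj]
  rw [hsum] at hdec
  have hsplit : ∀ p ∈ P, ∑ p' ∈ P.erase p, (R + ac (ff d j) (el e π p' - el e π p)) / 2 =
      (∑ p' ∈ P, ac (ff d j) (el e π p' - el e π p) + ((P.card : ℝ) - 2) * R) / 2 := by
    intro p hp
    have h1 := Finset.add_sum_erase P (fun p' => (R + ac (ff d j) (el e π p' - el e π p)) / 2) hp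
    have h2 : ∑ p' ∈ P, (R + ac (ff d j) (el e π p' - el e π p)) / 2 =
        ((P.card : ℝ) * R + ∑ p' ∈ P, ac (ff d j) (el e π p' - el e π p)) / 2 := by
      rw [← Finset.sum_div, Finset.sum_add_distrib, Finset.sum_const, nsmul_eq_mul]
    simp only [sub_self] at h1
    rw [h2, ← hRdef] at h1
    linarith
  rw [Finset.sum_congr rfl hsplit, ← Finset.sum_div, Finset.sum_add_distrib, Finset.sum_const,
    nsmul_eq_mul, hPc]
  set m : ℝ := (k : ℝ) - U.card with hm
  rw [hAcr] at hdec
  have hδ : 0 < η / (2 * 4 ^ J) := by positivity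
  have hm0 : 0 ≤ m := by
    rw [← hPc]
    positivity
  have e1 : η / (4 * 4 ^ J) = η / (2 * 4 ^ J) / 2 := by
    field_simp
    ring
  rw [e1]
  set δ : ℝ := η / (2 * 4 ^ J) with hδdef
  have hmR : 0 ≤ δ * (m * R) := by positivity
  nlinarith

/-- one step -/
theorem i_step (e : Fin k → G) (c η : ℝ) (J : ℕ) (h : Par e c η J) (U : Finset ℕ)
    (hU : U ⊆ range k) (hcard : (U.card : ℝ) + 2 ≤ η * k) (l r : ℕ) (hl : l < k) (hr : r < k)
    (hlr : l ≠ r) (hlU : l ∉ U) (hrU : r ∉ U) (d : Perm (Fin k) → ℕ → G) (j : ℕ)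
    (hdj : ∀ π, d π j = el e π r - el e π l) (hd : Dep U (fun π => ff (d π) j))
    (F : Perm (Fin k) → ℝ) (hF : Dep U F) (hF0 : ∀ π, 0 ≤ F π) :
    ∑ π, F π * (if c / ((1 - η) * k) < ac (ff (d π) (j + 1)) 0 then ac (ff (d π) (j + 1)) 0
        else 0) ≤
      (1 - η / (4 * 4 ^ J)) * ∑ π, F π * (if c / ((1 - η) * k) < ac (ff (d π) j) 0 then
        ac (ff (d π) j) 0 else 0) := by
  classical
  have hη0 := h.η0
  have hη1 := h.η1
  have hk : 0 < k := by omega
  have hkr : (0 : ℝ) < k := by exact_mod_cast hk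
  set thr : ℝ := c / ((1 - η) * k) with hthr
  set g : Perm (Fin k) → G → G → ℝ := fun π u v =>
    F π * ((if thr < ac (ff (d π) j) 0 then 1 else 0) *
      ((ac (ff (d π) j) 0 + ac (ff (d π) j) (v - u)) / 2)) with hg
  have hgdep : Dep U g := by
    intro π π' ha
    have e1 : ff (d π) j = ff (d π') j := hd π π' ha
    simp only [hg]
    rw [hF π π' ha, e1]
  have hex := exch e U hU l r hl hr hlr hlU hrU g hgdep
  set m : ℝ := (k : ℝ) - U.card with hm
  have hm2 : 2 ≤ m := by
    have : η * k ≤ k := by nlinarith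
    rw [hm]
    linarith
  have hmm : 0 < m * (m - 1) := by
    have : 0 < m - 1 := by linarith
    positivity
  -- pointwise
  have h1 : ∑ π, F π * (if thr < ac (ff (d π) (j + 1)) 0 then ac (ff (d π) (j + 1)) 0 else 0) ≤
      ∑ π, g π (el e π l) (el e π r) := by
    refine Finset.sum_le_sum fun π _ => ?_
    simp only [hg]
    refine mul_le_mul_of_nonneg_left ?_ (hF0 π)
    have e1 := ac_succ (d π) j
    have e2 := ac_le (d π) j (d π j)
    have e3 := ac_nonneg (d π) j 0
    have e4 := ac_nonneg (d π) j (el e π r - el e π l)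
    rw [hdj π] at e1 e2
    by_cases h2 : thr < ac (ff (d π) (j + 1)) 0
    · have h3 : thr < ac (ff (d π) j) 0 := by linarith
      rw [if_pos h2, if_pos h3, one_mul, e1]
    · rw [if_neg h2]
      split_ifs
      · linarith
      · linarith
  refine h1.trans ?_
  have h2 : m * (m - 1) * ∑ π, g π (el e π l) (el e π r) ≤
      m * (m - 1) * ((1 - η / (4 * 4 ^ J)) * ∑ π, F π * (if thr < ac (ff (d π) j) 0 then
        ac (ff (d π) j) 0 else 0)) := by
    rw [hex, Finset.mul_sum, Finset.mul_sum]
    refine Finset.sum_le_sum fun π _ => ?_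
    simp only [hg]
    by_cases h3 : thr < ac (ff (d π) j) 0
    · simp only [if_pos h3, one_mul]
      have h4 := i_pairs e c η J h U hU (by linarith) hk π (d π) j h3
      rw [← hm] at h4
      have h5 := mul_le_mul_of_nonneg_left h4 (hF0 π)
      rw [Finset.mul_sum] at h5
      simp only [Finset.mul_sum] at h5
      refine h5.trans (le_of_eq ?_)
      ring
    · simp only [if_neg h3]
      simp
  exact le_of_mul_le_mul_left h2 hmm

/-- the positions used before step `j` -/
def i_U (D : Finset ℕ) (a b : ℕ → ℕ) (j : ℕ) : Finset ℕ :=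
  D ∪ ((range j).image a ∪ (range j).image b)

theorem i_U_card (D : Finset ℕ) (a b : ℕ → ℕ) (j : ℕ) : (i_U D a b j).card ≤ D.card + 2 * j := by
  unfold i_U
  have h1 := Finset.card_union_le D ((range j).image a ∪ (range j).image b)
  have h2 := Finset.card_union_le ((range j).image a) ((range j).image b)
  have h3 : ((range j).image a).card ≤ j := by
    simpa using (Finset.card_image_le (s := range j) (f := a))
  have h4 : ((range j).image b).card ≤ j := by
    simpa using (Finset.card_image_le (s := range j) (f := b))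
  omega

theorem i_main (e : Fin k → G) (c η : ℝ) (J : ℕ) (h : Par e c η J) (D : Finset ℕ)
    (hD : D ⊆ range k) (n : ℕ) (a b : ℕ → ℕ) (ha : ∀ j < n, a j < k ∧ a j ∉ D)
    (hb : ∀ j < n, b j < k ∧ b j ∉ D) (hab : ∀ i < n, ∀ j < n, a i ≠ b j)
    (haa : ∀ i < n, ∀ j < n, i ≠ j → a i ≠ a j ∧ b i ≠ b j)
    (hcard : (D.card : ℝ) + 2 * n ≤ η * k) (F : Perm (Fin k) → ℝ) (hF : Dep D F)
    (hF0 : ∀ π, 0 ≤ F π) (j : ℕ) (hj : j ≤ n) :
    ∑ π, F π * (if c / ((1 - η) * k) <
        ac (ff (fun i => el e π (b i) - el e π (a i)) j) 0 then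
        ac (ff (fun i => el e π (b i) - el e π (a i)) j) 0 else 0) ≤
      (1 - η / (4 * 4 ^ J)) ^ j * ∑ π, F π := by
  classical
  have hη0 := h.η0
  have hη1 := h.η1
  induction j with
  | zero =>
    rw [pow_zero, one_mul]
    refine Finset.sum_le_sum fun π _ => ?_
    rw [ac_start]
    split_ifs
    · rw [mul_one]
    · rw [mul_zero]
      exact hF0 π
  | succ j ih =>
    have hjn : j < n := hj
    have hU : i_U D a b j ⊆ range k := by
      intro x hx
      simp only [i_U, Finset.mem_union, Finset.mem_image, Finset.mem_range] at hx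
      rcases hx with hx | ⟨i, hi, rfl⟩ | ⟨i, hi, rfl⟩
      · exact hD hx
      · exact Finset.mem_range.2 (ha i (by omega)).1
      · exact Finset.mem_range.2 (hb i (by omega)).1
    have hcU : ((i_U D a b j).card : ℝ) + 2 ≤ η * k := by
      have h1 : ((i_U D a b j).card : ℝ) ≤ D.card + 2 * j := by
        exact_mod_cast i_U_card D a b j
      have h2 : (j : ℝ) + 1 ≤ n := by exact_mod_cast hjn
      linarith
    have hlU : a j ∉ i_U D a b j := by
      simp only [i_U, Finset.mem_union, Finset.mem_image, Finset.mem_range]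
      rintro (hx | ⟨i, hi, hx⟩ | ⟨i, hi, hx⟩)
      · exact (ha j hjn).2 hx
      · exact (haa i (by omega) j hjn (by omega)).1 hx
      · exact hab j hjn i (by omega) hx.symm
    have hrU : b j ∉ i_U D a b j := by
      simp only [i_U, Finset.mem_union, Finset.mem_image, Finset.mem_range]
      rintro (hx | ⟨i, hi, hx⟩ | ⟨i, hi, hx⟩)
      · exact (hb j hjn).2 hx
      · exact hab i (by omega) j hjn hx
      · exact (haa i (by omega) j hjn (by omega)).2 hx
    have hdep : Dep (i_U D a b j)
        (fun π => ff (fun i => el e π (b i) - el e π (a i)) j) := by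
      intro π π' hag
      refine ff_congr _ _ j fun i hi => ?_
      have h1 : a i ∈ i_U D a b j := by
        simp only [i_U, Finset.mem_union, Finset.mem_image, Finset.mem_range]
        exact Or.inr (Or.inl ⟨i, hi, rfl⟩)
      have h2 : b i ∈ i_U D a b j := by
        simp only [i_U, Finset.mem_union, Finset.mem_image, Finset.mem_range]
        exact Or.inr (Or.inr ⟨i, hi, rfl⟩)
      have h3 : el e π (a i) = el e π' (a i) := dep_el e h1 π π' hag
      have h4 : el e π (b i) = el e π' (b i) := dep_el e h2 π π' hag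
      rw [h3, h4]
    have hstep := i_step e c η J h (i_U D a b j) hU hcU (a j) (b j) (ha j hjn).1 (hb j hjn).1
      (hab j hjn j hjn) hlU hrU (fun π i => el e π (b i) - el e π (a i)) j (fun π => rfl) hdep F
      (hF.mono (by unfold i_U; exact Finset.subset_union_left)) hF0
    have hδ : 0 ≤ 1 - η / (4 * 4 ^ J) := by
      have h1 : (1 : ℝ) ≤ 4 ^ J := one_le_pow₀ (by norm_num)
      have h2 : η / (4 * 4 ^ J) ≤ 1 := by
        rw [div_le_one (by positivity)]
        linarith
      linarith
    refine hstep.trans ?_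
    rw [pow_succ']
    rw [mul_assoc]
    exact mul_le_mul_of_nonneg_left (ih (by omega)) hδ

theorem iter (e : Fin k → G) (c η : ℝ) (J : ℕ) (h : Par e c η J) (D : Finset ℕ)
    (hD : D ⊆ range k) (n : ℕ) (a b : ℕ → ℕ) (ha : ∀ j < n, a j < k ∧ a j ∉ D)
    (hb : ∀ j < n, b j < k ∧ b j ∉ D) (hab : ∀ i < n, ∀ j < n, a i ≠ b j)
    (haa : ∀ i < n, ∀ j < n, i ≠ j → a i ≠ a j ∧ b i ≠ b j)
    (hcard : (D.card : ℝ) + 2 * n ≤ η * k) (F : Perm (Fin k) → ℝ) (hF : Dep D F)
    (hF0 : ∀ π, 0 ≤ F π) :
    ∑ π, F π * ac (ff (fun j => el e π (b j) - el e π (a j)) n) 0 ≤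
      bet c η J n k * ∑ π, F π := by
  have hη0 := h.η0
  have hη1 := h.η1
  have hmain := i_main e c η J h D hD n a b ha hb hab haa hcard F hF hF0 n le_rfl
  have hthr : 0 ≤ c / ((1 - η) * k) := by
    have : 0 ≤ 1 - η := by linarith
    have := h.c0
    positivity
  unfold bet
  rw [add_mul]
  have h1 : ∑ π, F π * ac (ff (fun j => el e π (b j) - el e π (a j)) n) 0 ≤
      ∑ π, F π * (if c / ((1 - η) * k) <
        ac (ff (fun i => el e π (b i) - el e π (a i)) n) 0 then
        ac (ff (fun i => el e π (b i) - el e π (a i)) n) 0 else 0) +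
      c / ((1 - η) * k) * ∑ π, F π := by
    rw [Finset.mul_sum, ← Finset.sum_add_distrib]
    refine Finset.sum_le_sum fun π _ => ?_
    have h2 := hF0 π
    split_ifs with h3
    · have : 0 ≤ c / ((1 - η) * k) * F π := mul_nonneg hthr h2
      linarith
    · rw [mul_zero, zero_add, mul_comm]
      exact mul_le_mul_of_nonneg_right (not_lt.1 h3) h2
  linarith

end Pool.Agent.SPQ
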