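import Pool.Agent.Lib_helper8.SPQ.Defs
import Pool.Agent.Lib_helper8.SPQ.C1
import Pool.Agent.Lib_helper8.SPQ.I

namespace Pool.Agent.SPQ

open Finset Equiv Function Pool.Agent.SEQ

variable {G : Type*} [AddCommGroup G] {k : ℕ}

/-! ### other blocks -/

/-! ### Block J2 -/

/-- the positions used before zone `u` -/
def j2_pos (D : Finset ℕ) (n : ℕ) (a b : ℕ → ℕ → ℕ) (u : ℕ) : Finset ℕ :=
  D ∪ (range u).biUnion fun i => (range (2 * n)).biUnion fun j => {a i j, b i j}

theorem j2_pos_mem (D : Finset ℕ) (n : ℕ) (a b : ℕ → ℕ → ℕ) (u x : ℕ) :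
    x ∈ j2_pos D n a b u ↔ x ∈ D ∨ ∃ i < u, ∃ j < 2 * n, x = a i j ∨ x = b i j := by
  simp [j2_pos]

theorem j2_pos_card (D : Finset ℕ) (n : ℕ) (a b : ℕ → ℕ → ℕ) (u : ℕ) :
    (j2_pos D n a b u).card ≤ D.card + 4 * n * u := by
  unfold j2_pos
  refine (card_union_le _ _).trans (Nat.add_le_add_left ?_ _)
  refine card_biUnion_le.trans ?_
  calc ∑ i ∈ range u, ((range (2 * n)).biUnion fun j => {a i j, b i j}).card
      ≤ ∑ _i ∈ range u, 2 * n * 2 := by
        refine sum_le_sum fun i _ => ?_
        refine card_biUnion_le.trans ?_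
        calc ∑ j ∈ range (2 * n), ({a i j, b i j} : Finset ℕ).card
            ≤ ∑ _j ∈ range (2 * n), 2 := sum_le_sum fun j _ => card_le_two
          _ = 2 * n * 2 := by simp
    _ = 4 * n * u := by
        rw [sum_const, card_range, smul_eq_mul]; ring

theorem j2_rho_nonneg (e : Fin k → G) (n : ℕ) (a b : ℕ → ℕ) (π : Perm (Fin k)) :
    0 ≤ rho e n a b π := by
  unfold rho
  have h1 := ac_nonneg (fun j => el e π (b j) - el e π (a j)) n 0
  have h2 := ac_nonneg (fun j => el e π (b (n + j)) - el e π (a (n + j))) n 0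
  linarith

theorem j2_rho_dep (e : Fin k → G) (n : ℕ) (a b : ℕ → ℕ) (D : Finset ℕ)
    (ha : ∀ j < 2 * n, a j ∈ D) (hb : ∀ j < 2 * n, b j ∈ D) :
    Dep D (fun π => rho e n a b π) := by
  intro π π' hA
  have h1 : ff (fun j => el e π (b j) - el e π (a j)) n =
      ff (fun j => el e π' (b j) - el e π' (a j)) n := by
    refine ff_congr _ _ n fun j hj => ?_
    have x1 := dep_el e (ha j (by omega)) π π' hA
    have x2 := dep_el e (hb j (by omega)) π π' hA
    simp only at x1 x2
    rw [x1, x2]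
  have h2 : ff (fun j => el e π (b (n + j)) - el e π (a (n + j))) n =
      ff (fun j => el e π' (b (n + j)) - el e π' (a (n + j))) n := by
    refine ff_congr _ _ n fun j hj => ?_
    have x1 := dep_el e (ha (n + j) (by omega)) π π' hA
    have x2 := dep_el e (hb (n + j) (by omega)) π π' hA
    simp only at x1 x2
    rw [x1, x2]
  simp only [rho]
  rw [h1, h2]

open Classical in
theorem j2_F_dep (e : Fin k → G) (D : Finset ℕ) (S : Perm (Fin k) → Prop) (hS : Dep D S)
    (n : ℕ) (a b : ℕ → ℕ → ℕ) (u : ℕ) :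
    Dep (j2_pos D n a b u) (fun π => (if S π then (1 : ℝ) else 0) *
      ∏ i ∈ range u, rho e n (a i) (b i) π) := by
  intro π π' hA
  have h1 : S π = S π' :=
    hS π π' (hA.mono fun x hx => (j2_pos_mem D n a b u x).2 (Or.inl hx))
  have h2 : ∏ i ∈ range u, rho e n (a i) (b i) π = ∏ i ∈ range u, rho e n (a i) (b i) π' := by
    refine prod_congr rfl fun i hi => ?_
    rw [mem_range] at hi
    exact j2_rho_dep e n (a i) (b i) (j2_pos D n a b u)
      (fun j hj => (j2_pos_mem D n a b u _).2 (Or.inr ⟨i, hi, j, hj, Or.inl rfl⟩))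
      (fun j hj => (j2_pos_mem D n a b u _).2 (Or.inr ⟨i, hi, j, hj, Or.inr rfl⟩)) π π' hA
  simp only [h1, h2]

theorem j2_bet_nonneg (e : Fin k → G) (c η : ℝ) (J : ℕ) (h : Par e c η J) (n : ℕ) :
    0 ≤ bet c η J n k := by
  unfold bet
  have h0 := h.c0
  have h1 := h.η0
  have h2 := h.η1
  have h4 : (1 : ℝ) ≤ 4 ^ J := one_le_pow₀ (by norm_num)
  have h3 : η / (4 * 4 ^ J) ≤ 1 := by
    rw [div_le_one (by positivity)]
    linarith
  have h5 : 0 ≤ (1 - η / (4 * 4 ^ J)) ^ n := pow_nonneg (by linarith) n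
  have h6 : 0 ≤ c / ((1 - η) * k) := by
    refine div_nonneg h0.le (mul_nonneg (by linarith) (Nat.cast_nonneg _))
  linarith

open Classical in
theorem joint_prod (e : Fin k → G) (c η : ℝ) (J : ℕ) (h : Par e c η J) (D : Finset ℕ)
    (hD : D ⊆ range k) (S : Perm (Fin k) → Prop) (hS : Dep D S) (n u : ℕ) (a b : ℕ → ℕ → ℕ)
    (ha : ∀ i < u, ∀ j < 2 * n, a i j < k ∧ a i j ∉ D)
    (hb : ∀ i < u, ∀ j < 2 * n, b i j < k ∧ b i j ∉ D)
    (haa : ∀ i < u, ∀ j < 2 * n, ∀ i' < u, ∀ j' < 2 * n, (i, j) ≠ (i', j') →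
      a i j ≠ a i' j' ∧ b i j ≠ b i' j')
    (hab : ∀ i < u, ∀ j < 2 * n, ∀ i' < u, ∀ j' < 2 * n, a i j ≠ b i' j')
    (hcard : (D.card : ℝ) + 4 * n * u ≤ η * k) :
    ∑ π, (if S π then 1 else 0) * ∏ i ∈ range u, rho e n (a i) (b i) π ≤
      bet c η J n k ^ u * (cnt S : ℝ) := by
  induction u with
  | zero =>
    simp only [range_zero, prod_empty, mul_one, pow_zero, one_mul]
    unfold cnt
    rw [Finset.sum_boole]
  | succ u ih =>
    have hb0 := j2_bet_nonneg e c η J h n
    have hn0 : (0 : ℝ) ≤ n := Nat.cast_nonneg _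
    have ih' := ih (fun i hi => ha i (by omega)) (fun i hi => hb i (by omega))
      (fun i hi j hj i' hi' => haa i (by omega) j hj i' (by omega))
      (fun i hi j hj i' hi' => hab i (by omega) j hj i' (by omega))
      (by push_cast at hcard; nlinarith)
    set F : Perm (Fin k) → ℝ := fun π => (if S π then (1 : ℝ) else 0) *
      ∏ i ∈ range u, rho e n (a i) (b i) π with hF
    have hFdep : Dep (j2_pos D n a b u) F := j2_F_dep e D S hS n a b u
    have hF0 : ∀ π, 0 ≤ F π := by
      intro π
      refine mul_nonneg ?_ (prod_nonneg fun i _ => j2_rho_nonneg e n (a i) (b i) π)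
      split_ifs <;> norm_num
    have hsub : j2_pos D n a b u ⊆ range k := by
      intro x hx
      rw [j2_pos_mem] at hx
      rcases hx with hx | ⟨i, hi, j, hj, rfl | rfl⟩
      · exact hD hx
      · exact mem_range.2 (ha i (by omega) j hj).1
      · exact mem_range.2 (hb i (by omega) j hj).1
    have hna : ∀ j < 2 * n, a u j ∉ j2_pos D n a b u := by
      intro j hj hx
      rw [j2_pos_mem] at hx
      rcases hx with hx | ⟨i, hi, j', hj', hx | hx⟩
      · exact (ha u (by omega) j hj).2 hx
      · exact (haa u (by omega) j hj i (by omega) j' hj' (by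
          intro hc; rw [Prod.mk.injEq] at hc; omega)).1 hx
      · exact hab u (by omega) j hj i (by omega) j' hj' hx
    have hnb : ∀ j < 2 * n, b u j ∉ j2_pos D n a b u := by
      intro j hj hx
      rw [j2_pos_mem] at hx
      rcases hx with hx | ⟨i, hi, j', hj', hx | hx⟩
      · exact (hb u (by omega) j hj).2 hx
      · exact hab i (by omega) j' hj' u (by omega) j hj hx.symm
      · exact (haa u (by omega) j hj i (by omega) j' hj' (by
          intro hc; rw [Prod.mk.injEq] at hc; omega)).2 hx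
    have hcd : ((j2_pos D n a b u).card : ℝ) + 2 * n ≤ η * k := by
      have h1 : ((j2_pos D n a b u).card : ℝ) ≤ D.card + 4 * n * u := by
        exact_mod_cast j2_pos_card D n a b u
      push_cast at hcard
      nlinarith
    have k1 := iter e c η J h (j2_pos D n a b u) hsub n (a u) (b u)
      (fun j hj => ⟨(ha u (by omega) j (by omega)).1, hna j (by omega)⟩)
      (fun j hj => ⟨(hb u (by omega) j (by omega)).1, hnb j (by omega)⟩)
      (fun i hi j hj => hab u (by omega) i (by omega) u (by omega) j (by omega))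
      (fun i hi j hj hij => haa u (by omega) i (by omega) u (by omega) j (by omega) (by
        intro hc; rw [Prod.mk.injEq] at hc; exact hij hc.2)) hcd F hFdep hF0
    have k2 := iter e c η J h (j2_pos D n a b u) hsub n (fun j => a u (n + j))
      (fun j => b u (n + j))
      (fun j hj => ⟨(ha u (by omega) (n + j) (by omega)).1, hna (n + j) (by omega)⟩)
      (fun j hj => ⟨(hb u (by omega) (n + j) (by omega)).1, hnb (n + j) (by omega)⟩)
      (fun i hi j hj => hab u (by omega) (n + i) (by omega) u (by omega) (n + j) (by omega))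
      (fun i hi j hj hij => haa u (by omega) (n + i) (by omega) u (by omega) (n + j) (by omega) (by
        intro hc; rw [Prod.mk.injEq] at hc; omega)) hcd F hFdep hF0
    have k3 : ∑ π, (if S π then (1 : ℝ) else 0) *
        ∏ i ∈ range (u + 1), rho e n (a i) (b i) π =
        (∑ π, F π * ac (ff (fun j => el e π (b u j) - el e π (a u j)) n) 0 +
          ∑ π, F π * ac (ff (fun j => el e π (b u (n + j)) - el e π (a u (n + j))) n) 0) / 2 := by
      rw [← sum_add_distrib, sum_div]
      refine sum_congr rfl fun π _ => ?_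
      rw [prod_range_succ]
      simp only [hF, rho]
      ring
    rw [k3]
    calc _ ≤ (bet c η J n k * ∑ π, F π + bet c η J n k * ∑ π, F π) / 2 := by
          linarith
      _ = bet c η J n k * ∑ π, F π := by ring
      _ ≤ bet c η J n k * (bet c η J n k ^ u * (cnt S : ℝ)) := mul_le_mul_of_nonneg_left ih' hb0
      _ = bet c η J n k ^ (u + 1) * (cnt S : ℝ) := by ring

end Pool.Agent.SPQ
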