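import Pool.Agent.Lib_helper8.SPQ.Defs
import Pool.Agent.Lib_helper26.SEQ.WSWN
import Pool.Agent.Lib_helper26.SEQ.WSPV
import Pool.Agent.Lib_helper8.SPQ.J1
import Pool.Agent.Lib_helper8.SPQ.J2

namespace Pool.Agent.SPQ

open Finset Equiv Function Pool.Agent.SEQ

variable {G : Type*} [AddCommGroup G] {k : ℕ}

/-! ### other blocks -/

/-! ### Block Z3: one window -/

/-- an enumeration of `M` different elements of a finite set -/
theorem z3_enum (W : Finset ℕ) (M : ℕ) (hM : M ≤ W.card) :
    ∃ a : ℕ → ℕ, (∀ j < M, a j ∈ W) ∧ ∀ i < M, ∀ j < M, i ≠ j → a i ≠ a j := by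
  refine ⟨fun j => if h : j < W.card then W.orderEmbOfFin rfl ⟨j, h⟩ else 0, ?_, ?_⟩
  · intro j hj
    have hj' : j < W.card := by omega
    simp only [hj', dif_pos]
    exact W.orderEmbOfFin_mem rfl ⟨j, hj'⟩
  · intro i hi j hj hij heq
    have hi' : i < W.card := by omega
    have hj' : j < W.card := by omega
    simp only [hi', hj', dif_pos] at heq
    have h1 := (W.orderEmbOfFin rfl).injective heq
    rw [Fin.mk.injEq] at h1
    exact hij h1

theorem z3_bet_nonneg (c η : ℝ) (J n k : ℕ) (hc : 0 < c) (h0 : 0 < η) (h1 : η ≤ 1 / 4) :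
    0 ≤ bet c η J n k := by
  unfold bet
  have h2 : (1 : ℝ) ≤ 4 ^ J := one_le_pow₀ (by norm_num)
  have h3 : η / (4 * 4 ^ J) ≤ 1 := by
    rw [div_le_one (by positivity)]
    linarith
  have h4 : 0 ≤ (1 - η / (4 * 4 ^ J)) ^ n := pow_nonneg (by linarith) n
  have h5 : 0 ≤ c / ((1 - η) * k) :=
    div_nonneg hc.le (mul_nonneg (by linarith) (Nat.cast_nonneg k))
  linarith

theorem win_beta (e : Fin k → G) (c η : ℝ) (J : ℕ) (h : Par e c η J) (n t x : ℕ) (s : Bool)
    (y : ℕ) (r : Bool) (h1 : x + 2 * n ≤ y) (h2 : y + 2 * n ≤ x + k)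
    (hcard : (4 : ℝ) * n ≤ η * k) :
    (cnt (fun π => Co e t π x s y r) : ℝ) ≤ k.factorial * bet c η J n k := by
  classical
  have hbet := z3_bet_nonneg c η J n k h.c0 h.η0 h.η1
  by_cases hside : x + 2 ≤ y ∧ y ≤ k ∧ (s = true → 1 ≤ x) ∧ (r = true → y < k)
  · obtain ⟨hxy, hyk, hs, hr⟩ := hside
    have hWk := win_subset k x s y r hxy hyk hr
    have hWc := win_card x s y r hxy hs
    obtain ⟨a, ha, ha'⟩ := z3_enum (win x s y r) (2 * n) (by omega)
    obtain ⟨b, hb, hb'⟩ := z3_enum (range k \ win x s y r) (2 * n) (by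
      rw [Finset.card_sdiff_of_subset hWk, hWc, Finset.card_range]; omega)
    have key := joint_count e ∅ (fun _ => True) (dep_const ∅ True) n 1
      (fun _ => win x s y r) (fun _ => a) (fun _ => b) (fun _ _ => 0)
      (by
        intro i _ j hj
        exact ⟨Finset.mem_range.1 (hWk (ha j hj)), ha j hj, Finset.notMem_empty _⟩)
      (by
        intro i _ j hj
        have := hb j hj
        rw [Finset.mem_sdiff, Finset.mem_range] at this
        exact ⟨this.1, this.2, Finset.notMem_empty _⟩)
      (by intro i hi i' hi' hne; omega)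
      (by
        intro i hi j hj i' hi' j' hj' hne
        have hjj : j ≠ j' := by
          rintro rfl
          apply hne
          have : i = i' := by omega
          rw [this]
        exact ⟨ha' j hj j' hj' hjj, hb' j hj j' hj' hjj⟩)
      (by
        intro i hi j hj i' hi' j' hj' heq
        have h3 := ha j hj
        have h4 := hb j' hj'
        rw [Finset.mem_sdiff] at h4
        rw [heq] at h3
        exact h4.2 h3)
      (by intro i _ i' _ j _ π; rfl)
    have key2 := joint_prod e c η J h ∅ (Finset.empty_subset _) (fun _ => True)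
      (dep_const ∅ True) n 1 (fun _ => a) (fun _ => b)
      (by
        intro i _ j hj
        exact ⟨Finset.mem_range.1 (hWk (ha j hj)), Finset.notMem_empty _⟩)
      (by
        intro i _ j hj
        have := hb j hj
        rw [Finset.mem_sdiff, Finset.mem_range] at this
        exact ⟨this.1, Finset.notMem_empty _⟩)
      (by
        intro i hi j hj i' hi' j' hj' hne
        have hjj : j ≠ j' := by
          rintro rfl
          apply hne
          have : i = i' := by omega
          rw [this]
        exact ⟨ha' j hj j' hj' hjj, hb' j hj j' hj' hjj⟩)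
      (by
        intro i hi j hj i' hi' j' hj' heq
        have h3 := ha j hj
        have h4 := hb j' hj'
        rw [Finset.mem_sdiff] at h4
        rw [heq] at h3
        exact h4.2 h3)
      (by simpa using hcard)
    rw [cnt_true, pow_one] at key2
    calc (cnt (fun π => Co e t π x s y r) : ℝ)
        ≤ (cnt (fun π => (fun _ => True) π ∧ ∀ i < 1,
            ∑ p ∈ (fun _ : ℕ => win x s y r) i, el e π p =
              (fun (_ : ℕ) (_ : Perm (Fin k)) => (0 : G)) i π) : ℝ) := by
          exact_mod_cast cnt_mono (fun π hπ => by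
            refine ⟨trivial, fun i _ => ?_⟩
            show ∑ p ∈ win x s y r, el e π p = 0
            rw [← win_sum e π x s y r hxy hs, hπ.2.2.2.2.2, sub_self])
      _ ≤ _ := key
      _ ≤ _ := key2
      _ = _ := mul_comm _ _
  · have h0 : cnt (fun π => Co e t π x s y r) = 0 := by
      unfold cnt
      rw [Finset.card_eq_zero, Finset.filter_eq_empty_iff]
      intro π _ hπ
      exact hside ⟨hπ.1, hπ.2.2.1, hπ.2.2.2.1, hπ.2.2.2.2.1⟩
    rw [h0, Nat.cast_zero]
    positivity

theorem win_half (e : Fin k → G) (he : Injective e) (x : ℕ) (s : Bool) (y : ℕ) (r : Bool) :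
    (cnt (fun π => Co e (k - 1) π x s y r) : ℝ) * k ≤ 2 * k.factorial := by
  classical
  by_cases hside : x + 2 ≤ y ∧ y ≤ x + (k - 1) ∧ y ≤ k ∧ (s = true → 1 ≤ x) ∧
      (r = true → y < k)
  · obtain ⟨hxy, hyt, hyk, hs, hr⟩ := hside
    have hWk := win_subset k x s y r hxy hyk hr
    have hWc := win_card x s y r hxy hs
    have hCc : (range k \ win x s y r).card = k - (y - x) := by
      rw [Finset.card_sdiff_of_subset hWk, hWc, Finset.card_range]
    obtain ⟨p, hp⟩ : (win x s y r).Nonempty := by
      rw [← Finset.card_pos]; omega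
    obtain ⟨p', hp'⟩ : (range k \ win x s y r).Nonempty := by
      rw [← Finset.card_pos]; omega
    have key1 := pivot_sum e he (fun _ => True) ∅ (win x s y r) p (fun _ => (0 : G))
      (dep_const ∅ True) (dep_const ∅ 0) (Finset.empty_subset _) hWk hp (Finset.notMem_empty _)
    have key2 := pivot_sum e he (fun _ => True) ∅ (range k \ win x s y r) p'
      (fun _ => ∑ i, e i)
      (dep_const ∅ True) (dep_const ∅ _) (Finset.empty_subset _) Finset.sdiff_subset hp'
      (Finset.notMem_empty _)
    rw [Finset.empty_union, cnt_true, hWc] at key1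
    rw [Finset.empty_union, cnt_true, hCc] at key2
    have m1 : cnt (fun π => Co e (k - 1) π x s y r) ≤
        cnt (fun π => (fun _ => True) π ∧ ∑ p ∈ win x s y r, el e π p = 0) :=
      cnt_mono (fun π hπ => by
        refine ⟨trivial, ?_⟩
        rw [← win_sum e π x s y r hxy hs, hπ.2.2.2.2.2, sub_self])
    have m2 : cnt (fun π => Co e (k - 1) π x s y r) ≤
        cnt (fun π => (fun _ => True) π ∧
          ∑ p ∈ range k \ win x s y r, el e π p = ∑ i, e i) :=
      cnt_mono (fun π hπ => by
        refine ⟨trivial, ?_⟩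
        have h3 := Finset.sum_sdiff (f := fun p => el e π p) hWk
        have h4 : ∑ p ∈ win x s y r, el e π p = 0 := by
          rw [← win_sum e π x s y r hxy hs, hπ.2.2.2.2.2, sub_self]
        rw [h4, add_zero] at h3
        rw [h3]
        exact ps_total e π)
    have e1 := le_trans (Nat.mul_le_mul_right (k - (y - x)) m1) key1
    have e2 := le_trans (Nat.mul_le_mul_right (k - (k - (y - x))) m2) key2
    have e3 : cnt (fun π => Co e (k - 1) π x s y r) * k ≤ 2 * k.factorial := by
      have h5 : k = (k - (y - x)) + (k - (k - (y - x))) := by omega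
      calc cnt (fun π => Co e (k - 1) π x s y r) * k
          = cnt (fun π => Co e (k - 1) π x s y r) * (k - (y - x)) +
            cnt (fun π => Co e (k - 1) π x s y r) * (k - (k - (y - x))) := by
            rw [← mul_add, ← h5]
        _ ≤ k.factorial + k.factorial := Nat.add_le_add e1 e2
        _ = 2 * k.factorial := by ring
    exact_mod_cast e3
  · have h0 : cnt (fun π => Co e (k - 1) π x s y r) = 0 := by
      unfold cnt
      rw [Finset.card_eq_zero, Finset.filter_eq_empty_iff]
      intro π _ hπ
      exact hside ⟨hπ.1, hπ.2.1, hπ.2.2.1, hπ.2.2.2.1, hπ.2.2.2.2.1⟩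
    rw [h0, Nat.cast_zero, zero_mul]
    positivity

end Pool.Agent.SPQ
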