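import Pool.Agent.Lib_helper8.SPQ.Defs
import Pool.Agent.Lib_helper8.SPQ.Z3

namespace Pool.Agent.SPQ

open Finset Equiv Function Pool.Agent.SEQ

variable {G : Type*} [AddCommGroup G] {k : ℕ}

/-! ### other blocks -/

/-! ### Block U1 -/

theorem ub1_bet_nonneg (c η : ℝ) (J n k : ℕ) (hc : 0 < c) (h0 : 0 < η) (h1 : η ≤ 1 / 4) :
    0 ≤ bet c η J n k := by
  unfold bet
  have hJ : (1 : ℝ) ≤ 4 ^ J := one_le_pow₀ (by norm_num)
  have h2 : η / (4 * 4 ^ J) ≤ 1 := by
    rw [div_le_one (by positivity)]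
    linarith
  have h3 : (0 : ℝ) ≤ 1 - η / (4 * 4 ^ J) := by linarith
  have h4 : (0 : ℝ) ≤ c / ((1 - η) * k) :=
    div_nonneg hc.le (mul_nonneg (by linarith) (Nat.cast_nonneg k))
  have h5 : (0 : ℝ) ≤ (1 - η / (4 * 4 ^ J)) ^ n := pow_nonneg h3 n
  linarith

theorem ub1 (e : Fin k → G) (c η : ℝ) (J : ℕ) (h : Par e c η J) (n : ℕ)
    (hcard : (4 : ℝ) * n ≤ η * k) :
    (cnt (fun π => B1 e (k - 1) π) : ℝ) ≤
      k.factorial * (12 * (k * bet c η J n k + 4 * n * (2 / k))) := by
  classical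
  have hb0 : 0 ≤ bet c η J n k := ub1_bet_nonneg c η J n k h.c0 h.η0 h.η1
  set t : ℕ := k - 1 with ht
  let I : Finset (ℕ × ℕ × Bool × Bool) :=
    range 3 ×ˢ (range t ×ˢ ((univ : Finset Bool) ×ˢ (univ : Finset Bool)))
  let E : ℕ × ℕ × Bool × Bool → Perm (Fin k) → Prop := fun i π =>
    Co e t π (if i.1 = 2 then k - (i.2.1 + 1) else i.1) i.2.2.1
      (if i.1 = 2 then k else i.1 + (i.2.1 + 1)) i.2.2.2
  have h1 : cnt (fun π => B1 e t π) ≤ cnt (fun π => ∃ i ∈ I, E i π) := by
    apply cnt_mono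
    rintro π ⟨x, s, y, r, hco, hxy⟩
    have hco' := hco
    obtain ⟨c1, c2, c3, -, -, -⟩ := hco'
    rcases hxy with hx | hy
    · refine ⟨(x, y - x - 1, s, r), ?_, ?_⟩
      · simp only [I, mem_product, mem_range, mem_univ, and_true]
        omega
      · show Co e t π (if x = 2 then k - (y - x - 1 + 1) else x) s
          (if x = 2 then k else x + (y - x - 1 + 1)) r
        rw [if_neg (by omega), if_neg (by omega), show x + (y - x - 1 + 1) = y by omega]
        exact hco
    · refine ⟨(2, k - x - 1, s, r), ?_, ?_⟩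
      · simp only [I, mem_product, mem_range, mem_univ, and_true]
        omega
      · show Co e t π (if 2 = 2 then k - (k - x - 1 + 1) else 2) s
          (if 2 = 2 then k else 2 + (k - x - 1 + 1)) r
        rw [if_pos rfl, if_pos rfl, show k - (k - x - 1 + 1) = x by omega]
        rw [hy] at hco
        exact hco
  have h2 : cnt (fun π => ∃ i ∈ I, E i π) ≤ ∑ i ∈ I, cnt (E i) := cnt_exists_le I E
  have h3 : ((cnt (fun π => B1 e t π) : ℕ) : ℝ) ≤ ∑ i ∈ I, (cnt (E i) : ℝ) := by
    exact_mod_cast h1.trans h2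
  -- each index
  have h4 : ∀ i ∈ I, (cnt (E i) : ℝ) ≤ k.factorial * bet c η J n k +
      (if i.2.1 + 1 < 2 * n ∨ k < i.2.1 + 1 + 2 * n then (k.factorial : ℝ) * (2 / k) else 0) := by
    intro i hi
    simp only [I, mem_product, mem_range, mem_univ, and_true] at hi
    obtain ⟨hi1, hi2⟩ := hi
    have hk : 0 < k := by omega
    have hkR : (0 : ℝ) < k := by exact_mod_cast hk
    have hf : (0 : ℝ) ≤ k.factorial := Nat.cast_nonneg _
    split_ifs with hbad
    · have := win_half e h.inj (if i.1 = 2 then k - (i.2.1 + 1) else i.1) i.2.2.1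
        (if i.1 = 2 then k else i.1 + (i.2.1 + 1)) i.2.2.2
      have h5 : (cnt (E i) : ℝ) ≤ k.factorial * (2 / k) := by
        rw [← mul_div_assoc, le_div_iff₀ hkR]
        linarith
      have := mul_nonneg hf hb0
      linarith
    · have hgood1 : 2 * n ≤ i.2.1 + 1 := by omega
      have hgood2 : i.2.1 + 1 + 2 * n ≤ k := by omega
      rw [add_zero]
      refine win_beta e c η J h n t _ _ _ _ ?_ ?_ hcard
      · split_ifs <;> omega
      · split_ifs <;> omega
  have h5 : ∑ i ∈ I, (cnt (E i) : ℝ) ≤ ∑ i ∈ I, (k.factorial * bet c η J n k +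
      (if i.2.1 + 1 < 2 * n ∨ k < i.2.1 + 1 + 2 * n then (k.factorial : ℝ) * (2 / k) else 0)) :=
    Finset.sum_le_sum h4
  have hIcard : I.card = 12 * t := by
    simp only [I, card_product, card_range, card_univ, Fintype.card_bool]
    ring
  have hbadcard : (I.filter fun i => i.2.1 + 1 < 2 * n ∨ k < i.2.1 + 1 + 2 * n).card ≤
      12 * (4 * n) := by
    have hsub : (I.filter fun i => i.2.1 + 1 < 2 * n ∨ k < i.2.1 + 1 + 2 * n) ⊆
        range 3 ×ˢ ((range (2 * n) ∪ Ico (k - 2 * n) (k - 2 * n + 2 * n)) ×ˢ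
          ((univ : Finset Bool) ×ˢ (univ : Finset Bool))) := by
      intro i hi
      simp only [I, mem_filter, mem_product, mem_range, mem_univ, and_true] at hi
      simp only [mem_product, mem_range, mem_univ, and_true, mem_union, mem_Ico]
      omega
    refine (Finset.card_le_card hsub).trans ?_
    rw [card_product, card_product, card_product, card_range, card_univ, Fintype.card_bool]
    have h6 : (range (2 * n) ∪ Ico (k - 2 * n) (k - 2 * n + 2 * n)).card ≤ 4 * n := by
      refine (Finset.card_union_le _ _).trans ?_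
      rw [card_range, Nat.card_Ico]
      omega
    nlinarith
  have h6 : ∑ i ∈ I, (k.factorial * bet c η J n k +
      (if i.2.1 + 1 < 2 * n ∨ k < i.2.1 + 1 + 2 * n then (k.factorial : ℝ) * (2 / k) else 0)) =
      I.card * (k.factorial * bet c η J n k) +
      (I.filter fun i => i.2.1 + 1 < 2 * n ∨ k < i.2.1 + 1 + 2 * n).card *
        ((k.factorial : ℝ) * (2 / k)) := by
    rw [Finset.sum_add_distrib, Finset.sum_const, nsmul_eq_mul, ← Finset.sum_filter,
      Finset.sum_const, nsmul_eq_mul]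
  have hf : (0 : ℝ) ≤ k.factorial := Nat.cast_nonneg _
  have h7 : (0 : ℝ) ≤ (k.factorial : ℝ) * (2 / k) :=
    mul_nonneg hf (div_nonneg (by norm_num) (Nat.cast_nonneg k))
  have h8 : ((I.filter fun i => i.2.1 + 1 < 2 * n ∨ k < i.2.1 + 1 + 2 * n).card : ℝ) ≤
      12 * (4 * n) := by exact_mod_cast hbadcard
  have h9 : (I.card : ℝ) ≤ 12 * k := by
    have : I.card ≤ 12 * k := by rw [hIcard]; omega
    exact_mod_cast this
  calc (cnt (fun π => B1 e t π) : ℝ) ≤ ∑ i ∈ I, (cnt (E i) : ℝ) := h3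
    _ ≤ _ := h5
    _ = _ := h6
    _ ≤ (12 * k) * (k.factorial * bet c η J n k) +
        (12 * (4 * n)) * ((k.factorial : ℝ) * (2 / k)) :=
        add_le_add (mul_le_mul_of_nonneg_right h9 (mul_nonneg hf hb0))
          (mul_le_mul_of_nonneg_right h8 h7)
    _ = k.factorial * (12 * (k * bet c η J n k + 4 * n * (2 / k))) := by ring

end Pool.Agent.SPQ
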