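import Pool.Agent.Lib_helper8.SPQ.Defs
import Pool.Agent.Lib_helper8.SPQ.J1
import Pool.Agent.Lib_helper8.SPQ.J2

/-! Block Z4 of the project SPQ: two windows, the first one short. -/

namespace Pool.Agent.SPQ

open Finset Equiv Function Pool.Agent.SEQ

variable {G : Type*} [AddCommGroup G] {k : ℕ}

/-! ### other blocks (to be removed) -/

/-! ### Block Z4 -/

theorem z4_bet_nonneg {c η : ℝ} {J : ℕ} (hc : 0 < c) (h0 : 0 < η) (h1 : η ≤ 1 / 4)
    (n k : ℕ) : 0 ≤ bet c η J n k := by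
  unfold bet
  have h4 : (1 : ℝ) ≤ 4 ^ J := one_le_pow₀ (by norm_num)
  have h5 : η / (4 * 4 ^ J) ≤ 1 := by
    rw [div_le_one (by positivity)]
    linarith
  have h6 : 0 ≤ (1 - η / (4 * 4 ^ J)) ^ n := pow_nonneg (by linarith) n
  have h7 : 0 ≤ c / ((1 - η) * k) :=
    div_nonneg hc.le (mul_nonneg (by linarith) (Nat.cast_nonneg k))
  linarith

/-- enumeration of `m` elements of a finite set -/
theorem z4_enum (A : Finset ℕ) (m : ℕ) (hm : m ≤ A.card) :
    ∃ a : ℕ → ℕ, (∀ j < m, a j ∈ A) ∧ ∀ i < m, ∀ j < m, i ≠ j → a i ≠ a j := by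
  refine ⟨fun j => if h : j < A.card then A.orderEmbOfFin rfl ⟨j, h⟩ else 0, ?_, ?_⟩
  · intro j hj
    have h : j < A.card := lt_of_lt_of_le hj hm
    simp only [h, dif_pos]
    exact Finset.orderEmbOfFin_mem A rfl _
  · intro i hi j hj hij
    have h : i < A.card := lt_of_lt_of_le hi hm
    have h' : j < A.card := lt_of_lt_of_le hj hm
    simp only [h, h', dif_pos]
    intro heq
    have := (A.orderEmbOfFin rfl).injective heq
    exact hij (by simpa using this)

/-- the event that a short window has sum zero -/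
theorem z4_short (e : Fin k → G) (he : Injective e) (x : ℕ) (s : Bool) (y : ℕ) (r : Bool)
    (t : ℕ) (hsh : swb_sh k t x s y r) (hshort : y ≤ x + 3) :
    (cnt (fun π => ∑ p ∈ win x s y r, el e π p = 0) : ℝ) * ((k : ℝ) - 3) ≤ k.factorial := by
  obtain ⟨h1, h2, h3, h4, h5⟩ := hsh
  have hc := win_card x s y r h1 h4
  have hsub := win_subset k x s y r h1 h3 h5
  obtain ⟨p, hp⟩ : (win x s y r).Nonempty := by
    rw [← Finset.card_pos, hc]; omega
  by_cases hk : 3 ≤ k
  · have h := swb_step e he (fun _ => True) ∅ (win x s y r) p (dep_const ∅ True)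
      (Finset.empty_subset _) hsub hp (Finset.notMem_empty _) (k - 3) (by
        rw [Finset.empty_union, hc]; omega)
    rw [cnt_true] at h
    have h6 : cnt (fun π => ∑ p ∈ win x s y r, el e π p = 0) * (k - 3) ≤ k.factorial :=
      le_trans (Nat.mul_le_mul_right _ (cnt_mono (fun π hπ => ⟨trivial, hπ⟩))) h
    have h7 : ((cnt (fun π => ∑ p ∈ win x s y r, el e π p = 0) * (k - 3) : ℕ) : ℝ) ≤
        (k.factorial : ℝ) := by exact_mod_cast h6
    rw [Nat.cast_mul, Nat.cast_sub hk] at h7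
    exact_mod_cast h7
  · have h8 : (k : ℝ) - 3 ≤ 0 := by
      have : (k : ℝ) ≤ 3 := by exact_mod_cast (by omega : k ≤ 3)
      linarith
    calc (cnt (fun π => ∑ p ∈ win x s y r, el e π p = 0) : ℝ) * ((k : ℝ) - 3) ≤ 0 :=
          mul_nonpos_of_nonneg_of_nonpos (Nat.cast_nonneg _) h8
      _ ≤ k.factorial := Nat.cast_nonneg _

theorem pair_beta (e : Fin k → G) (c η : ℝ) (J : ℕ) (h : Par e c η J) (n t x : ℕ) (s : Bool)
    (y : ℕ) (r : Bool) (x' : ℕ) (s' : Bool) (y' : ℕ) (r' : Bool) (hshort : y ≤ x + 3)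
    (h1 : x' + (2 * n + 3) ≤ y') (h2 : y' + (2 * n + 3) ≤ x' + k)
    (hcard : (3 : ℝ) + 4 * n ≤ η * k) :
    (cnt (fun π => Co e t π x s y r ∧ Co e t π x' s' y' r') : ℝ) * ((k : ℝ) - 3) ≤
      k.factorial * bet c η J n k := by
  classical
  have hbet := z4_bet_nonneg (J := J) h.c0 h.η0 h.η1 n k
  by_cases hsh : swb_sh k t x s y r ∧ swb_sh k t x' s' y' r'
  · obtain ⟨hs1, hs2⟩ := hsh
    obtain ⟨f1, f2, f3, f4, f5⟩ := id hs1
    obtain ⟨g1, g2, g3, g4, g5⟩ := id hs2
    set D := win x s y r with hD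
    set Q := win x' s' y' r' with hQ
    have hDc : D.card = y - x := win_card x s y r f1 f4
    have hDsub : D ⊆ range k := win_subset k x s y r f1 f3 f5
    have hQc : Q.card = y' - x' := win_card x' s' y' r' g1 g4
    have hQsub : Q ⊆ range k := win_subset k x' s' y' r' g1 g3 g5
    have hD3 : D.card ≤ 3 := by omega
    have hA : 2 * n ≤ (Q \ D).card := by
      have := Finset.le_card_sdiff D Q
      omega
    have hB : 2 * n ≤ (range k \ (Q ∪ D)).card := by
      have h3 := Finset.le_card_sdiff (Q ∪ D) (range k)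
      have h4 := Finset.card_union_le Q D
      rw [Finset.card_range] at h3
      omega
    obtain ⟨a, ha1, ha2⟩ := z4_enum (Q \ D) (2 * n) hA
    obtain ⟨b, hb1, hb2⟩ := z4_enum (range k \ (Q ∪ D)) (2 * n) hB
    have hSdep : Dep D (fun π : Perm (Fin k) => ∑ p ∈ D, el e π p = 0) := by
      intro π π' hag
      have := dep_sum_el e (Finset.Subset.refl D) π π' hag
      simp only at this ⊢
      rw [this]
    have haQ : ∀ j < 2 * n, a j < k ∧ a j ∈ Q ∧ a j ∉ D := by
      intro j hj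
      have h3 := ha1 j hj
      rw [Finset.mem_sdiff] at h3
      exact ⟨Finset.mem_range.1 (hQsub h3.1), h3.1, h3.2⟩
    have hbQ : ∀ j < 2 * n, b j < k ∧ b j ∉ Q ∧ b j ∉ D := by
      intro j hj
      have h3 := hb1 j hj
      rw [Finset.mem_sdiff, Finset.mem_union, Finset.mem_range] at h3
      exact ⟨h3.1, fun h4 => h3.2 (Or.inl h4), fun h4 => h3.2 (Or.inr h4)⟩
    have hne : ∀ i < 1, ∀ j < 2 * n, ∀ i' < 1, ∀ j' < 2 * n, (i, j) ≠ (i', j') →
        (fun _ : ℕ => a) i j ≠ (fun _ : ℕ => a) i' j' ∧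
          (fun _ : ℕ => b) i j ≠ (fun _ : ℕ => b) i' j' := by
      intro i hi j hj i' hi' j' hj' hij
      have h3 : j ≠ j' := by
        rintro rfl
        exact hij (by rw [Nat.lt_one_iff.1 hi, Nat.lt_one_iff.1 hi'])
      exact ⟨ha2 j hj j' hj' h3, hb2 j hj j' hj' h3⟩
    have hab : ∀ i < 1, ∀ j < 2 * n, ∀ i' < 1, ∀ j' < 2 * n,
        (fun _ : ℕ => a) i j ≠ (fun _ : ℕ => b) i' j' := by
      intro i hi j hj i' hi' j' hj' heq
      have h3 : a j = b j' := heq
      exact (hbQ j' hj').2.1 (h3 ▸ (haQ j hj).2.1)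
    have hc1 := joint_count e D (fun π => ∑ p ∈ D, el e π p = 0) hSdep n 1 (fun _ => Q)
      (fun _ => a) (fun _ => b) (fun _ _ => 0) (fun i _ j hj => haQ j hj)
      (fun i _ j hj => hbQ j hj)
      (fun i hi i' hi' hii => absurd (by rw [Nat.lt_one_iff.1 hi, Nat.lt_one_iff.1 hi']) hii)
      hne hab (fun _ _ _ _ _ _ _ => rfl)
    have hc2 := joint_prod e c η J h D hDsub (fun π => ∑ p ∈ D, el e π p = 0) hSdep n 1
      (fun _ => a) (fun _ => b) (fun i _ j hj => ⟨(haQ j hj).1, (haQ j hj).2.2⟩)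
      (fun i _ j hj => ⟨(hbQ j hj).1, (hbQ j hj).2.2⟩) hne hab (by
        have : (D.card : ℝ) ≤ 3 := by exact_mod_cast hD3
        push_cast
        linarith)
    rw [pow_one] at hc2
    have hc3 := z4_short e h.inj x s y r t hs1 hshort
    have hk3 : (0 : ℝ) ≤ (k : ℝ) - 3 := by
      have : (3 : ℝ) ≤ k := by exact_mod_cast (by omega : 3 ≤ k)
      linarith
    have hc4 : (cnt (fun π => Co e t π x s y r ∧ Co e t π x' s' y' r') : ℝ) ≤
        (cnt (fun π => ∑ p ∈ D, el e π p = 0 ∧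
          ∀ i < 1, ∑ x ∈ (fun _ : ℕ => Q) i, el e π x = 0) : ℝ) := by
      have : cnt (fun π => Co e t π x s y r ∧ Co e t π x' s' y' r') ≤
          cnt (fun π => ∑ p ∈ D, el e π p = 0 ∧
            ∀ i < 1, ∑ x ∈ (fun _ : ℕ => Q) i, el e π x = 0) :=
        cnt_mono (fun π hπ => ⟨(swb_co hπ.1).2, fun _ _ => (swb_co hπ.2).2⟩)
      exact_mod_cast this
    have hc5 : (cnt (fun π => Co e t π x s y r ∧ Co e t π x' s' y' r') : ℝ) ≤
        bet c η J n k * (cnt (fun π => ∑ p ∈ D, el e π p = 0) : ℝ) :=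
      le_trans hc4 (le_trans hc1 hc2)
    calc (cnt (fun π => Co e t π x s y r ∧ Co e t π x' s' y' r') : ℝ) * ((k : ℝ) - 3)
        ≤ (bet c η J n k * (cnt (fun π => ∑ p ∈ D, el e π p = 0) : ℝ)) * ((k : ℝ) - 3) :=
          mul_le_mul_of_nonneg_right hc5 hk3
      _ = bet c η J n k * ((cnt (fun π => ∑ p ∈ D, el e π p = 0) : ℝ) * ((k : ℝ) - 3)) := by
          ring
      _ ≤ bet c η J n k * k.factorial := mul_le_mul_of_nonneg_left hc3 hbet
      _ = k.factorial * bet c η J n k := mul_comm _ _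
  · have h0 : cnt (fun π => Co e t π x s y r ∧ Co e t π x' s' y' r') = 0 :=
      swb_cnt_false (fun π hπ => hsh ⟨(swb_co hπ.1).1, (swb_co hπ.2).1⟩)
    rw [h0, Nat.cast_zero, zero_mul]
    exact mul_nonneg (Nat.cast_nonneg _) hbet

theorem short_one (e : Fin k → G) (he : Injective e) (t x : ℕ) (s : Bool) (y : ℕ) (r : Bool)
    (hshort : y ≤ x + 3) :
    (cnt (fun π => Co e t π x s y r) : ℝ) * ((k : ℝ) - 3) ≤ k.factorial := by
  by_cases hsh : swb_sh k t x s y r
  · by_cases hk : 3 ≤ k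
    · have hk3 : (0 : ℝ) ≤ (k : ℝ) - 3 := by
        have : (3 : ℝ) ≤ k := by exact_mod_cast hk
        linarith
      refine le_trans ?_ (z4_short e he x s y r t hsh hshort)
      apply mul_le_mul_of_nonneg_right _ hk3
      have : cnt (fun π => Co e t π x s y r) ≤
          cnt (fun π => ∑ p ∈ win x s y r, el e π p = 0) :=
        cnt_mono (fun π hπ => (swb_co hπ).2)
      exact_mod_cast this
    · have h8 : (k : ℝ) - 3 ≤ 0 := by
        have : (k : ℝ) ≤ 3 := by exact_mod_cast (by omega : k ≤ 3)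
        linarith
      calc (cnt (fun π => Co e t π x s y r) : ℝ) * ((k : ℝ) - 3) ≤ 0 :=
            mul_nonpos_of_nonneg_of_nonpos (Nat.cast_nonneg _) h8
        _ ≤ k.factorial := Nat.cast_nonneg _
  · rw [swb_cnt_false (fun π hπ => hsh (swb_co hπ).1), Nat.cast_zero, zero_mul]
    exact Nat.cast_nonneg _

end Pool.Agent.SPQ
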