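import Pool.Agent.Lib_helper8.SPQ.Defs
import Pool.Agent.Lib_helper8.SPQ.Z4

/-!
Block U2 of the project SPQ: short coincidences near other coincidences.
-/

namespace Pool.Agent.SPQ

open Finset Equiv Function Pool.Agent.SEQ

variable {G : Type*} [AddCommGroup G] {k : ℕ}

/-! ### other blocks -/

/-! ### Block U2 -/

/-- the pairs `(x, d)` for which the second window can be almost everything -/
def u2_C (n k : ℕ) (b : Bool) : Finset (ℕ × ℕ) :=
  (if b then range (2 * n + 4) else Ico (k - (2 * n + 6)) k) ×ˢ Ico (k - (2 * n + 3)) (k - 1)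

theorem u2_C_card (n k : ℕ) (b : Bool) : (u2_C n k b).card ≤ (2 * n + 8) ^ 2 := by
  unfold u2_C
  rw [card_product, Nat.card_Ico, pow_two]
  refine Nat.mul_le_mul ?_ (by omega)
  cases b
  · simp only [Bool.false_eq_true, if_false, Nat.card_Ico]
    omega
  · simp only [if_true, card_range]
    omega

theorem u2_empty (E : Perm (Fin k) → Prop) (h : ∀ π, ¬ E π) : cnt E = 0 := by
  classical
  unfold cnt
  rw [Finset.card_eq_zero, Finset.filter_eq_empty_iff]
  exact fun π _ => h π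

theorem u2_bet_nonneg (e : Fin k → G) (c η : ℝ) (J : ℕ) (h : Par e c η J) (n : ℕ) :
    0 ≤ bet c η J n k := by
  have h1 : (1 : ℝ) ≤ 4 ^ J := one_le_pow₀ (by norm_num)
  have h2 := h.η0
  have h3 := h.η1
  have h4 := h.c0
  unfold bet
  have h5 : η / (4 * 4 ^ J) ≤ 1 := by
    rw [div_le_one (by positivity)]
    linarith
  have h6 : 0 ≤ 1 - η / (4 * 4 ^ J) := by linarith
  have h7 : 0 < 1 - η := by linarith
  positivity

/-- the event of an index -/
def u2_E (e : Fin k → G) (t : ℕ) (i : SubI) (π : Perm (Fin k)) : Prop :=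
  sub_E e t i π ∧ sub_y' i = sub_x' i + (i.1.2 + 1)

/-- the bound for one index -/
theorem u2_one (e : Fin k → G) (c η : ℝ) (J : ℕ) (h : Par e c η J) (n : ℕ)
    (hk : 2 * n + 7 ≤ k) (hcard : (3 : ℝ) + 4 * n ≤ η * k) (p : ℕ × ℕ)
    (j : Fin 2 × Bool × Bool × Bool × Fin 3 × Bool × Bool × Bool) :
    (cnt (fun π => u2_E e (k - 1) (p, j) π) : ℝ) ≤
      k.factorial * bet c η J n k / (k - 3) +
        (if p.2 < 2 * n + 3 then (k.factorial : ℝ) / (k - 2 * n - 6) ^ 2 else 0) +
        (if p ∈ u2_C n k j.2.2.2.2.2.1 then (k.factorial : ℝ) / (k - 3) else 0) := by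
  have hkr : (2 : ℝ) * n + 7 ≤ k := by exact_mod_cast hk
  have hn0 : (0 : ℝ) ≤ n := by positivity
  have hk3 : (0 : ℝ) < (k : ℝ) - 3 := by linarith
  have hk6 : (0 : ℝ) < (k : ℝ) - 2 * n - 6 := by linarith
  have hb := u2_bet_nonneg e c η J h n
  have hF : (0 : ℝ) ≤ k.factorial := by positivity
  have hA : 0 ≤ (k.factorial : ℝ) * bet c η J n k / (k - 3) := by positivity
  have hB : 0 ≤ (if p.2 < 2 * n + 3 then (k.factorial : ℝ) / (k - 2 * n - 6) ^ 2 else 0) := by
    split_ifs
    · positivity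
    · exact le_rfl
  have hC : 0 ≤ (if p ∈ u2_C n k j.2.2.2.2.2.1 then (k.factorial : ℝ) / (k - 3) else 0) := by
    split_ifs
    · positivity
    · exact le_rfl
  have hsy : sub_y (p, j) ≤ p.1 + 3 := by
    have := j.1.2
    simp only [sub_y]
    omega
  have hsy' : p.1 ≤ sub_y (p, j) := by
    simp only [sub_y]
    omega
  by_cases hlen : sub_y' (p, j) = sub_x' (p, j) + (p.2 + 1)
  swap
  · rw [u2_empty _ fun π hπ => hlen hπ.2]
    push_cast
    linarith
  by_cases hmid : sub_x' (p, j) + (2 * n + 3) ≤ sub_y' (p, j) ∧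
      sub_y' (p, j) + (2 * n + 3) ≤ sub_x' (p, j) + k
  · have h1 := pair_beta e c η J h n (k - 1) p.1 j.2.1 (sub_y (p, j)) j.2.2.1
      (sub_x' (p, j)) j.2.2.2.2.2.2.1 (sub_y' (p, j)) j.2.2.2.2.2.2.2 hsy hmid.1 hmid.2 hcard
    have h2 : (cnt (fun π => u2_E e (k - 1) (p, j) π) : ℝ) ≤
        k.factorial * bet c η J n k / (k - 3) := by
      rw [le_div_iff₀ hk3]
      refine le_trans (mul_le_mul_of_nonneg_right ?_ hk3.le) h1
      have h3 : cnt (fun π => u2_E e (k - 1) (p, j) π) ≤ cnt (fun π =>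
          Co e (k - 1) π p.1 j.2.1 (sub_y (p, j)) j.2.2.1 ∧
          Co e (k - 1) π (sub_x' (p, j)) j.2.2.2.2.2.2.1 (sub_y' (p, j)) j.2.2.2.2.2.2.2) :=
        cnt_mono fun π (hπ : u2_E e (k - 1) (p, j) π) => hπ.1.2
      exact_mod_cast h3
    linarith
  by_cases hshort : p.2 < 2 * n + 3
  · have h1 : cnt (fun π => sub_E e (2 * n + 3) (p, j) π) * (k - (2 * n + 3) - 3) ^ 2 ≤
        k.factorial := sub_E_bound e h.inj (2 * n + 3) (p, j)
    have h2 : cnt (fun π => u2_E e (k - 1) (p, j) π) ≤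
        cnt (fun π => sub_E e (2 * n + 3) (p, j) π) := by
      refine cnt_mono fun π hπ => ?_
      obtain ⟨⟨g1, g2, g3⟩, _⟩ := hπ
      obtain ⟨a1, a2, a3⟩ := g2
      obtain ⟨b1, b2, b3⟩ := g3
      refine ⟨g1, ⟨a1, ?_, a3⟩, ⟨b1, ?_, b3⟩⟩
      · show sub_y (p, j) ≤ p.1 + (2 * n + 3)
        omega
      · omega
    have h3 : ((k - (2 * n + 3) - 3 : ℕ) : ℝ) = (k : ℝ) - 2 * n - 6 := by
      rw [Nat.sub_sub, Nat.cast_sub (by omega)]
      push_cast
      ring
    have h4 : (cnt (fun π => u2_E e (k - 1) (p, j) π) : ℝ) * ((k : ℝ) - 2 * n - 6) ^ 2 ≤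
        k.factorial := by
      rw [← h3]
      exact_mod_cast (Nat.mul_le_mul_right _ h2).trans h1
    rw [if_pos hshort]
    have h5 : (cnt (fun π => u2_E e (k - 1) (p, j) π) : ℝ) ≤
        (k.factorial : ℝ) / (k - 2 * n - 6) ^ 2 := by
      rw [le_div_iff₀ (by positivity)]
      exact h4
    linarith
  · by_cases hin : p ∈ u2_C n k j.2.2.2.2.2.1
    · rw [if_pos hin]
      have h1 := short_one e h.inj (k - 1) p.1 j.2.1 (sub_y (p, j)) j.2.2.1 hsy
      have h2 : (cnt (fun π => u2_E e (k - 1) (p, j) π) : ℝ) ≤ (k.factorial : ℝ) / (k - 3) := by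
        rw [le_div_iff₀ hk3]
        refine le_trans (mul_le_mul_of_nonneg_right ?_ hk3.le) h1
        have h3 : cnt (fun π => u2_E e (k - 1) (p, j) π) ≤ cnt (fun π =>
            Co e (k - 1) π p.1 j.2.1 (sub_y (p, j)) j.2.2.1) :=
          cnt_mono fun π (hπ : u2_E e (k - 1) (p, j) π) => hπ.1.2.1
        exact_mod_cast h3
      linarith
    · rw [u2_empty _ fun π hπ => ?_]
      · push_cast
        linarith
      apply hin
      obtain ⟨⟨_, g2, g3⟩, _⟩ := hπ
      obtain ⟨a1, a2, a3, _⟩ := g2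
      obtain ⟨b1, b2, b3, _⟩ := g3
      have a1' : p.1 + 2 ≤ sub_y (p, j) := a1
      have hz : (if j.2.2.2.1 then p.1 else sub_y (p, j)) ≤ sub_w (p, j) + 1 ∧
          sub_w (p, j) ≤ (if j.2.2.2.1 then p.1 else sub_y (p, j)) + 1 := by
        have := j.2.2.2.2.1.2
        simp only [sub_w]
        omega
      unfold u2_C
      rw [Finset.mem_product]
      constructor
      · cases hbv : j.2.2.2.2.2.1
        · have e1 : sub_y' (p, j) = sub_w (p, j) := by
            simp only [sub_y', hbv, Bool.false_eq_true, if_false]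
          simp only [Bool.false_eq_true, if_false, Finset.mem_Ico]
          cases hbz : j.2.2.2.1
          · simp only [hbz, Bool.false_eq_true, if_false] at hz
            omega
          · simp only [hbz, if_true] at hz
            omega
        · have e1 : sub_x' (p, j) = sub_w (p, j) := by
            simp only [sub_x', hbv, if_true]
          simp only [if_true, Finset.mem_range]
          cases hbz : j.2.2.2.1
          · simp only [hbz, Bool.false_eq_true, if_false] at hz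
            omega
          · simp only [hbz, if_true] at hz
            omega
      · rw [Finset.mem_Ico]
        omega

theorem u2_cover {x y x' y' t : ℕ} (h1 : x + 2 ≤ y) (h2 : y ≤ x + 3) (h1' : x' + 2 ≤ y')
    (h3' : y' ≤ x' + t) {z : ℕ} {bz : Bool} (hz : z = if bz then x else y) {v : ℕ} {bv : Bool}
    (hv : v = if bv then x' else y') (hzv : z ≤ v + 1 ∧ v ≤ z + 1) (s r s' r' : Bool) :
    ∃ (d : ℕ) (j : Fin 2) (ε : Fin 3), d < t ∧
      sub_y ((x, d), (j, s, r, bz, ε, bv, s', r')) = y ∧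
      sub_x' ((x, d), (j, s, r, bz, ε, bv, s', r')) = x' ∧
      sub_y' ((x, d), (j, s, r, bz, ε, bv, s', r')) = y' ∧ y' = x' + (d + 1) := by
  refine ⟨y' - x' - 1, ⟨y - x - 2, by omega⟩, ⟨v + 1 - z, by omega⟩, by omega, ?_⟩
  have hy : ∀ (d : ℕ) (ε : Fin 3),
      sub_y ((x, d), (⟨y - x - 2, by omega⟩, s, r, bz, ε, bv, s', r')) = y := by
    intro d ε
    simp only [sub_y]
    omega
  have hw : sub_w ((x, y' - x' - 1),
      (⟨y - x - 2, by omega⟩, s, r, bz, ⟨v + 1 - z, by omega⟩, bv, s', r')) = v := by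
    simp only [sub_w, hy]
    rw [← hz]
    omega
  refine ⟨hy _ _, ?_, ?_, by omega⟩
  · simp only [sub_x', hw]
    cases bv
    · simp only [Bool.false_eq_true, if_false] at hv ⊢
      omega
    · simp only [if_true] at hv ⊢
      exact hv
  · simp only [sub_y', hw]
    cases bv
    · simp only [Bool.false_eq_true, if_false] at hv ⊢
      exact hv
    · simp only [if_true] at hv ⊢
      omega

/-- the sum over the pairs `(x, d)` -/
theorem u2_sum (n k : ℕ) (b : Bool) (α β γ : ℝ) (hα : 0 ≤ α) (hβ : 0 ≤ β) (hγ : 0 ≤ γ) :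
    ∑ p ∈ range k ×ˢ range (k - 1), (α + (if p.2 < 2 * n + 3 then β else 0) +
      (if p ∈ u2_C n k b then γ else 0)) ≤
      (k : ℝ) ^ 2 * α + k * (2 * n + 3) * β + (2 * n + 8) ^ 2 * γ := by
  classical
  rw [Finset.sum_add_distrib, Finset.sum_add_distrib]
  refine add_le_add (add_le_add ?_ ?_) ?_
  · rw [Finset.sum_const, nsmul_eq_mul]
    refine mul_le_mul_of_nonneg_right ?_ hα
    rw [Finset.card_product, Finset.card_range, Finset.card_range, pow_two]
    have : k * (k - 1) ≤ k * k := Nat.mul_le_mul_left _ (by omega)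
    exact_mod_cast this
  · rw [← Finset.sum_filter, Finset.sum_const, nsmul_eq_mul]
    refine mul_le_mul_of_nonneg_right ?_ hβ
    have h1 : ((range k ×ˢ range (k - 1)).filter fun p : ℕ × ℕ => p.2 < 2 * n + 3).card ≤
        (range k ×ˢ range (2 * n + 3)).card := by
      refine Finset.card_le_card fun p hp => ?_
      rw [Finset.mem_filter, Finset.mem_product] at hp
      exact Finset.mem_product.2 ⟨hp.1.1, Finset.mem_range.2 hp.2⟩
    rw [Finset.card_product, Finset.card_range, Finset.card_range] at h1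
    exact_mod_cast h1
  · rw [← Finset.sum_filter, Finset.sum_const, nsmul_eq_mul]
    refine mul_le_mul_of_nonneg_right ?_ hγ
    have h1 : ((range k ×ˢ range (k - 1)).filter fun p : ℕ × ℕ => p ∈ u2_C n k b).card ≤
        (u2_C n k b).card := by
      refine Finset.card_le_card fun p hp => ?_
      exact (Finset.mem_filter.1 hp).2
    exact_mod_cast h1.trans (u2_C_card n k b)

theorem ub2 (e : Fin k → G) (c η : ℝ) (J : ℕ) (h : Par e c η J) (n : ℕ)
    (hk : 2 * n + 7 ≤ k) (hcard : (3 : ℝ) + 4 * n ≤ η * k) :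
    (cnt (fun π => B2 e (k - 1) π) : ℝ) ≤
      k.factorial * (384 * ((k : ℝ) ^ 2 * bet c η J n k / (k - 3) +
        k * (2 * n + 3) / (k - 2 * n - 6) ^ 2 + (2 * n + 8) ^ 2 / (k - 3))) := by
  classical
  have hkr : (2 : ℝ) * n + 7 ≤ k := by exact_mod_cast hk
  have hn0 : (0 : ℝ) ≤ n := by positivity
  have hk3 : (0 : ℝ) < (k : ℝ) - 3 := by linarith
  have hk6 : (0 : ℝ) < (k : ℝ) - 2 * n - 6 := by linarith
  have hb := u2_bet_nonneg e c η J h n
  have hF : (0 : ℝ) ≤ k.factorial := by positivity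
  set P : Finset (ℕ × ℕ) := range k ×ˢ range (k - 1) with hP
  set Q : Finset (Fin 2 × Bool × Bool × Bool × Fin 3 × Bool × Bool × Bool) := Finset.univ with hQ
  have hQc : Q.card = 384 := by
    rw [hQ, Finset.card_univ]
    simp only [Fintype.card_prod, Fintype.card_fin, Fintype.card_bool]
  have hcov : ∀ π, B2 e (k - 1) π → ∃ i ∈ P ×ˢ Q, u2_E e (k - 1) i π := by
    rintro π ⟨x, s, y, r, x', s', y', r', hC, hC', hy, hne, hadj⟩
    have hC1 := hC
    have hC1' := hC'
    obtain ⟨c1, c2, c3, _⟩ := hC1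
    obtain ⟨d1, d2, d3, _⟩ := hC1'
    have key : ∃ (bz bv : Bool), (if bz then x else y) ≤ (if bv then x' else y') + 1 ∧
        (if bv then x' else y') ≤ (if bz then x else y) + 1 := by
      rcases hadj with h | h | h | h
      · exact ⟨true, true, by simpa using h⟩
      · exact ⟨true, false, by simpa using h⟩
      · exact ⟨false, true, by simpa using h⟩
      · exact ⟨false, false, by simpa using h⟩
    obtain ⟨bz, bv, hb⟩ := key
    obtain ⟨d, j, ε, hd, e1, e2, e3, e4⟩ := u2_cover c1 hy d1 d2 rfl rfl hb s r s' r'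
    refine ⟨((x, d), (j, s, r, bz, ε, bv, s', r')), ?_, ⟨?_, ?_, ?_⟩, ?_⟩
    · rw [hP, hQ]
      simp only [Finset.mem_product, Finset.mem_range, Finset.mem_univ, and_true]
      omega
    · rw [e1, e2, e3]
      exact hne
    · rw [e1]
      exact hC
    · rw [e2, e3]
      exact hC'
    · rw [e2, e3]
      exact e4
  have h1 : (cnt (fun π => B2 e (k - 1) π) : ℝ) ≤
      ∑ i ∈ P ×ˢ Q, (cnt (fun π => u2_E e (k - 1) i π) : ℝ) := by
    exact_mod_cast (cnt_mono hcov).trans (cnt_exists_le (P ×ˢ Q) (fun i => u2_E e (k - 1) i))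
  refine h1.trans ?_
  rw [Finset.sum_product_right]
  have h2 : ∀ j ∈ Q, ∑ p ∈ P, (cnt (fun π => u2_E e (k - 1) (p, j) π) : ℝ) ≤
      k.factorial * ((k : ℝ) ^ 2 * bet c η J n k / (k - 3) +
        k * (2 * n + 3) / (k - 2 * n - 6) ^ 2 + (2 * n + 8) ^ 2 / (k - 3)) := by
    intro j _
    refine (Finset.sum_le_sum fun p _ => u2_one e c η J h n hk hcard p j).trans ?_
    refine (u2_sum n k j.2.2.2.2.2.1 _ _ _ (by positivity) (by positivity)
      (by positivity)).trans (le_of_eq ?_)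
    ring
  refine (Finset.sum_le_sum h2).trans (le_of_eq ?_)
  rw [Finset.sum_const, hQc, nsmul_eq_mul]
  push_cast
  ring

end Pool.Agent.SPQ
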