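import Pool.Agent.Lib_helper8.SPQ.Defs
import Pool.Agent.Lib_helper26.SEQ.WSFB
import Pool.Agent.Lib_helper8.SPQ.J1
import Pool.Agent.Lib_helper8.SPQ.J2
import Pool.Agent.Lib_helper8.SPQ.T

namespace Pool.Agent.SPQ

open Finset Equiv Function Pool.Agent.SEQ

variable {G : Type*} [AddCommGroup G] {k : ℕ}

/-! ### other blocks -/

/-! ### Block Z1: chains all but two stops of which are isolated -/

/-- an enumeration of `M` different elements of a finite set -/
theorem z1_enum (W : Finset ℕ) (M : ℕ) (hM : M ≤ W.card) :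
    ∃ a : ℕ → ℕ, (∀ j < M, a j ∈ W) ∧ ∀ i < M, ∀ j < M, i ≠ j → a i ≠ a j := by
  refine ⟨fun j => if h : j < W.card then W.orderEmbOfFin rfl ⟨j, h⟩ else 0, ?_, ?_⟩
  · intro j hj
    have hj' : j < W.card := by omega
    simp only [hj', dif_pos]
    exact W.orderEmbOfFin_mem rfl ⟨j, hj'⟩
  · intro i hi j hj hij heq
    have hi' : i < W.card := by omega
    have hj' : j < W.card := by omega
    simp only [hi', hj', dif_pos] at heq
    have h1 := (W.orderEmbOfFin rfl).injective heq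
    rw [Fin.mk.injEq] at h1
    exact hij h1

theorem far_good (e : Fin k → G) (c η : ℝ) (J : ℕ) (h : Par e c η J) (n N : ℕ) (q : ℕ → ℕ)
    (τ : ℕ → Fin 4) (hN : 1 ≤ N) (hq : ∀ i ≤ N, 2 ≤ q i ∧ q i < k) (i₀ j₀ : ℕ) (hi : i₀ ≤ N)
    (hj : j₀ ≤ N) (hij : i₀ ≠ j₀)
    (hU : ∀ u ≤ N, u ≠ i₀ → u ≠ j₀ → 2 * n + 2 ≤ q u ∧ q u + (2 * n + 1) ≤ k ∧
      ∀ v ≤ N, v ≠ u → q u + (4 * n + 4) ≤ q v ∨ q v + (4 * n + 4) ≤ q u)
    (hcard : (2 : ℝ) * (N + 1) + 4 * n * (N + 1) ≤ η * k) :
    (cnt (fun π => Chain e π N q τ) : ℝ) ≤ k.factorial * bet c η J n k ^ (N - 1) := by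
  classical
  have hi0 : i₀ ≤ N := hi
  -- the positions of the stops
  set D : Finset ℕ := (range (N + 1)).biUnion fun i => Ico (q i - 1) (q i + 1) with hDdef
  have hmem : ∀ i ≤ N, q i - 1 ∈ D ∧ q i ∈ D := by
    intro i hi
    have h2 := (hq i hi).1
    constructor
    · rw [hDdef, Finset.mem_biUnion]
      exact ⟨i, Finset.mem_range.2 (by omega), Finset.mem_Ico.2 ⟨le_refl _, by omega⟩⟩
    · rw [hDdef, Finset.mem_biUnion]
      exact ⟨i, Finset.mem_range.2 (by omega), Finset.mem_Ico.2 ⟨by omega, by omega⟩⟩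
  have hDk : D ⊆ range k := by
    intro p hp
    rw [hDdef, Finset.mem_biUnion] at hp
    obtain ⟨i, hi, hp⟩ := hp
    rw [Finset.mem_range] at hi
    rw [Finset.mem_Ico] at hp
    have := (hq i (by omega)).2
    rw [Finset.mem_range]; omega
  have hDc : D.card ≤ 2 * (N + 1) := by
    calc D.card ≤ ∑ i ∈ range (N + 1), (Ico (q i - 1) (q i + 1)).card :=
          Finset.card_biUnion_le
      _ ≤ ∑ i ∈ range (N + 1), 2 := by
          apply Finset.sum_le_sum
          intro i hi
          rw [Nat.card_Ico]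
          omega
      _ = 2 * (N + 1) := by rw [Finset.sum_const, Finset.card_range, smul_eq_mul, mul_comm]
  -- the isolated stops
  have hUc : (((range (N + 1)).erase i₀).erase j₀).card = N - 1 := by
    rw [Finset.card_erase_of_mem, Finset.card_erase_of_mem, Finset.card_range]
    · omega
    · exact Finset.mem_range.2 (by omega)
    · exact Finset.mem_erase.2 ⟨hij.symm, Finset.mem_range.2 (by omega)⟩
  obtain ⟨σ, hσ, hσ'⟩ := z1_enum (((range (N + 1)).erase i₀).erase j₀) (N - 1) hUc.ge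
  have hσm : ∀ i < N - 1, σ i ≤ N ∧ σ i ≠ i₀ ∧ σ i ≠ j₀ := by
    intro i hi
    have := hσ i hi
    rw [Finset.mem_erase, Finset.mem_erase, Finset.mem_range] at this
    exact ⟨by omega, this.2.1, this.1⟩
  have hz : ∀ i < N - 1, 2 * n + 2 ≤ q (σ i) ∧ q (σ i) + (2 * n + 1) ≤ k ∧
      ∀ v ≤ N, v ≠ σ i → q (σ i) + (4 * n + 4) ≤ q v ∨ q v + (4 * n + 4) ≤ q (σ i) :=
    fun i hi => hU (σ i) (hσm i hi).1 (hσm i hi).2.1 (hσm i hi).2.2
  have hzz : ∀ i < N - 1, ∀ i' < N - 1, i ≠ i' →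
      q (σ i) + (4 * n + 4) ≤ q (σ i') ∨ q (σ i') + (4 * n + 4) ≤ q (σ i) :=
    fun i hi i' hi' hne => (hz i hi).2.2 (σ i') (hσm i' hi').1 (hσ' i hi i' hi' hne).symm
  -- positions near an isolated stop are not in `D`
  have hnot : ∀ i < N - 1, ∀ p, q (σ i) ≤ p + (2 * n + 1) → p ≤ q (σ i) + 2 * n →
      p ≠ q (σ i) - 1 → p ≠ q (σ i) → p ∉ D := by
    intro i hi p h1 h2 h3 h4 hp
    rw [hDdef, Finset.mem_biUnion] at hp
    obtain ⟨v, hv, hp⟩ := hp
    rw [Finset.mem_range] at hv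
    rw [Finset.mem_Ico] at hp
    by_cases hvi : v = σ i
    · rw [hvi] at hp
      omega
    · have := (hz i hi).2.2 v (by omega) hvi
      omega
  have haD : ∀ i < N - 1, ∀ j < 2 * n, q (σ i) - 2 - j ∉ D := by
    intro i hi j hj
    have := (hz i hi).1
    apply hnot i hi <;> omega
  have hbD : ∀ i < N - 1, ∀ j < 2 * n, q (σ i) + 1 + j ∉ D := by
    intro i hi j hj
    have := (hz i hi).1
    apply hnot i hi <;> omega
  have haa : ∀ i < N - 1, ∀ j < 2 * n, ∀ i' < N - 1, ∀ j' < 2 * n, (i, j) ≠ (i', j') →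
      q (σ i) - 2 - j ≠ q (σ i') - 2 - j' ∧ q (σ i) + 1 + j ≠ q (σ i') + 1 + j' := by
    intro i hi j hj i' hi' j' hj' hne
    have h1 := (hz i hi).1
    have h1' := (hz i' hi').1
    by_cases hii : i = i'
    · subst hii
      have hjj : j ≠ j' := by
        rintro rfl
        exact hne rfl
      omega
    · have := hzz i hi i' hi' hii
      omega
  have hab : ∀ i < N - 1, ∀ j < 2 * n, ∀ i' < N - 1, ∀ j' < 2 * n,
      q (σ i) - 2 - j ≠ q (σ i') + 1 + j' := by
    intro i hi j hj i' hi' j' hj'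
    have h1 := (hz i hi).1
    have h1' := (hz i' hi').1
    by_cases hii : i = i'
    · subst hii
      omega
    · have := hzz i hi i' hi' hii
      omega
  have hdep : ∀ i ≤ N, Dep D (sfb_off (k := k) e q τ i) := fun i hi =>
    sfb_dep e q τ D N hmem i hi
  have key := joint_count e D (fun _ => True) (dep_const D True) n (N - 1)
    (fun i => range (q (σ i) - 1)) (fun i j => q (σ i) - 2 - j) (fun i j => q (σ i) + 1 + j)
    (fun i π => ps e π (q i₀ - 1) + sfb_off e q τ (σ i) π - sfb_off e q τ i₀ π)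
    (by
      intro i hi j hj
      have h1 := hz i hi
      refine ⟨?_, ?_, haD i hi j hj⟩
      · show q (σ i) - 2 - j < k
        omega
      · show q (σ i) - 2 - j ∈ range (q (σ i) - 1)
        rw [Finset.mem_range]; omega)
    (by
      intro i hi j hj
      have h1 := hz i hi
      refine ⟨?_, ?_, hbD i hi j hj⟩
      · show q (σ i) + 1 + j < k
        omega
      · show q (σ i) + 1 + j ∉ range (q (σ i) - 1)
        rw [Finset.mem_range]; omega)
    (by
      intro i hi i' hi' hne j hj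
      have h1 := hz i hi
      have h2 := hzz i hi i' hi' hne.symm
      show q (σ i) - 2 - j ∈ range (q (σ i') - 1) ↔ q (σ i) + 1 + j ∈ range (q (σ i') - 1)
      rw [Finset.mem_range, Finset.mem_range]; omega)
    haa hab
    (by
      intro i hi i' hi' j hj π
      show ps e (π * sw (q (σ i') - 2 - j) (q (σ i') + 1 + j)) (q i₀ - 1) +
          sfb_off e q τ (σ i) (π * sw (q (σ i') - 2 - j) (q (σ i') + 1 + j)) -
          sfb_off e q τ i₀ (π * sw (q (σ i') - 2 - j) (q (σ i') + 1 + j)) =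
        ps e π (q i₀ - 1) + sfb_off e q τ (σ i) π - sfb_off e q τ i₀ π
      have h1 := hz i' hi'
      have h2 := h1.2.2 i₀ hi0 (hσm i' hi').2.1.symm
      have h3 := hq i₀ hi0
      rw [dep_sw D _ (hdep (σ i) (hσm i hi).1) _ _ (haD i' hi' j hj) (hbD i' hi' j hj),
        dep_sw D _ (hdep i₀ hi0) _ _ (haD i' hi' j hj) (hbD i' hi' j hj),
        ps_sw e π _ _ _ (by omega) (by omega) (by omega) (by omega)])
  have key2 := joint_prod e c η J h D hDk (fun _ => True) (dep_const D True) n (N - 1)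
    (fun i j => q (σ i) - 2 - j) (fun i j => q (σ i) + 1 + j)
    (by
      intro i hi j hj
      have h1 := hz i hi
      refine ⟨?_, haD i hi j hj⟩
      show q (σ i) - 2 - j < k
      omega)
    (by
      intro i hi j hj
      have h1 := hz i hi
      refine ⟨?_, hbD i hi j hj⟩
      show q (σ i) + 1 + j < k
      omega)
    haa hab
    (by
      refine le_trans (add_le_add (show (D.card : ℝ) ≤ 2 * (N + 1) by exact_mod_cast hDc)
        (show (4 : ℝ) * n * ((N - 1 : ℕ) : ℝ) ≤ 4 * n * (N + 1) by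
          apply mul_le_mul_of_nonneg_left _ (by positivity)
          have : ((N - 1 : ℕ) : ℝ) ≤ N := by exact_mod_cast Nat.sub_le N 1
          linarith)) hcard)
  rw [cnt_true] at key2
  calc (cnt (fun π => Chain e π N q τ) : ℝ)
      ≤ (cnt (fun π => (fun _ => True) π ∧ ∀ i < N - 1,
          ∑ x ∈ (fun i => range (q (σ i) - 1)) i, el e π x =
            (fun (i : ℕ) (π : Perm (Fin k)) => ps e π (q i₀ - 1) + sfb_off e q τ (σ i) π -
              sfb_off e q τ i₀ π) i π) : ℝ) := by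
        exact_mod_cast cnt_mono (fun π hπ => by
          refine ⟨trivial, fun i hi' => ?_⟩
          show ps e π (q (σ i) - 1) =
            ps e π (q i₀ - 1) + sfb_off e q τ (σ i) π - sfb_off e q τ i₀ π
          rw [sfb_chain e π N q τ hπ (σ i) (hσm i hi').1, sfb_chain e π N q τ hπ i₀ hi]
          abel)
    _ ≤ _ := key
    _ ≤ _ := key2
    _ = _ := mul_comm _ _

end Pool.Agent.SPQ
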