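import Pool.Agent.Lib_helper8.SPQ.Defs
import Pool.Agent.Lib_helper8.SPQ.Z1

/-!
Block U3 of the project SPQ (MP_b4ec45_co): union bound for far paths.
-/

namespace Pool.Agent.SPQ

open Finset Equiv Function Pool.Agent.SEQ

variable {G : Type*} [AddCommGroup G] {k : ℕ}

/-! ### other blocks -/

/-! ### the count of sequences -/

open Classical in
/-- functions which are determined by the values off `W` and by a code in `T` -/
theorem u3_code {m : ℕ} (k : ℕ) {β : Type*} (W : Finset (Fin m)) (S : Finset (Fin m → ℕ))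
    (hS : ∀ q ∈ S, ∀ w, q w < k) (T : Finset β) (c : (Fin m → ℕ) → β) (hc : ∀ q ∈ S, c q ∈ T)
    (hinj : ∀ q ∈ S, ∀ q' ∈ S, (∀ w, w ∉ W → q w = q' w) → c q = c q' → q = q') :
    S.card ≤ k ^ (m - W.card) * T.card := by
  have h1 : (Fintype.piFinset fun w : Fin m => if w ∈ W then ({0} : Finset ℕ) else range k).card =
      k ^ (m - W.card) := by
    rw [Fintype.card_piFinset]
    have h2 : ∀ w : Fin m, (if w ∈ W then ({0} : Finset ℕ) else range k).card =
        if w ∈ W then 1 else k := by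
      intro w
      by_cases hw : w ∈ W
      · rw [if_pos hw, if_pos hw, card_singleton]
      · rw [if_neg hw, if_neg hw, card_range]
    rw [Finset.prod_congr rfl fun w _ => h2 w, Finset.prod_ite, prod_const_one, one_mul, prod_const]
    congr 1
    have h3 : (univ.filter fun w : Fin m => w ∉ W) = Wᶜ := by
      ext w
      simp
    rw [h3, card_compl, Fintype.card_fin]
  rw [← h1, ← card_product]
  refine card_le_card_of_injOn (fun q => (fun w => if w ∈ W then 0 else q w, c q)) ?_ ?_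
  · intro q hq
    rw [Finset.mem_coe] at hq
    rw [Finset.mem_coe, mem_product, Fintype.mem_piFinset]
    refine ⟨fun w => ?_, hc q hq⟩
    by_cases hw : w ∈ W
    · simp [hw]
    · simp only [hw, if_false, mem_range]
      exact hS q hq w
  · intro q hq q' hq' he
    rw [Prod.mk.injEq] at he
    refine hinj q hq q' hq' (fun w hw => ?_) he.2
    have h2 := congrFun he.1 w
    simp only [hw, if_false] at h2
    exact h2

/-- `u` is near an end (then `v = u`) or close to `v` -/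
def u3_cl (k n : ℕ) {m : ℕ} (q : Fin m → ℕ) (u v : Fin m) : Prop :=
  (v = u ∧ (q u < 2 * n + 2 ∨ k < q u + (2 * n + 1))) ∨
    (v ≠ u ∧ q u < q v + (4 * n + 4) ∧ q v < q u + (4 * n + 4))

open Classical in
/-- the code of the value at `u` -/
noncomputable def u3_cd (k n : ℕ) {m : ℕ} (u v : Fin m) (q : Fin m → ℕ) : ℕ :=
  if v = u then (if q u < 2 * n + 2 then q u else 2 * n + 2 + (k - q u))
    else q u + (4 * n + 4) - q v

theorem u3_cd_lt (k n : ℕ) {m : ℕ} (q : Fin m → ℕ) (u v : Fin m) (h : u3_cl k n q u v) :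
    u3_cd k n u v q < 8 * n + 8 := by
  unfold u3_cd
  rcases h with ⟨h1, h2⟩ | ⟨h1, h2, h3⟩
  · rw [if_pos h1]
    split_ifs with h4 <;> omega
  · rw [if_neg h1]
    omega

theorem u3_cd_inj (k n : ℕ) {m : ℕ} (q q' : Fin m → ℕ) (u v : Fin m) (h : u3_cl k n q u v)
    (h' : u3_cl k n q' u v) (hq : q u < k) (hq' : q' u < k) (hv : v ≠ u → q v = q' v)
    (he : u3_cd k n u v q = u3_cd k n u v q') : q u = q' u := by
  unfold u3_cd at he
  rcases h with ⟨h1, h2⟩ | ⟨h1, h2, h3⟩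
  · rw [if_pos h1, if_pos h1] at he
    rcases h' with ⟨_, h5⟩ | ⟨h4, _⟩
    · split_ifs at he with h6 h7 <;> omega
    · exact absurd h1 h4
  · rw [if_neg h1, if_neg h1] at he
    rcases h' with ⟨h4, _⟩ | ⟨_, h5, h6⟩
    · exact absurd h4 h1
    · have := hv h1
      omega

/-! ### chains -/

/-- extension of a finite sequence of positions -/
def u3_ext (N : ℕ) (q : Fin (N + 1) → ℕ) (i : ℕ) : ℕ :=
  if h : i < N + 1 then q ⟨i, h⟩ else 0

/-- extension of a finite sequence of types -/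
def u3_tau (N : ℕ) (τ : Fin N → Fin 4) (c : Bool) (i : ℕ) : Fin 4 :=
  if h : i < N then τ ⟨i, h⟩ else if c then 1 else 0

theorem u3_ext_fin (N : ℕ) (q : Fin (N + 1) → ℕ) (u : Fin (N + 1)) : u3_ext N q u = q u := by
  unfold u3_ext
  rw [dif_pos u.2]

theorem u3_chain_congr (e : Fin k → G) (π : Perm (Fin k)) (N : ℕ) {q q' : ℕ → ℕ}
    {τ τ' : ℕ → Fin 4} (hq : ∀ i ≤ N, q i = q' i) (hτ : ∀ i ≤ N, τ i = τ' i)
    (h : Chain e π N q τ) : Chain e π N q' τ' := by
  intro i hi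
  rw [← hq i hi.le, ← hq (i + 1) hi, ← hτ i hi.le, ← hτ (i + 1) hi]
  exact h i hi

theorem u3_cnt_zero {E : Perm (Fin k) → Prop} (h : ∀ π, ¬ E π) : cnt E = 0 := by
  classical
  unfold cnt
  refine card_eq_zero.mpr (Finset.eq_empty_of_forall_notMem fun π hπ => ?_)
  simp only [mem_filter] at hπ
  exact h π hπ.2

/-- `u` is isolated -/
def u3_iso (k n N : ℕ) (q : ℕ → ℕ) (u : ℕ) : Prop :=
  2 * n + 2 ≤ q u ∧ q u + (2 * n + 1) ≤ k ∧
    ∀ v ≤ N, v ≠ u → q u + (4 * n + 4) ≤ q v ∨ q v + (4 * n + 4) ≤ q u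

theorem u3_not_iso (k n N : ℕ) (q : Fin (N + 1) → ℕ) (u : ℕ) (hu : u ≤ N)
    (h : ¬ u3_iso k n N (u3_ext N q) u) :
    ∃ v : Fin (N + 1), u3_cl k n q ⟨u, by omega⟩ v := by
  have he := u3_ext_fin N q ⟨u, by omega⟩
  simp only at he
  unfold u3_iso at h
  rw [he] at h
  by_cases h1 : q ⟨u, by omega⟩ < 2 * n + 2 ∨ k < q ⟨u, by omega⟩ + (2 * n + 1)
  · exact ⟨⟨u, by omega⟩, Or.inl ⟨rfl, h1⟩⟩
  · have h2 : ¬ ∀ v ≤ N, v ≠ u → q ⟨u, by omega⟩ + (4 * n + 4) ≤ u3_ext N q v ∨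
        u3_ext N q v + (4 * n + 4) ≤ q ⟨u, by omega⟩ := by
      intro h3
      exact h ⟨by omega, by omega, h3⟩
    push Not at h2
    obtain ⟨v, hv, hvu, h4, h5⟩ := h2
    have he' := u3_ext_fin N q ⟨v, by omega⟩
    simp only at he'
    rw [he'] at h4 h5
    refine ⟨⟨v, by omega⟩, Or.inr ⟨fun h6 => hvu (congrArg Fin.val h6), ?_, ?_⟩⟩ <;> omega

/-- a sequence with at least three non-isolated positions -/
theorem u3_bad (k n N : ℕ) (hN : 1 ≤ N) (q : Fin (N + 1) → ℕ)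
    (h : ¬ ∃ i₀ j₀ : ℕ, i₀ ≤ N ∧ j₀ ≤ N ∧ i₀ ≠ j₀ ∧
      ∀ u ≤ N, u ≠ i₀ → u ≠ j₀ → u3_iso k n N (u3_ext N q) u) :
    ∃ u₁ v₁ u₂ v₂ : Fin (N + 1), u₂ ≠ u₁ ∧ u₂ ≠ v₁ ∧ u3_cl k n q u₁ v₁ ∧
      u3_cl k n q u₂ v₂ := by
  have key : ∀ i₀ j₀ : ℕ, i₀ ≤ N → j₀ ≤ N → i₀ ≠ j₀ →
      ∃ u, ∃ hu : u ≤ N, u ≠ i₀ ∧ u ≠ j₀ ∧ ∃ v : Fin (N + 1),
        u3_cl k n q ⟨u, Nat.lt_succ_of_le hu⟩ v := by
    intro i₀ j₀ h1 h2 h3
    by_contra h4
    apply h
    refine ⟨i₀, j₀, h1, h2, h3, fun u hu hui huj => ?_⟩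
    by_contra h5
    obtain ⟨v, hv⟩ := u3_not_iso k n N q u hu h5
    exact h4 ⟨u, hu, hui, huj, v, hv⟩
  obtain ⟨u₁, hu₁, _, _, v₁, hv₁⟩ := key 0 1 (by omega) hN (by omega)
  by_cases hvu : v₁ = ⟨u₁, Nat.lt_succ_of_le hu₁⟩
  · obtain ⟨w, hw, hwu⟩ : ∃ w, w ≤ N ∧ w ≠ u₁ := by
      by_cases h1 : u₁ = 0
      · exact ⟨1, hN, by omega⟩
      · exact ⟨0, by omega, fun h2 => h1 h2.symm⟩
    obtain ⟨u₂, hu₂, h1, h2, v₂, hv₂⟩ := key u₁ w hu₁ hw hwu.symm
    refine ⟨_, v₁, _, v₂, ?_, ?_, hv₁, hv₂⟩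
    · intro h3
      exact h1 (congrArg Fin.val h3)
    · rw [hvu]
      intro h3
      exact h1 (congrArg Fin.val h3)
  · obtain ⟨u₂, hu₂, h1, h2, v₂, hv₂⟩ := key u₁ v₁ hu₁ (by omega)
      (fun h3 => hvu (Fin.ext h3.symm))
    refine ⟨_, v₁, _, v₂, ?_, ?_, hv₁, hv₂⟩
    · intro h3
      exact h1 (congrArg Fin.val h3)
    · intro h3
      exact h2 (congrArg Fin.val h3)

open Classical in
/-- the number of sequences with at least three non-isolated positions -/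
theorem u3_count (k n N : ℕ) (hN : 1 ≤ N) :
    ((Fintype.piFinset fun _ : Fin (N + 1) => range k).filter fun q =>
      ¬ ∃ i₀ j₀ : ℕ, i₀ ≤ N ∧ j₀ ≤ N ∧ i₀ ≠ j₀ ∧
        ∀ u ≤ N, u ≠ i₀ → u ≠ j₀ → u3_iso k n N (u3_ext N q) u).card ≤
      (N + 1) ^ 4 * (k ^ (N - 1) * ((8 * n + 8) * (8 * n + 8))) := by
  set Q : Finset (Fin (N + 1) → ℕ) := Fintype.piFinset fun _ : Fin (N + 1) => range k with hQ
  have hsub : (Q.filter fun q => ¬ ∃ i₀ j₀ : ℕ, i₀ ≤ N ∧ j₀ ≤ N ∧ i₀ ≠ j₀ ∧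
        ∀ u ≤ N, u ≠ i₀ → u ≠ j₀ → u3_iso k n N (u3_ext N q) u) ⊆
      (univ : Finset (Fin (N + 1) × Fin (N + 1) × Fin (N + 1) × Fin (N + 1))).biUnion fun x =>
        Q.filter fun q => x.2.2.1 ≠ x.1 ∧ x.2.2.1 ≠ x.2.1 ∧ u3_cl k n q x.1 x.2.1 ∧
          u3_cl k n q x.2.2.1 x.2.2.2 := by
    intro q hq
    rw [mem_filter] at hq
    obtain ⟨u₁, v₁, u₂, v₂, h1, h2, h3, h4⟩ := u3_bad k n N hN q hq.2
    rw [mem_biUnion]
    exact ⟨(u₁, v₁, u₂, v₂), mem_univ _, mem_filter.2 ⟨hq.1, h1, h2, h3, h4⟩⟩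
  refine (card_le_card hsub).trans (card_biUnion_le.trans ?_)
  have hone : ∀ x ∈ (univ : Finset (Fin (N + 1) × Fin (N + 1) × Fin (N + 1) × Fin (N + 1))),
      (Q.filter fun q => x.2.2.1 ≠ x.1 ∧ x.2.2.1 ≠ x.2.1 ∧ u3_cl k n q x.1 x.2.1 ∧
          u3_cl k n q x.2.2.1 x.2.2.2).card ≤ k ^ (N - 1) * ((8 * n + 8) * (8 * n + 8)) := by
    rintro ⟨u₁, v₁, u₂, v₂⟩ _
    simp only
    by_cases hne : u₂ = u₁
    · have h0 : (Q.filter fun q => u₂ ≠ u₁ ∧ u₂ ≠ v₁ ∧ u3_cl k n q u₁ v₁ ∧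
          u3_cl k n q u₂ v₂) = ∅ := by
        rw [filter_eq_empty_iff]
        rintro q _ ⟨h1, _⟩
        exact h1 hne
      rw [h0, card_empty]
      exact Nat.zero_le _
    · have hcode := u3_code k ({u₁, u₂} : Finset (Fin (N + 1)))
        (Q.filter fun q => u₂ ≠ u₁ ∧ u₂ ≠ v₁ ∧ u3_cl k n q u₁ v₁ ∧ u3_cl k n q u₂ v₂)
        (fun q hq w => by
          rw [mem_filter, hQ, Fintype.mem_piFinset] at hq
          exact mem_range.1 (hq.1 w))
        (range (8 * n + 8) ×ˢ range (8 * n + 8))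
        (fun q => (u3_cd k n u₁ v₁ q, u3_cd k n u₂ v₂ q))
        (fun q hq => by
          rw [mem_filter] at hq
          rw [mem_product, mem_range, mem_range]
          exact ⟨u3_cd_lt k n q u₁ v₁ hq.2.2.2.1, u3_cd_lt k n q u₂ v₂ hq.2.2.2.2⟩)
        (fun q hq q' hq' hw hc => by
          rw [mem_filter, hQ, Fintype.mem_piFinset] at hq hq'
          obtain ⟨hq1, _, hv1, hcl1, hcl2⟩ := hq
          obtain ⟨hq1', _, _, hcl1', hcl2'⟩ := hq'
          rw [Prod.mk.injEq] at hc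
          have e1 : q u₁ = q' u₁ := by
            refine u3_cd_inj k n q q' u₁ v₁ hcl1 hcl1' (mem_range.1 (hq1 _))
              (mem_range.1 (hq1' _)) (fun h5 => hw v₁ ?_) hc.1
            rw [mem_insert, mem_singleton]
            rintro (h6 | h6)
            · exact h5 h6
            · exact hv1 h6.symm
          have e2 : q u₂ = q' u₂ := by
            refine u3_cd_inj k n q q' u₂ v₂ hcl2 hcl2' (mem_range.1 (hq1 _))
              (mem_range.1 (hq1' _)) (fun h5 => ?_) hc.2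
            by_cases h6 : v₂ = u₁
            · rw [h6]
              exact e1
            · refine hw v₂ ?_
              rw [mem_insert, mem_singleton]
              rintro (h7 | h7)
              · exact h6 h7
              · exact h5 h7
          funext w
          by_cases h7 : w = u₁
          · rw [h7]
            exact e1
          · by_cases h8 : w = u₂
            · rw [h8]
              exact e2
            · refine hw w ?_
              rw [mem_insert, mem_singleton]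
              rintro (h9 | h9)
              · exact h7 h9
              · exact h8 h9)
      rw [card_pair (fun h5 => hne h5.symm), card_product, card_range] at hcode
      have h6 : N + 1 - 2 = N - 1 := by omega
      rw [h6] at hcode
      exact hcode
  refine (sum_le_sum hone).trans ?_
  rw [sum_const, smul_eq_mul, card_univ, Fintype.card_prod, Fintype.card_prod,
    Fintype.card_prod, Fintype.card_fin]
  refine le_of_eq ?_
  ring

theorem u3_bet_nonneg {e : Fin k → G} {c η : ℝ} {J : ℕ} (h : Par e c η J) (n : ℕ) :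
    0 ≤ bet c η J n k := by
  unfold bet
  have h1 : (0 : ℝ) ≤ 1 - η / (4 * 4 ^ J) := by
    have h2 : η / (4 * 4 ^ J) ≤ 1 := by
      rw [div_le_one (by positivity)]
      have h3 : (1 : ℝ) ≤ 4 ^ J := one_le_pow₀ (by norm_num)
      have := h.η1
      linarith
    linarith
  have h2 : (0 : ℝ) ≤ c / ((1 - η) * k) := by
    have := h.c0
    have h3 := h.η1
    have h4 : (0 : ℝ) ≤ 1 - η := by linarith
    positivity
  have := pow_nonneg h1 n
  linarith

/-- (block U3) -/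
theorem ub3 (e : Fin k → G) (c η : ℝ) (J : ℕ) (h : Par e c η J) (n N : ℕ) (hN : 1 ≤ N)
    (hk : 2 * (N + 1) < k) (hcard : (2 : ℝ) * (N + 1) + 4 * n * (N + 1) ≤ η * k) :
    (cnt (fun π => FP e (k - 1) N π) : ℝ) ≤
      k.factorial * (4 ^ N * 2 * ((k : ℝ) ^ (N + 1) * bet c η J n k ^ (N - 1) +
        (N + 1) ^ 4 * (8 * n + 8) ^ 2 * (k : ℝ) ^ (N - 1) * 3 ^ N /
          (k - 2 * (N + 1)) ^ N)) := by
  classical
  set Q : Finset (Fin (N + 1) → ℕ) := Fintype.piFinset fun _ : Fin (N + 1) => range k with hQ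
  set Tt : Finset ((Fin N → Fin 4) × Bool) := univ with hTt
  set E : (Fin (N + 1) → ℕ) → (Fin N → Fin 4) × Bool → Perm (Fin k) → Prop := fun q τ π =>
    ((∀ i ≤ N, 2 ≤ u3_ext N q i ∧ u3_ext N q i < k) ∧
      ∀ i j, i < j → j ≤ N → u3_ext N q i + 3 ≤ u3_ext N q j ∨ u3_ext N q j + 3 ≤ u3_ext N q i) ∧
      Chain e π N (u3_ext N q) (u3_tau N τ.1 τ.2) with hE
  set Good : (Fin (N + 1) → ℕ) → Prop := fun q => ∃ i₀ j₀ : ℕ, i₀ ≤ N ∧ j₀ ≤ N ∧ i₀ ≠ j₀ ∧
      ∀ u ≤ N, u ≠ i₀ → u ≠ j₀ → u3_iso k n N (u3_ext N q) u with hGood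
  have hkR : (0 : ℝ) < (k : ℝ) - 2 * (N + 1) := by
    have : ((2 * (N + 1) : ℕ) : ℝ) < k := by exact_mod_cast hk
    push_cast at this
    linarith
  have hbet := u3_bet_nonneg h n
  have hsub : cnt (fun π => FP e (k - 1) N π) ≤
      cnt (fun π => ∃ a ∈ Q ×ˢ Tt, E a.1 a.2 π) := by
    refine cnt_mono fun π hπ => ?_
    obtain ⟨q, τ, hq, _, hfar, hτ, hch⟩ := hπ
    have eq1 : ∀ i ≤ N, q i = u3_ext N (fun i => q i) i := by
      intro i hi
      unfold u3_ext
      rw [dif_pos (by omega)]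
    have et1 : ∀ i ≤ N, τ i = u3_tau N (fun i => τ i) (decide (τ N = 1)) i := by
      intro i hi
      unfold u3_tau
      by_cases h : i < N
      · rw [dif_pos h]
      · have hin : i = N := by omega
        subst hin
        rw [dif_neg h]
        rcases hτ with h0 | h1
        · rw [h0]; simp
        · rw [h1]; simp
    refine ⟨(fun i => q i, fun i => τ i, decide (τ N = 1)), ?_, ⟨?_, ?_⟩, ?_⟩
    · rw [mem_product, hQ, Fintype.mem_piFinset]
      refine ⟨fun i => ?_, mem_univ _⟩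
      rw [mem_range]
      exact (hq i (by omega)).2
    · intro i hi
      rw [← eq1 i hi]
      exact hq i hi
    · intro i j hij hj
      rw [← eq1 i (by omega), ← eq1 j hj]
      exact hfar i j hij hj
    · exact u3_chain_congr e π N eq1 et1 hch
  have hone : ∀ a ∈ Q ×ˢ Tt, (cnt (E a.1 a.2) : ℝ) ≤
      k.factorial * bet c η J n k ^ (N - 1) +
        (if Good a.1 then 0 else k.factorial * (3 ^ N / ((k : ℝ) - 2 * (N + 1)) ^ N)) := by
    rintro ⟨q, τ⟩ _
    simp only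
    by_cases hf : (∀ i ≤ N, 2 ≤ u3_ext N q i ∧ u3_ext N q i < k) ∧
      ∀ i j, i < j → j ≤ N → u3_ext N q i + 3 ≤ u3_ext N q j ∨ u3_ext N q j + 3 ≤ u3_ext N q i
    · have h1 : cnt (E q τ) ≤ cnt (fun π => Chain e π N (u3_ext N q) (u3_tau N τ.1 τ.2)) :=
        cnt_mono fun π h => h.2
      have h1' : (cnt (E q τ) : ℝ) ≤
          cnt (fun π => Chain e π N (u3_ext N q) (u3_tau N τ.1 τ.2)) := by exact_mod_cast h1
      by_cases hg : Good q
      · rw [if_pos hg, add_zero]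
        obtain ⟨i₀, j₀, hi, hj, hij, hU⟩ := hg
        exact h1'.trans (far_good e c η J h n N _ _ hN hf.1 i₀ j₀ hi hj hij hU hcard)
      · rw [if_neg hg]
        have h2 := far_bound e h.inj N _ (u3_tau N τ.1 τ.2) hf.1 hf.2
        have h3 : (cnt (fun π => Chain e π N (u3_ext N q) (u3_tau N τ.1 τ.2)) : ℝ) *
            ((k : ℝ) - 2 * (N + 1)) ^ N ≤ k.factorial * 3 ^ N := by
          have h4 : ((cnt (fun π => Chain e π N (u3_ext N q) (u3_tau N τ.1 τ.2)) *
            (k - 2 * (N + 1)) ^ N : ℕ) : ℝ) ≤ ((k.factorial * 3 ^ N : ℕ) : ℝ) := by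
            exact_mod_cast h2
          push_cast [Nat.cast_sub hk.le] at h4
          exact h4
        have h4 : (cnt (fun π => Chain e π N (u3_ext N q) (u3_tau N τ.1 τ.2)) : ℝ) ≤
            k.factorial * (3 ^ N / ((k : ℝ) - 2 * (N + 1)) ^ N) := by
          rw [← mul_div_assoc, le_div_iff₀ (pow_pos hkR N)]
          exact h3
        have h5 : (0 : ℝ) ≤ k.factorial * bet c η J n k ^ (N - 1) := by positivity
        linarith
    · have h1 : cnt (E q τ) = 0 := u3_cnt_zero fun π h => hf h.1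
      rw [h1, Nat.cast_zero]
      have h5 : (0 : ℝ) ≤ k.factorial * bet c η J n k ^ (N - 1) := by positivity
      have h6 : (0 : ℝ) ≤ k.factorial * (3 ^ N / ((k : ℝ) - 2 * (N + 1)) ^ N) := by positivity
      split_ifs <;> linarith
  have hcQ : (Q.card : ℝ) = (k : ℝ) ^ (N + 1) := by
    rw [hQ, Fintype.card_piFinset, prod_const, card_range, card_univ, Fintype.card_fin]
    push_cast
    rfl
  have hcT : (Tt.card : ℝ) = 4 ^ N * 2 := by
    rw [hTt, card_univ, Fintype.card_prod, Fintype.card_pi, prod_const, Fintype.card_fin,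
      card_univ, Fintype.card_fin, Fintype.card_bool]
    push_cast
    rfl
  have hcB : ((Q.filter fun q => ¬ Good q).card : ℝ) ≤
      (N + 1) ^ 4 * ((k : ℝ) ^ (N - 1) * ((8 * n + 8) * (8 * n + 8))) := by
    have h1 := u3_count k n N hN
    have h2 : ((Q.filter fun q => ¬ Good q).card : ℝ) ≤
        (((N + 1) ^ 4 * (k ^ (N - 1) * ((8 * n + 8) * (8 * n + 8))) : ℕ) : ℝ) := by
      exact_mod_cast h1
    push_cast at h2
    exact h2
  calc (cnt (fun π => FP e (k - 1) N π) : ℝ)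
      ≤ ((∑ a ∈ Q ×ˢ Tt, cnt (E a.1 a.2) : ℕ) : ℝ) := by
        exact_mod_cast hsub.trans (cnt_exists_le (Q ×ˢ Tt) fun a => E a.1 a.2)
    _ = ∑ a ∈ Q ×ˢ Tt, (cnt (E a.1 a.2) : ℝ) := by push_cast; rfl
    _ ≤ ∑ a ∈ Q ×ˢ Tt, (k.factorial * bet c η J n k ^ (N - 1) +
        (if Good a.1 then 0 else k.factorial * (3 ^ N / ((k : ℝ) - 2 * (N + 1)) ^ N))) :=
        sum_le_sum hone
    _ = (Q.card : ℝ) * Tt.card * (k.factorial * bet c η J n k ^ (N - 1)) +
        ((Q.filter fun q => ¬ Good q).card : ℝ) * Tt.card *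
          (k.factorial * (3 ^ N / ((k : ℝ) - 2 * (N + 1)) ^ N)) := by
        rw [sum_add_distrib, sum_const, card_product, nsmul_eq_mul, sum_product, Nat.cast_mul]
        congr 1
        have h1 : ∀ q ∈ Q, (∑ _τ ∈ Tt, (if Good q then (0 : ℝ) else
            k.factorial * (3 ^ N / ((k : ℝ) - 2 * (N + 1)) ^ N))) =
            if Good q then 0 else
              (Tt.card : ℝ) * (k.factorial * (3 ^ N / ((k : ℝ) - 2 * (N + 1)) ^ N)) := by
          intro q _
          rw [sum_const, nsmul_eq_mul]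
          split_ifs <;> simp
        rw [sum_congr rfl h1, sum_ite, sum_const_zero, zero_add, sum_const, nsmul_eq_mul]
        ring
    _ ≤ (Q.card : ℝ) * Tt.card * (k.factorial * bet c η J n k ^ (N - 1)) +
        ((N + 1) ^ 4 * ((k : ℝ) ^ (N - 1) * ((8 * n + 8) * (8 * n + 8)))) * Tt.card *
          (k.factorial * (3 ^ N / ((k : ℝ) - 2 * (N + 1)) ^ N)) := by
        gcongr
    _ = k.factorial * (4 ^ N * 2 * ((k : ℝ) ^ (N + 1) * bet c η J n k ^ (N - 1) +
        (N + 1) ^ 4 * (8 * n + 8) ^ 2 * (k : ℝ) ^ (N - 1) * 3 ^ N /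
          (k - 2 * (N + 1)) ^ N)) := by
        rw [hcQ, hcT]
        ring

end Pool.Agent.SPQ
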