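import Pool.Agent.Lib_helper8.SPQ.Defs
import Pool.Agent.Lib_helper26.SEQ.WSNB
import Pool.Agent.Lib_helper8.SPQ.J1
import Pool.Agent.Lib_helper8.SPQ.J2
import Pool.Agent.Lib_helper8.SPQ.T

/-! Block Z2: near-cycles the inner stops of which are isolated. -/

namespace Pool.Agent.SPQ

open Finset Equiv Function Pool.Agent.SEQ

variable {G : Type*} [AddCommGroup G] {k : ℕ}

section other_blocks

end other_blocks

theorem near_good (e : Fin k → G) (c η : ℝ) (J : ℕ) (h : Par e c η J) (n N : ℕ) (q : ℕ → ℕ)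
    (τ : ℕ → Fin 4) (hN : 2 ≤ N) (hq : ∀ i ≤ N, 2 ≤ q i ∧ q i < k)
    (hclose : q 0 ≤ q N + 2 ∧ q N ≤ q 0 + 2)
    (hU : ∀ u ≤ N, u ≠ 0 → u ≠ N → 2 * n + 2 ≤ q u ∧ q u + (2 * n + 1) ≤ k ∧
      ∀ v ≤ N, v ≠ u → q u + (4 * n + 4) ≤ q v ∨ q v + (4 * n + 4) ≤ q u)
    (hcard : (2 : ℝ) * (N + 1) + 4 * n * (N + 1) ≤ η * k) :
    (cnt (fun π => Chain e π N q τ) : ℝ) * ((k : ℝ) - 2 * (N + 1)) ≤
      k.factorial * bet c η J n k ^ (N - 1) := by
  classical
  have he := h.inj
  have hfar : ∀ i j, i < j → j ≤ N → ¬ (i = 0 ∧ j = N) → q i + 3 ≤ q j ∨ q j + 3 ≤ q i := by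
    intro i j hij hj hne
    by_cases hi : i = 0
    · have h1 := (hU j hj (by omega) (by omega)).2.2 i (by omega) (by omega)
      omega
    · have h1 := (hU i (by omega) hi (by omega)).2.2 j hj (by omega)
      omega
  set l : ℕ → ℕ := fun i => if i = 0 then min (q 0) (q N) - 1 else q i - 1 with hl
  set r : ℕ → ℕ := fun i => if i = 0 then max (q 0) (q N) + 1 else q i + 1 with hr
  have hl0 : l 0 = min (q 0) (q N) - 1 := by simp [hl]
  have hr0 : r 0 = max (q 0) (q N) + 1 := by simp [hr]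
  have hli : ∀ i, 1 ≤ i → l i = q i - 1 := fun i hi => by
    rw [hl]; simp only; rw [if_neg (by omega)]
  have hri : ∀ i, 1 ≤ i → r i = q i + 1 := fun i hi => by
    rw [hr]; simp only; rw [if_neg (by omega)]
  set I : Finset ℕ := (range N).biUnion fun i => Ico (l i) (r i) with hI
  have hq0 := hq 0 (by omega)
  have hqn := hq N le_rfl
  have hsep0 : ∀ j, 1 ≤ j → j < N → r 0 < l j ∨ r j < l 0 := by
    intro j h1 h2
    rw [hl0, hr0, hli j h1, hri j h1]
    have a := hfar 0 j (by omega) h2.le (by omega)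
    have b := hfar j N h2 le_rfl (by omega)
    omega
  have hrk : ∀ i < N, r i ≤ k := by
    intro i hi
    rcases Nat.eq_zero_or_pos i with rfl | h1
    · rw [hr0]; omega
    · rw [hri i h1]; have := hq i hi.le; omega
  have hIk : I ⊆ range k := by
    intro x hx
    rw [hI, mem_biUnion] at hx
    obtain ⟨i, hi, hx⟩ := hx
    rw [mem_Ico] at hx
    have := hrk i (mem_range.1 hi)
    rw [mem_range]
    omega
  have hIcard : I.card ≤ 2 * (N + 1) := by
    refine card_biUnion_le.trans ?_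
    have h1 : ∀ i ∈ range N, (Ico (l i) (r i)).card ≤ 2 + if i = 0 then 2 else 0 := by
      intro i _
      rw [Nat.card_Ico]
      split_ifs with h
      · subst h
        rw [hl0, hr0]; omega
      · rw [hli i (by omega), hri i (by omega)]; omega
    refine (sum_le_sum h1).trans ?_
    rw [sum_add_distrib, sum_ite_eq' (range N) 0 (fun _ => 2)]
    simp only [sum_const, card_range, smul_eq_mul, mem_range]
    split_ifs <;> omega
  -- positions
  have hmemI : ∀ j ≤ N, q j - 1 ∈ I ∧ q j ∈ I := by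
    intro j hj
    rw [hI]
    simp only [mem_biUnion, mem_range, mem_Ico]
    have hqj := hq j hj
    rcases Nat.eq_zero_or_pos j with rfl | h1
    · exact ⟨⟨0, by omega, by rw [hl0, hr0]; omega⟩, ⟨0, by omega, by rw [hl0, hr0]; omega⟩⟩
    · rcases eq_or_lt_of_le hj with rfl | h2
      · exact ⟨⟨0, by omega, by rw [hl0, hr0]; omega⟩, ⟨0, by omega, by rw [hl0, hr0]; omega⟩⟩
      · exact ⟨⟨j, h2, by rw [hli j h1, hri j h1]; omega⟩, ⟨j, h2, by rw [hli j h1, hri j h1]; omega⟩⟩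
  have hZ0 : ∀ x, l 0 ≤ x → x < r 0 → x ∈ I := by
    intro x h1 h2
    rw [hI, mem_biUnion]
    exact ⟨0, mem_range.2 (by omega), mem_Ico.2 ⟨h1, h2⟩⟩
  -- positions outside the zones
  have hout : ∀ u, u ≠ 0 → u < N → ∀ x, (q u ≤ x + (2 * n + 1) ∧ x + 2 ≤ q u) ∨
      (q u + 1 ≤ x ∧ x ≤ q u + 2 * n) → x ∉ I := by
    intro u hu0 huN x hx hxI
    rw [hI, mem_biUnion] at hxI
    obtain ⟨i, hi, hx'⟩ := hxI
    rw [mem_Ico] at hx'
    have hiN := mem_range.1 hi
    have hu := hU u huN.le hu0 (by omega)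
    rcases Nat.eq_zero_or_pos i with rfl | h1
    · rw [hl0, hr0] at hx'
      have h2 := hu.2.2 0 (by omega) (by omega)
      have h3 := hu.2.2 N le_rfl (by omega)
      omega
    · rw [hli i h1, hri i h1] at hx'
      by_cases hiu : i = u
      · subst hiu
        omega
      · have h2 := hu.2.2 i hiN.le hiu
        omega
  set T : Perm (Fin k) → G := fun π => ∑ x ∈ Ico (l 0) (q N - 1), el e π x -
    ∑ x ∈ Ico (l 0) (q 0 - 1), el e π x with hT
  set S : Perm (Fin k) → Prop := fun π => snbC e q τ N π = T π with hS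
  have hIco0 : Ico (l 0) (q 0 - 1) ⊆ Ico (l 0) (r 0) := by
    intro x hx
    rw [mem_Ico] at hx ⊢
    rw [hr0]; omega
  have hIcon : Ico (l 0) (q N - 1) ⊆ Ico (l 0) (r 0) := by
    intro x hx
    rw [mem_Ico] at hx ⊢
    rw [hr0]; omega
  have hI0 : Ico (l 0) (r 0) ⊆ I := by
    intro x hx
    rw [mem_Ico] at hx
    exact hZ0 x hx.1 hx.2
  have hTdep : Dep (Ico (l 0) (r 0)) T := by
    have a := dep_sum_el (k := k) e hIcon
    have b := dep_sum_el (k := k) e hIco0
    exact a.map₂ b (fun x y => x - y)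
  have hCdep : ∀ i ≤ N, Dep I (snbC e q τ i) := by
    intro i hi π π' ha
    unfold snbC
    refine sum_congr rfl fun j hj => ?_
    have hj' := mem_range.1 hj
    have a := dep_uu e (τ j) (hmemI j (by omega)).1 (hmemI j (by omega)).2 π π' ha
    have b := dep_ww e (τ (j + 1)) (hmemI (j + 1) (by omega)).1 (hmemI (j + 1) (by omega)).2 π π' ha
    simp only at a b
    rw [a, b]
  have hSdep : Dep I S := (hCdep N le_rfl).map₂ (hTdep.mono hI0) (fun x y => x = y)
  -- the data of the joint bound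
  set Ψ : ℕ → Perm (Fin k) → G := fun i π =>
    snbC e q τ (i + 1) π + ∑ x ∈ Ico (l 0) (q 0 - 1), el e π x with hΨ
  have hΨdep : ∀ i < N - 1, Dep I (Ψ i) := by
    intro i hi
    exact (hCdep (i + 1) (by omega)).map₂ ((dep_sum_el (k := k) e hIco0).mono hI0)
      (fun x y => x + y)
  set g : ℕ → Perm (Fin k) → G := fun i π => ps e π (l 0) + Ψ i π with hg
  set a : ℕ → ℕ → ℕ := fun i j => q (i + 1) - 2 - j with ha
  set b : ℕ → ℕ → ℕ := fun i j => q (i + 1) + 1 + j with hb
  set P : ℕ → Finset ℕ := fun i => range (q (i + 1) - 1) with hP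
  have ha' : ∀ i j, a i j = q (i + 1) - 2 - j := fun _ _ => rfl
  have hb' : ∀ i j, b i j = q (i + 1) + 1 + j := fun _ _ => rfl
  have hP' : ∀ i x, x ∈ P i ↔ x < q (i + 1) - 1 := fun i x => by rw [hP, mem_range]
  have hiso : ∀ i < N - 1, 2 * n + 2 ≤ q (i + 1) ∧ q (i + 1) + (2 * n + 1) ≤ k ∧
      ∀ v ≤ N, v ≠ i + 1 → q (i + 1) + (4 * n + 4) ≤ q v ∨ q v + (4 * n + 4) ≤ q (i + 1) :=
    fun i hi => hU (i + 1) (by omega) (by omega) (by omega)
  have hal : ∀ i < N - 1, ∀ j < 2 * n, a i j < k ∧ a i j ∈ P i ∧ a i j ∉ I := by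
    intro i hi j hj
    have h1 := hiso i hi
    rw [hP', ha']
    refine ⟨by omega, by omega, ?_⟩
    exact hout (i + 1) (by omega) (by omega) _ (Or.inl ⟨by omega, by omega⟩)
  have hbl : ∀ i < N - 1, ∀ j < 2 * n, b i j < k ∧ b i j ∉ P i ∧ b i j ∉ I := by
    intro i hi j hj
    have h1 := hiso i hi
    rw [hP', hb']
    refine ⟨by omega, by omega, ?_⟩
    exact hout (i + 1) (by omega) (by omega) _ (Or.inr ⟨by omega, by omega⟩)
  have hside : ∀ i < N - 1, ∀ i' < N - 1, i' ≠ i → ∀ j < 2 * n,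
      (a i j ∈ P i' ↔ b i j ∈ P i') := by
    intro i hi i' hi' hne j hj
    have h1 := hiso i hi
    have h2 := h1.2.2 (i' + 1) (by omega) (by omega)
    rw [hP', hP', ha', hb']
    omega
  have haa : ∀ i < N - 1, ∀ j < 2 * n, ∀ i' < N - 1, ∀ j' < 2 * n, (i, j) ≠ (i', j') →
      a i j ≠ a i' j' ∧ b i j ≠ b i' j' := by
    intro i hi j hj i' hi' j' hj' hne
    have h1 := hiso i hi
    have h1' := hiso i' hi'
    rw [ha', ha', hb', hb']
    by_cases hii : i' = i
    · subst hii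
      have : j ≠ j' := fun h => hne (by rw [h])
      omega
    · have h2 := h1.2.2 (i' + 1) (by omega) (by omega)
      omega
  have hab : ∀ i < N - 1, ∀ j < 2 * n, ∀ i' < N - 1, ∀ j' < 2 * n, a i j ≠ b i' j' := by
    intro i hi j hj i' hi' j' hj'
    have h1 := hiso i hi
    have h1' := hiso i' hi'
    rw [ha', hb']
    by_cases hii : i' = i
    · subst hii
      omega
    · have h2 := h1.2.2 (i' + 1) (by omega) (by omega)
      omega
  have hginv : ∀ i < N - 1, ∀ i' < N - 1, ∀ j < 2 * n, ∀ π,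
      g i (π * sw (a i' j) (b i' j)) = g i π := by
    intro i hi i' hi' j hj π
    have h1 := hal i' hi' j hj
    have h2 := hbl i' hi' j hj
    have h3 := dep_sw I (Ψ i) (hΨdep i hi) (a i' j) (b i' j) h1.2.2 h2.2.2 π
    have h4 : ps e (π * sw (a i' j) (b i' j)) (l 0) = ps e π (l 0) := by
      refine ps_sw e π _ _ _ h1.1 h2.1 (by rw [hl0]; omega) ?_
      have h5 := hiso i' hi'
      have h6 := h5.2.2 0 (by omega) (by omega)
      have h7 := h5.2.2 N le_rfl (by omega)
      rw [hl0, ha', hb']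
      omega
    rw [hg]
    simp only
    rw [h3, h4]
  have hjc := joint_count e I S hSdep n (N - 1) P a b g hal hbl hside haa hab hginv
  have hcard' : (I.card : ℝ) + 4 * n * ((N - 1 : ℕ) : ℝ) ≤ η * k := by
    have h1 : (I.card : ℝ) ≤ 2 * (N + 1) := by exact_mod_cast hIcard
    have h2 : ((N - 1 : ℕ) : ℝ) ≤ N + 1 := by
      have : N - 1 ≤ N + 1 := by omega
      exact_mod_cast this
    have h3 : 4 * (n : ℝ) * ((N - 1 : ℕ) : ℝ) ≤ 4 * n * (N + 1) :=
      mul_le_mul_of_nonneg_left h2 (by positivity)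
    linarith
  have hjp := joint_prod e c η J h I hIk S hSdep n (N - 1) a b
    (fun i hi j hj => ⟨(hal i hi j hj).1, (hal i hi j hj).2.2⟩)
    (fun i hi j hj => ⟨(hbl i hi j hj).1, (hbl i hi j hj).2.2⟩) haa hab hcard'
  -- the chain event
  have hchain : ∀ π, Chain e π N q τ → S π ∧ ∀ i < N - 1, ∑ x ∈ P i, el e π x = g i π := by
    intro π hπ
    have hc := snb_chain hπ
    have hA : ps e π (q 0 - 1) = ps e π (l 0) + ∑ x ∈ Ico (l 0) (q 0 - 1), el e π x :=
      ps_eq_add e π (by rw [hl0]; omega)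
    have hB : ps e π (q N - 1) = ps e π (l 0) + ∑ x ∈ Ico (l 0) (q N - 1), el e π x :=
      ps_eq_add e π (by rw [hl0]; omega)
    refine ⟨?_, ?_⟩
    · have h1 := hc N le_rfl
      rw [hA, hB] at h1
      simp only [hS, hT]
      have h2 : ∑ x ∈ Ico (l 0) (q N - 1), el e π x = ∑ x ∈ Ico (l 0) (q 0 - 1), el e π x +
          snbC e q τ N π := by
        exact add_left_cancel (h1.trans (add_assoc _ _ _))
      rw [h2]; abel
    · intro i hi
      have h2 := hc (i + 1) (by omega)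
      rw [hA] at h2
      have h3 : ∑ x ∈ P i, el e π x = ps e π (q (i + 1) - 1) := rfl
      rw [h3, h2]
      simp only [hg, hΨ]
      abel
  -- the pivot
  have hq1 := hq 1 (by omega)
  have hfar1 : ∀ j ≤ N, j ≠ 1 → q j + 3 ≤ q 1 ∨ q 1 + 3 ≤ q j := by
    intro j hj hj1
    rcases lt_or_gt_of_ne hj1 with h | h
    · have := hfar j 1 h (by omega) (by omega)
      omega
    · have := hfar 1 j h hj (by omega)
      omega
  have hne1 : ∀ p, (p = q 1 ∨ p = q 1 - 1) → ∀ j ≤ N, j ≠ 1 → q j - 1 ∈ I.erase p ∧ q j ∈ I.erase p := by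
    intro p hp j hj hj1
    have h1 := hfar1 j hj hj1
    have h2 := hmemI j hj
    have h3 := hq j hj
    refine ⟨mem_erase.2 ⟨by omega, h2.1⟩, mem_erase.2 ⟨by omega, h2.2⟩⟩
  have hZp : ∀ p, (p = q 1 ∨ p = q 1 - 1) → Ico (l 0) (r 0) ⊆ I.erase p := by
    intro p hp x hx
    have hx' := mem_Ico.1 hx
    refine mem_erase.2 ⟨?_, hI0 hx⟩
    have h1 := hsep0 1 le_rfl (by omega)
    rw [hli 1 le_rfl, hri 1 le_rfl] at h1
    omega
  set R : Perm (Fin k) → G := fun π => ∑ j ∈ (range N).erase 1, uu e π (τ j) (q j) -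
    ∑ j ∈ (range N).erase 0, ww e π (τ (j + 1)) (q (j + 1)) with hR
  have hRdep : ∀ p, (p = q 1 ∨ p = q 1 - 1) → Dep (I.erase p) R := by
    intro p hp π π' ha
    simp only [hR]
    congr 1
    · refine sum_congr rfl fun j hj => ?_
      rw [mem_erase, mem_range] at hj
      have h1 := hne1 p hp j (by omega) hj.1
      exact dep_uu e (τ j) h1.1 h1.2 π π' ha
    · refine sum_congr rfl fun j hj => ?_
      rw [mem_erase, mem_range] at hj
      have h1 := hne1 p hp (j + 1) (by omega) (by omega)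
      exact dep_ww e (τ (j + 1)) h1.1 h1.2 π π' ha
  have hCR : ∀ π, snbC e q τ N π = R π + (uu e π (τ 1) (q 1) - ww e π (τ 1) (q 1)) := by
    intro π
    unfold snbC
    rw [sum_sub_distrib, ← add_sum_erase (range N) (fun j => uu e π (τ j) (q j))
      (mem_range.2 (show 1 < N by omega)), ← add_sum_erase (range N)
      (fun j => ww e π (τ (j + 1)) (q (j + 1))) (mem_range.2 (show 0 < N by omega))]
    simp only [hR, zero_add]
    abel
  have hScnt : cnt S * (k - I.card) ≤ k.factorial := by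
    have hTd : ∀ p, (p = q 1 ∨ p = q 1 - 1) → Dep (I.erase p) T := fun p hp => hTdep.mono (hZp p hp)
    have hτ : τ 1 = 0 ∨ τ 1 = 1 ∨ τ 1 = 2 ∨ τ 1 = 3 := by
      generalize τ 1 = z
      fin_cases z <;> simp
    have hm := hmemI 1 (by omega)
    have hel : Dep (I.erase (q 1)) (fun π : Perm (Fin k) => el e π (q 1 - 1)) :=
      dep_el e (mem_erase.2 ⟨by omega, hm.1⟩)
    rcases hτ with h | h | h | h
    · refine snb_pivot e he S I hIk (q 1) hm.2 (fun π => (R π - T π) + el e π (q 1 - 1))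
        (((hRdep _ (Or.inl rfl)).map₂ (hTd _ (Or.inl rfl)) (fun x y => x - y)).map₂ hel
          (fun x y => x + y)) fun π hπ => ?_
      have h1 : R π + (uu e π (τ 1) (q 1) - ww e π (τ 1) (q 1)) = T π := (hCR π).symm.trans hπ
      rw [h] at h1
      simp [uu, ww] at h1
      rw [← h1]; abel
    · refine snb_pivot e he S I hIk (q 1) hm.2 (fun π => (T π - R π) + el e π (q 1 - 1))
        (((hTd _ (Or.inl rfl)).map₂ (hRdep _ (Or.inl rfl)) (fun x y => x - y)).map₂ hel
          (fun x y => x + y)) fun π hπ => ?_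
      have h1 : R π + (uu e π (τ 1) (q 1) - ww e π (τ 1) (q 1)) = T π := (hCR π).symm.trans hπ
      rw [h] at h1
      simp [uu, ww] at h1
      rw [← h1]; abel
    · refine snb_pivot e he S I hIk (q 1) hm.2 (fun π => (T π - R π))
        ((hTd _ (Or.inl rfl)).map₂ (hRdep _ (Or.inl rfl)) (fun x y => x - y)) fun π hπ => ?_
      have h1 : R π + (uu e π (τ 1) (q 1) - ww e π (τ 1) (q 1)) = T π := (hCR π).symm.trans hπ
      rw [h] at h1
      simp [uu, ww] at h1
      rw [← h1]; abel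
    · refine snb_pivot e he S I hIk (q 1 - 1) hm.1 (fun π => (R π - T π))
        ((hRdep _ (Or.inr rfl)).map₂ (hTd _ (Or.inr rfl)) (fun x y => x - y)) fun π hπ => ?_
      have h1 : R π + (uu e π (τ 1) (q 1) - ww e π (τ 1) (q 1)) = T π := (hCR π).symm.trans hπ
      rw [h] at h1
      simp [uu, ww] at h1
      rw [← h1]; abel
  -- conclusion
  have hbet : 0 ≤ bet c η J n k := by
    unfold bet
    have h1 : η / (4 * 4 ^ J) ≤ 1 := by
      have h2 : (1 : ℝ) ≤ 4 ^ J := one_le_pow₀ (by norm_num)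
      rw [div_le_one (by positivity)]
      have := h.η1
      linarith
    have h2 : 0 ≤ c / ((1 - η) * k) := by
      have h3 := h.η1
      have h4 := h.c0
      exact div_nonneg h4.le (mul_nonneg (by linarith) (Nat.cast_nonneg _))
    have h3 : 0 ≤ (1 - η / (4 * 4 ^ J)) ^ n := pow_nonneg (by linarith) _
    linarith
  have hkI : (k : ℝ) - 2 * (N + 1) ≤ ((k - I.card : ℕ) : ℝ) := by
    have h1 : I.card ≤ k := by
      have := card_le_card hIk
      rwa [card_range] at this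
    rw [Nat.cast_sub h1]
    have h2 : (I.card : ℝ) ≤ 2 * (N + 1) := by exact_mod_cast hIcard
    linarith
  have hScnt' : (cnt S : ℝ) * ((k - I.card : ℕ) : ℝ) ≤ k.factorial := by exact_mod_cast hScnt
  have hcnt : (cnt (fun π => Chain e π N q τ) : ℝ) ≤ bet c η J n k ^ (N - 1) * (cnt S : ℝ) := by
    refine le_trans ?_ (hjc.trans hjp)
    exact_mod_cast cnt_mono hchain
  calc (cnt (fun π => Chain e π N q τ) : ℝ) * ((k : ℝ) - 2 * (N + 1))
      ≤ (cnt (fun π => Chain e π N q τ) : ℝ) * ((k - I.card : ℕ) : ℝ) :=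
        mul_le_mul_of_nonneg_left hkI (Nat.cast_nonneg _)
    _ ≤ (bet c η J n k ^ (N - 1) * (cnt S : ℝ)) * ((k - I.card : ℕ) : ℝ) :=
        mul_le_mul_of_nonneg_right hcnt (Nat.cast_nonneg _)
    _ = bet c η J n k ^ (N - 1) * ((cnt S : ℝ) * ((k - I.card : ℕ) : ℝ)) := by ring
    _ ≤ bet c η J n k ^ (N - 1) * k.factorial :=
        mul_le_mul_of_nonneg_left hScnt' (pow_nonneg hbet _)
    _ = k.factorial * bet c η J n k ^ (N - 1) := by ring

end Pool.Agent.SPQ
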