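import Pool.Agent.Lib_helper8.SPQ.U3
import Pool.Agent.Lib_helper8.SPQ.Z2

/-!
Block U4 of the project SPQ (MP_b4ec45_co): union bound for near-cycles.
-/

namespace Pool.Agent.SPQ

open Finset Equiv Function Pool.Agent.SEQ

variable {G : Type*} [AddCommGroup G] {k : ℕ}

/-! ### other blocks -/

/-! ### the count of sequences -/

/-- the first and the last position are near -/
def u4_near (N : ℕ) (q : Fin (N + 1) → ℕ) : Prop :=
  q 0 ≤ q (Fin.last N) + 2 ∧ q (Fin.last N) ≤ q 0 + 2

open Classical in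
/-- the number of near-cycles -/
theorem u4_count1 (k N : ℕ) (hN : 2 ≤ N) :
    ((Fintype.piFinset fun _ : Fin (N + 1) => range k).filter fun q => u4_near N q).card ≤
      k ^ N * 5 := by
  have h0 : (0 : Fin (N + 1)) ≠ Fin.last N := by
    intro h
    have := congrArg Fin.val h
    simp at this
    omega
  have hcode := u3_code k ({Fin.last N} : Finset (Fin (N + 1)))
    ((Fintype.piFinset fun _ : Fin (N + 1) => range k).filter fun q => u4_near N q)
    (fun q hq w => by
      rw [mem_filter, Fintype.mem_piFinset] at hq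
      exact mem_range.1 (hq.1 w))
    (range 5) (fun q => q (Fin.last N) + 2 - q 0)
    (fun q hq => by
      rw [mem_filter] at hq
      unfold u4_near at hq
      rw [mem_range]
      omega)
    (fun q hq q' hq' hw hc => by
      rw [mem_filter] at hq hq'
      unfold u4_near at hq hq'
      have e0 := hw 0 (by rw [mem_singleton]; exact h0)
      funext w
      by_cases h1 : w = Fin.last N
      · rw [h1]
        omega
      · exact hw w (by rw [mem_singleton]; exact h1))
  rw [card_singleton, card_range, Nat.add_sub_cancel] at hcode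
  exact hcode

theorem u4_bad (k n N : ℕ) (q : Fin (N + 1) → ℕ)
    (h : ¬ ∀ u ≤ N, u ≠ 0 → u ≠ N → u3_iso k n N (u3_ext N q) u) :
    ∃ u v : Fin (N + 1), u ≠ 0 ∧ u ≠ Fin.last N ∧ u3_cl k n q u v := by
  push Not at h
  obtain ⟨u, hu, h1, h2, h3⟩ := h
  obtain ⟨v, hv⟩ := u3_not_iso k n N q u hu h3
  refine ⟨⟨u, by omega⟩, v, ?_, ?_, hv⟩
  · intro h4
    exact h1 (congrArg Fin.val h4)
  · intro h4
    exact h2 (congrArg Fin.val h4)

open Classical in
/-- the number of near-cycles with a non-isolated inner position -/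
theorem u4_count2 (k n N : ℕ) (hN : 2 ≤ N) :
    (((Fintype.piFinset fun _ : Fin (N + 1) => range k).filter fun q => u4_near N q).filter
      fun q => ¬ ∀ u ≤ N, u ≠ 0 → u ≠ N → u3_iso k n N (u3_ext N q) u).card ≤
      (N + 1) ^ 2 * (k ^ (N - 1) * (5 * (8 * n + 8))) := by
  set Q : Finset (Fin (N + 1) → ℕ) :=
    (Fintype.piFinset fun _ : Fin (N + 1) => range k).filter fun q => u4_near N q with hQ
  have h0 : (0 : Fin (N + 1)) ≠ Fin.last N := by
    intro h
    have := congrArg Fin.val h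
    simp at this
    omega
  have hsub : (Q.filter fun q => ¬ ∀ u ≤ N, u ≠ 0 → u ≠ N → u3_iso k n N (u3_ext N q) u) ⊆
      (univ : Finset (Fin (N + 1) × Fin (N + 1))).biUnion fun x =>
        Q.filter fun q => x.1 ≠ 0 ∧ x.1 ≠ Fin.last N ∧ u3_cl k n q x.1 x.2 := by
    intro q hq
    rw [mem_filter] at hq
    obtain ⟨u, v, h1, h2, h3⟩ := u4_bad k n N q hq.2
    rw [mem_biUnion]
    exact ⟨(u, v), mem_univ _, mem_filter.2 ⟨hq.1, h1, h2, h3⟩⟩
  refine (card_le_card hsub).trans (card_biUnion_le.trans ?_)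
  have hone : ∀ x ∈ (univ : Finset (Fin (N + 1) × Fin (N + 1))),
      (Q.filter fun q => x.1 ≠ 0 ∧ x.1 ≠ Fin.last N ∧ u3_cl k n q x.1 x.2).card ≤
        k ^ (N - 1) * (5 * (8 * n + 8)) := by
    rintro ⟨u, v⟩ _
    simp only
    by_cases hu : u = Fin.last N
    · have h0 : (Q.filter fun q => u ≠ 0 ∧ u ≠ Fin.last N ∧ u3_cl k n q u v) = ∅ := by
        rw [filter_eq_empty_iff]
        rintro q _ ⟨_, h1, _⟩
        exact h1 hu
      rw [h0, card_empty]
      exact Nat.zero_le _
    · have hcode := u3_code k ({u, Fin.last N} : Finset (Fin (N + 1)))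
        (Q.filter fun q => u ≠ 0 ∧ u ≠ Fin.last N ∧ u3_cl k n q u v)
        (fun q hq w => by
          rw [mem_filter, hQ, mem_filter, Fintype.mem_piFinset] at hq
          exact mem_range.1 (hq.1.1 w))
        (range 5 ×ˢ range (8 * n + 8))
        (fun q => (q (Fin.last N) + 2 - q 0, u3_cd k n u v q))
        (fun q hq => by
          rw [mem_filter, hQ, mem_filter] at hq
          obtain ⟨⟨_, hn⟩, _, _, hcl⟩ := hq
          unfold u4_near at hn
          rw [mem_product, mem_range, mem_range]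
          exact ⟨by simp only; omega, u3_cd_lt k n q u v hcl⟩)
        (fun q hq q' hq' hw hc => by
          rw [mem_filter, hQ, mem_filter, Fintype.mem_piFinset] at hq hq'
          obtain ⟨⟨hq1, hn⟩, hu0, _, hcl⟩ := hq
          obtain ⟨⟨hq1', hn'⟩, _, _, hcl'⟩ := hq'
          unfold u4_near at hn hn'
          rw [Prod.mk.injEq] at hc
          have e0 : q 0 = q' 0 := by
            refine hw 0 ?_
            rw [mem_insert, mem_singleton]
            rintro (h1 | h1)
            · exact hu0 h1.symm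
            · exact h0 h1
          have e1 : q (Fin.last N) = q' (Fin.last N) := by
            have := hc.1
            omega
          have e2 : q u = q' u := by
            refine u3_cd_inj k n q q' u v hcl hcl' (mem_range.1 (hq1 _))
              (mem_range.1 (hq1' _)) (fun h5 => ?_) hc.2
            by_cases h6 : v = Fin.last N
            · rw [h6]
              exact e1
            · refine hw v ?_
              rw [mem_insert, mem_singleton]
              rintro (h7 | h7)
              · exact h5 h7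
              · exact h6 h7
          funext w
          by_cases h7 : w = u
          · rw [h7]
            exact e2
          · by_cases h8 : w = Fin.last N
            · rw [h8]
              exact e1
            · refine hw w ?_
              rw [mem_insert, mem_singleton]
              rintro (h9 | h9)
              · exact h7 h9
              · exact h8 h9)
      rw [card_pair hu, card_product, card_range, card_range] at hcode
      have h6 : N + 1 - 2 = N - 1 := by omega
      rw [h6] at hcode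
      exact hcode
  refine (sum_le_sum hone).trans ?_
  rw [sum_const, smul_eq_mul, card_univ, Fintype.card_prod, Fintype.card_fin]
  refine le_of_eq ?_
  ring

/-- (block U4) -/
theorem ub4 (e : Fin k → G) (c η : ℝ) (J : ℕ) (h : Par e c η J) (n N : ℕ) (hN : 2 ≤ N)
    (hk : 2 * (N + 1) < k) (hcard : (2 : ℝ) * (N + 1) + 4 * n * (N + 1) ≤ η * k) :
    (cnt (fun π => NC e (k - 1) N π) : ℝ) ≤
      k.factorial * (4 ^ N * 2 * (5 * (k : ℝ) ^ N * bet c η J n k ^ (N - 1) /
          (k - 2 * (N + 1)) +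
        (N + 1) ^ 2 * (8 * n + 8) * 5 * (k : ℝ) ^ (N - 1) * 3 ^ (N - 1) /
          (k - 2 * (N + 1)) ^ N)) := by
  classical
  set Q : Finset (Fin (N + 1) → ℕ) :=
    (Fintype.piFinset fun _ : Fin (N + 1) => range k).filter fun q => u4_near N q with hQ
  set Tt : Finset ((Fin N → Fin 4) × Bool) := univ with hTt
  set E : (Fin (N + 1) → ℕ) → (Fin N → Fin 4) × Bool → Perm (Fin k) → Prop := fun q τ π =>
    ((∀ i ≤ N, 2 ≤ u3_ext N q i ∧ u3_ext N q i < k) ∧
      (∀ i j, i < j → j ≤ N → ¬ (i = 0 ∧ j = N) →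
        u3_ext N q i + 3 ≤ u3_ext N q j ∨ u3_ext N q j + 3 ≤ u3_ext N q i) ∧
      (u3_ext N q 0 ≤ u3_ext N q N + 2 ∧ u3_ext N q N ≤ u3_ext N q 0 + 2)) ∧
      Chain e π N (u3_ext N q) (u3_tau N τ.1 τ.2) with hE
  set Good : (Fin (N + 1) → ℕ) → Prop := fun q =>
      ∀ u ≤ N, u ≠ 0 → u ≠ N → u3_iso k n N (u3_ext N q) u with hGood
  have hkR : (0 : ℝ) < (k : ℝ) - 2 * (N + 1) := by
    have : ((2 * (N + 1) : ℕ) : ℝ) < k := by exact_mod_cast hk
    push_cast at this
    linarith
  have hbet := u3_bet_nonneg h n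
  have hsub : cnt (fun π => NC e (k - 1) N π) ≤
      cnt (fun π => ∃ a ∈ Q ×ˢ Tt, E a.1 a.2 π) := by
    refine cnt_mono fun π hπ => ?_
    obtain ⟨q, τ, hq, _, hfar, hnear, hτ, hch⟩ := hπ
    have eq1 : ∀ i ≤ N, q i = u3_ext N (fun i => q i) i := by
      intro i hi
      unfold u3_ext
      rw [dif_pos (by omega)]
    have et1 : ∀ i ≤ N, τ i = u3_tau N (fun i => τ i) (decide (τ N = 1)) i := by
      intro i hi
      unfold u3_tau
      by_cases h : i < N
      · rw [dif_pos h]
      · have hin : i = N := by omega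
        subst hin
        rw [dif_neg h]
        rcases hτ with h0 | h1
        · rw [h0]; simp
        · rw [h1]; simp
    refine ⟨(fun i => q i, fun i => τ i, decide (τ N = 1)), ?_, ⟨?_, ?_, ?_⟩, ?_⟩
    · rw [mem_product, hQ, mem_filter, Fintype.mem_piFinset]
      refine ⟨⟨fun i => ?_, ?_⟩, mem_univ _⟩
      · rw [mem_range]
        exact (hq i (by omega)).2
      · unfold u4_near
        simpa using hnear
    · intro i hi
      rw [← eq1 i hi]
      exact hq i hi
    · intro i j hij hj hne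
      rw [← eq1 i (by omega), ← eq1 j hj]
      exact hfar i j hij hj hne
    · rw [← eq1 0 (by omega), ← eq1 N le_rfl]
      exact hnear
    · exact u3_chain_congr e π N eq1 et1 hch
  have hone : ∀ a ∈ Q ×ˢ Tt, (cnt (E a.1 a.2) : ℝ) ≤
      k.factorial * (bet c η J n k ^ (N - 1) / ((k : ℝ) - 2 * (N + 1))) +
        (if Good a.1 then 0 else
          k.factorial * (3 ^ (N - 1) / ((k : ℝ) - 2 * (N + 1)) ^ N)) := by
    rintro ⟨q, τ⟩ _
    simp only
    have h5 : (0 : ℝ) ≤ k.factorial * (bet c η J n k ^ (N - 1) / ((k : ℝ) - 2 * (N + 1))) := by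
      positivity
    have h6 : (0 : ℝ) ≤ k.factorial * (3 ^ (N - 1) / ((k : ℝ) - 2 * (N + 1)) ^ N) := by
      positivity
    by_cases hf : (∀ i ≤ N, 2 ≤ u3_ext N q i ∧ u3_ext N q i < k) ∧
      (∀ i j, i < j → j ≤ N → ¬ (i = 0 ∧ j = N) →
        u3_ext N q i + 3 ≤ u3_ext N q j ∨ u3_ext N q j + 3 ≤ u3_ext N q i) ∧
      (u3_ext N q 0 ≤ u3_ext N q N + 2 ∧ u3_ext N q N ≤ u3_ext N q 0 + 2)
    · have h1 : cnt (E q τ) ≤ cnt (fun π => Chain e π N (u3_ext N q) (u3_tau N τ.1 τ.2)) :=
        cnt_mono fun π h => h.2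
      have h1' : (cnt (E q τ) : ℝ) ≤
          cnt (fun π => Chain e π N (u3_ext N q) (u3_tau N τ.1 τ.2)) := by exact_mod_cast h1
      by_cases hg : Good q
      · rw [if_pos hg, add_zero]
        refine h1'.trans ?_
        rw [← mul_div_assoc, le_div_iff₀ hkR]
        exact near_good e c η J h n N _ _ hN hf.1 hf.2.2 hg hcard
      · rw [if_neg hg]
        have h2 := near_bound e h.inj N hN _ (u3_tau N τ.1 τ.2) hf.1 hf.2.1 hf.2.2
        have h3 : (cnt (fun π => Chain e π N (u3_ext N q) (u3_tau N τ.1 τ.2)) : ℝ) *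
            ((k : ℝ) - 2 * (N + 1)) ^ N ≤ k.factorial * 3 ^ (N - 1) := by
          have h4 : ((cnt (fun π => Chain e π N (u3_ext N q) (u3_tau N τ.1 τ.2)) *
            (k - 2 * (N + 1)) ^ N : ℕ) : ℝ) ≤ ((k.factorial * 3 ^ (N - 1) : ℕ) : ℝ) := by
            exact_mod_cast h2
          push_cast [Nat.cast_sub hk.le] at h4
          exact h4
        have h4 : (cnt (fun π => Chain e π N (u3_ext N q) (u3_tau N τ.1 τ.2)) : ℝ) ≤
            k.factorial * (3 ^ (N - 1) / ((k : ℝ) - 2 * (N + 1)) ^ N) := by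
          rw [← mul_div_assoc, le_div_iff₀ (pow_pos hkR N)]
          exact h3
        linarith
    · have h1 : cnt (E q τ) = 0 := u3_cnt_zero fun π h => hf h.1
      rw [h1, Nat.cast_zero]
      split_ifs <;> linarith
  have hcQ : (Q.card : ℝ) ≤ (k : ℝ) ^ N * 5 := by
    have h1 := u4_count1 k N hN
    have h2 : (Q.card : ℝ) ≤ ((k ^ N * 5 : ℕ) : ℝ) := by exact_mod_cast h1
    push_cast at h2
    exact h2
  have hcT : (Tt.card : ℝ) = 4 ^ N * 2 := by
    rw [hTt, card_univ, Fintype.card_prod, Fintype.card_pi, prod_const, Fintype.card_fin,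
      card_univ, Fintype.card_fin, Fintype.card_bool]
    push_cast
    rfl
  have hcB : ((Q.filter fun q => ¬ Good q).card : ℝ) ≤
      (N + 1) ^ 2 * ((k : ℝ) ^ (N - 1) * (5 * (8 * n + 8))) := by
    have h1 := u4_count2 k n N hN
    have h2 : ((Q.filter fun q => ¬ Good q).card : ℝ) ≤
        (((N + 1) ^ 2 * (k ^ (N - 1) * (5 * (8 * n + 8))) : ℕ) : ℝ) := by
      exact_mod_cast h1
    push_cast at h2
    exact h2
  have hp1 : (0 : ℝ) ≤ Tt.card * (k.factorial * (bet c η J n k ^ (N - 1) /
      ((k : ℝ) - 2 * (N + 1)))) := by positivity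
  have hp2 : (0 : ℝ) ≤ Tt.card * (k.factorial * (3 ^ (N - 1) /
      ((k : ℝ) - 2 * (N + 1)) ^ N)) := by positivity
  calc (cnt (fun π => NC e (k - 1) N π) : ℝ)
      ≤ ((∑ a ∈ Q ×ˢ Tt, cnt (E a.1 a.2) : ℕ) : ℝ) := by
        exact_mod_cast hsub.trans (cnt_exists_le (Q ×ˢ Tt) fun a => E a.1 a.2)
    _ = ∑ a ∈ Q ×ˢ Tt, (cnt (E a.1 a.2) : ℝ) := by push_cast; rfl
    _ ≤ ∑ a ∈ Q ×ˢ Tt, (k.factorial * (bet c η J n k ^ (N - 1) / ((k : ℝ) - 2 * (N + 1))) +
        (if Good a.1 then 0 else
          k.factorial * (3 ^ (N - 1) / ((k : ℝ) - 2 * (N + 1)) ^ N))) :=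
        sum_le_sum hone
    _ = (Q.card : ℝ) * (Tt.card * (k.factorial * (bet c η J n k ^ (N - 1) /
          ((k : ℝ) - 2 * (N + 1))))) +
        ((Q.filter fun q => ¬ Good q).card : ℝ) * (Tt.card *
          (k.factorial * (3 ^ (N - 1) / ((k : ℝ) - 2 * (N + 1)) ^ N))) := by
        rw [sum_add_distrib, sum_const, card_product, nsmul_eq_mul, sum_product, Nat.cast_mul]
        congr 1
        · ring
        have h1 : ∀ q ∈ Q, (∑ _τ ∈ Tt, (if Good q then (0 : ℝ) else
            k.factorial * (3 ^ (N - 1) / ((k : ℝ) - 2 * (N + 1)) ^ N))) =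
            if Good q then 0 else
              (Tt.card : ℝ) * (k.factorial * (3 ^ (N - 1) / ((k : ℝ) - 2 * (N + 1)) ^ N)) := by
          intro q _
          rw [sum_const, nsmul_eq_mul]
          split_ifs <;> simp
        rw [sum_congr rfl h1, sum_ite, sum_const_zero, zero_add, sum_const, nsmul_eq_mul]
    _ ≤ ((k : ℝ) ^ N * 5) * (Tt.card * (k.factorial * (bet c η J n k ^ (N - 1) /
          ((k : ℝ) - 2 * (N + 1))))) +
        ((N + 1) ^ 2 * ((k : ℝ) ^ (N - 1) * (5 * (8 * n + 8)))) * (Tt.card *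
          (k.factorial * (3 ^ (N - 1) / ((k : ℝ) - 2 * (N + 1)) ^ N))) :=
        add_le_add (mul_le_mul_of_nonneg_right hcQ hp1) (mul_le_mul_of_nonneg_right hcB hp2)
    _ = k.factorial * (4 ^ N * 2 * (5 * (k : ℝ) ^ N * bet c η J n k ^ (N - 1) /
          (k - 2 * (N + 1)) +
        (N + 1) ^ 2 * (8 * n + 8) * 5 * (k : ℝ) ^ (N - 1) * 3 ^ (N - 1) /
          (k - 2 * (N + 1)) ^ N)) := by
        rw [hcT]
        ring

end Pool.Agent.SPQ
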