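import Pool.Agent.Lib_helper8.SPQ.A
import Pool.Agent.Lib_helper8.SPQ.U1
import Pool.Agent.Lib_helper8.SPQ.U2
import Pool.Agent.Lib_helper8.SPQ.U3
import Pool.Agent.Lib_helper8.SPQ.U4

/-!
Assembly of the project SPQ: sparse sets of nonzero elements of an abelian group are sequenceable.
-/

namespace Pool.Agent.SPQ

open Finset Equiv Function Pool.Agent.SEQ

variable {G : Type*} [AddCommGroup G] {k : ℕ}

theorem exists_good (e : Fin k → G) (η : ℝ) (n N : ℕ) (h : Par e (3 / 10000) η 24)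
    (hN : 2 ≤ N) (hk : 2 * (N + 1) < k) (hk2 : 2 * n + 7 ≤ k)
    (hc1 : (3 : ℝ) + 4 * n ≤ η * k) (hc2 : (2 : ℝ) * (N + 1) + 4 * n * (N + 1) ≤ η * k)
    (htot : 12 * (k * bet (3 / 10000) η 24 n k + 4 * n * (2 / k)) +
      384 * ((k : ℝ) ^ 2 * bet (3 / 10000) η 24 n k / (k - 3) +
        k * (2 * n + 3) / (k - 2 * n - 6) ^ 2 + (2 * n + 8) ^ 2 / (k - 3)) +
      ∑ m ∈ Ico 2 (N + 1), (4 ^ m * 2 * (5 * (k : ℝ) ^ m *
        bet (3 / 10000) η 24 n k ^ (m - 1) / (k - 2 * (m + 1)) +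
        (m + 1) ^ 2 * (8 * n + 8) * 5 * (k : ℝ) ^ (m - 1) * 3 ^ (m - 1) /
          (k - 2 * (m + 1)) ^ m)) +
      4 ^ N * 2 * ((k : ℝ) ^ (N + 1) * bet (3 / 10000) η 24 n k ^ (N - 1) +
        (N + 1) ^ 4 * (8 * n + 8) ^ 2 * (k : ℝ) ^ (N - 1) * 3 ^ N /
          (k - 2 * (N + 1)) ^ N) < (1 : ℝ)) :
    ∃ π : Perm (Fin k), ¬ B1 e (k - 1) π ∧ ¬ B2 e (k - 1) π ∧
      (∀ m, 2 ≤ m → m ≤ N → ¬ NC e (k - 1) m π) ∧ ¬ FP e (k - 1) N π := by
  have b1 := ub1 e _ η 24 h n (by linarith)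
  have b2 := ub2 e _ η 24 h n hk2 hc1
  have b3 := ub3 e _ η 24 h n N (by omega) hk hc2
  have hNr : (2 : ℝ) ≤ N := by exact_mod_cast hN
  have b4 : ∀ m ∈ Ico 2 (N + 1), _ := fun m hm => ub4 e _ η 24 h n m (mem_Ico.1 hm).1
    (by have := (mem_Ico.1 hm).2; omega)
    (by
      have h1 := (mem_Ico.1 hm).2
      have h2 : (m : ℝ) ≤ N := by exact_mod_cast (show m ≤ N by omega)
      have h3 : (0 : ℝ) ≤ n := by positivity
      nlinarith)
  have b4' := Finset.sum_le_sum b4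
  rw [← Finset.mul_sum] at b4'
  have hF : (0 : ℝ) < k.factorial := by exact_mod_cast Nat.factorial_pos k
  have hle : cnt (fun π : Perm (Fin k) =>
      ((B1 e (k - 1) π ∨ B2 e (k - 1) π) ∨ (∃ m ∈ Ico 2 (N + 1), NC e (k - 1) m π)) ∨
        FP e (k - 1) N π) < k.factorial := by
    have h1 : cnt (fun π : Perm (Fin k) =>
      ((B1 e (k - 1) π ∨ B2 e (k - 1) π) ∨ (∃ m ∈ Ico 2 (N + 1), NC e (k - 1) m π)) ∨
        FP e (k - 1) N π) ≤ cnt (fun π => B1 e (k - 1) π) + cnt (fun π => B2 e (k - 1) π) +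
        ∑ m ∈ Ico 2 (N + 1), cnt (fun π => NC e (k - 1) m π) +
        cnt (fun π => FP e (k - 1) N π) := by
      refine (cnt_or_le _ _).trans ?_
      gcongr
      refine (cnt_or_le _ _).trans ?_
      gcongr
      · exact cnt_or_le _ _
      · exact cnt_exists_le _ _
    have h2 : ((cnt (fun π => B1 e (k - 1) π) + cnt (fun π => B2 e (k - 1) π) +
        ∑ m ∈ Ico 2 (N + 1), cnt (fun π => NC e (k - 1) m π) +
        cnt (fun π => FP e (k - 1) N π) : ℕ) : ℝ) < k.factorial := by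
      rw [Nat.cast_add, Nat.cast_add, Nat.cast_add, Nat.cast_sum]
      refine lt_of_le_of_lt (add_le_add (add_le_add (add_le_add b1 b2) b4') b3) ?_
      rw [← mul_add, ← mul_add, ← mul_add]
      calc _ < (k.factorial : ℝ) * 1 := by
            apply mul_lt_mul_of_pos_left htot hF
        _ = k.factorial := mul_one _
    exact lt_of_le_of_lt h1 (by exact_mod_cast h2)
  obtain ⟨π, hπ⟩ := exists_of_cnt_lt hle
  push Not at hπ
  obtain ⟨⟨⟨h1, h2⟩, h3⟩, h4⟩ := hπ
  exact ⟨π, h1, h2, fun n hn hn' => h3 n (by simp; omega), h4⟩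

/-- the sparse case -/
theorem sparse_main : ∃ K : ℕ, ∀ {G : Type*} [AddCommGroup G] (A : Finset G), (0 : G) ∉ A →
    K ≤ A.card →
    (∀ (H : AddSubgroup G) (x : G), (H : Set G).Finite → Nat.card H ≤ 10000 * A.card →
      (A.card : ℝ) ^ (9 / 10 : ℝ) < ({a ∈ (A : Set G) | a - x ∉ H}.ncard : ℝ)) →
    ∃ a : Fin A.card → G, Injective a ∧ Set.range a = (A : Set G) ∧
      ∀ i j : ℕ, i < j → j ≤ A.card → ¬ (i = 0 ∧ j = A.card) →
        ∑ m : Fin A.card with m.val < i, a m ≠ ∑ m : Fin A.card with m.val < j, a m := by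
  obtain ⟨K, hK⟩ := arith_large
  refine ⟨max K 1, fun {G} _ A h0 hKA hsp => ?_⟩
  classical
  obtain ⟨n, N, hN, hk, hk2, hη1, hc1, hc2, htot⟩ := hK A.card (le_trans (le_max_left _ _) hKA)
  have hk0 : 0 < A.card := lt_of_lt_of_le one_pos (le_trans (le_max_right _ _) hKA)
  have hkr : (0 : ℝ) < A.card := by exact_mod_cast hk0
  set η : ℝ := (A.card : ℝ) ^ (-(1 / 10) : ℝ) / 2 with hηdef
  have hη0 : 0 < η := by positivity
  let e : Fin A.card → G := fun i => (A.equivFin.symm i : G)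
  have he : Injective e := fun i j h => A.equivFin.symm.injective (Subtype.ext h)
  have hmem : ∀ i, e i ∈ A := fun i => (A.equivFin.symm i).2
  have he0 : ∀ i, e i ≠ 0 := fun i h => h0 (h ▸ hmem i)
  have hrange : ∀ g ∈ A, ∃ i, e i = g := fun g hg => ⟨A.equivFin ⟨g, hg⟩, by simp [e]⟩
  have hAe : univ.map ⟨e, he⟩ = A := by
    ext g
    simp only [Finset.mem_map, Finset.mem_univ, true_and, Function.Embedding.coeFn_mk]
    exact ⟨fun ⟨i, hi⟩ => hi ▸ hmem i, hrange g⟩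
  have hpar : Par e (3 / 10000) η 24 := by
    refine ⟨he, by norm_num, by norm_num, hη0, hη1, ?_⟩
    rw [hAe]
    intro H x hH hcard
    have h1 : Nat.card H ≤ 10000 * A.card := by
      have : (Nat.card H : ℝ) ≤ 10000 * A.card := by linarith
      exact_mod_cast this
    have h2 := hsp H x hH h1
    have h3 : {a ∈ (A : Set G) | a - x ∉ H}.ncard = (A.filter fun a => a - x ∉ H).card := by
      rw [← Set.ncard_coe_finset]
      congr 1
      ext a
      simp
    rw [h3] at h2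
    have h4 := Finset.card_filter_add_card_filter_not (s := A) (fun a => a - x ∈ H)
    have h5 : ((A.filter fun a => a - x ∈ H).card : ℝ) +
        ((A.filter fun a => a - x ∉ H).card : ℝ) = A.card := by exact_mod_cast h4
    have h6 : (A.card : ℝ) ^ (9 / 10 : ℝ) = 2 * η * A.card := by
      rw [hηdef]
      have : (A.card : ℝ) ^ (9 / 10 : ℝ) = (A.card : ℝ) ^ (-(1 / 10) : ℝ) * A.card := by
        nth_rewrite 3 [← Real.rpow_one (A.card : ℝ)]
        rw [← Real.rpow_add hkr]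
        norm_num
      rw [this]
      ring
    rw [h6] at h2
    have h7 : ((A.filter fun a => a - x ∈ H).card : ℝ) < (1 - 2 * η) * A.card := by linarith
    convert! h7
  obtain ⟨π, h1, h2, h3, h4⟩ := exists_good e η n N hpar hN hk hk2 hc1 hc2 htot
  obtain ⟨π', hπ'⟩ := main_of_good e he0 (A.card - 1) N (by omega) π h1 h2 h3 h4
  have hps : ∀ i ≤ A.card, ∑ m : Fin A.card with m.val < i, e (π' m) = ps e π' i := by
    intro i hi
    unfold ps
    symm
    refine Finset.sum_bij' (fun p hp => (⟨p, by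
        have := Finset.mem_range.1 hp; omega⟩ : Fin A.card)) (fun m _ => (m : ℕ)) ?_ ?_ ?_ ?_ ?_
    · intro p hp
      simpa using hp
    · intro m hm
      simpa using hm
    · intro p hp; rfl
    · intro m hm; rfl
    · intro p hp
      unfold el
      rw [dif_pos (by have := Finset.mem_range.1 hp; omega)]
  refine ⟨fun m => e (π' m), he.comp π'.injective, ?_, ?_⟩
  · ext g
    constructor
    · rintro ⟨m, rfl⟩
      exact hmem _
    · intro hg
      refine ⟨π'.symm (A.equivFin ⟨g, hg⟩), ?_⟩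
      simp [e]
  · intro i j hij hj hne
    rw [hps i (by omega), hps j hj]
    exact hπ' i j hij hj (by omega)

end Pool.Agent.SPQ
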