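import Pool.Agent.Lib_helper8.SPQ.Defs

/-!
Block A of the project SPQ (MP_b4ec45_co): the numerical estimate `arith_large`.
-/

namespace Pool.Agent.SPQ

open Finset Equiv Function Pool.Agent.SEQ

theorem a_pow (k : ℝ) (N m : ℕ) (hm : m ≤ N) (h : 4 * ((N : ℝ) + 1) ^ 2 ≤ k) :
    k ^ m ≤ 2 * (k - 2 * (m + 1)) ^ m ∧ k / 2 ≤ k - 2 * (m + 1) := by
  have hN0 : (0 : ℝ) ≤ N := by positivity
  have hm0 : (0 : ℝ) ≤ m := by positivity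
  have hmN : (m : ℝ) ≤ N := by exact_mod_cast hm
  have hk : 0 < k := by nlinarith
  have h1 : k / 2 ≤ k - 2 * (m + 1) := by nlinarith
  refine ⟨?_, h1⟩
  have h2 : (1 : ℝ) + m * (-(2 * (m + 1) / k)) ≤ (1 + -(2 * (m + 1) / k)) ^ m := by
    apply one_add_mul_le_pow
    have : 2 * ((m : ℝ) + 1) / k ≤ 1 := by
      rw [div_le_one hk]; nlinarith
    linarith
  have h3 : (m : ℝ) * (2 * (m + 1) / k) ≤ 1 / 2 := by
    rw [mul_div_assoc', div_le_iff₀ hk]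
    nlinarith
  have h4 : (1 : ℝ) / 2 ≤ (1 + -(2 * (m + 1) / k)) ^ m := by linarith
  have h5 : (1 + -(2 * ((m : ℝ) + 1) / k)) ^ m * k ^ m = (k - 2 * (m + 1)) ^ m := by
    rw [← mul_pow]
    congr 1
    field_simp
    ring
  rw [← h5]
  have h6 : (0 : ℝ) < k ^ m := by positivity
  nlinarith

theorem a_core (k b : ℝ) (n N : ℕ) (hN : 2 ≤ N) (hb0 : 0 ≤ b) (hb : k * b ≤ 1 / 3136)
    (h1 : 10 ^ 4 * (((N : ℝ) + 1) ^ 4 * (8 * n + 8) ^ 2 * 12 ^ N) ≤ k)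
    (h2 : 28 * k ≤ 28 ^ (N - 1)) :
    12 * (k * b + 4 * n * (2 / k)) +
    384 * (k ^ 2 * b / (k - 3) +
        k * (2 * n + 3) / (k - 2 * n - 6) ^ 2 + (2 * n + 8) ^ 2 / (k - 3)) +
    ∑ m ∈ Ico 2 (N + 1), (4 ^ m * 2 * (5 * k ^ m *
        b ^ (m - 1) / (k - 2 * (m + 1)) +
        (m + 1) ^ 2 * (8 * n + 8) * 5 * k ^ (m - 1) * 3 ^ (m - 1) /
          (k - 2 * (m + 1)) ^ m)) +
    4 ^ N * 2 * (k ^ (N + 1) * b ^ (N - 1) +
        (N + 1) ^ 4 * (8 * n + 8) ^ 2 * k ^ (N - 1) * 3 ^ N /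
          (k - 2 * (N + 1)) ^ N) < (1 : ℝ) := by
  have hNr : (2 : ℝ) ≤ N := by exact_mod_cast hN
  have hn0 : (0 : ℝ) ≤ n := by positivity
  set X : ℝ := ((N : ℝ) + 1) ^ 4 * (8 * n + 8) ^ 2 * 12 ^ N with hX
  have h12 : (144 : ℝ) ≤ 12 ^ N := by
    calc (144 : ℝ) = 12 ^ 2 := by norm_num
      _ ≤ 12 ^ N := pow_le_pow_right₀ (by norm_num) hN
  have hX1 : (8 * n + 8 : ℝ) ^ 2 ≤ X := by
    rw [hX]
    have : (1 : ℝ) ≤ ((N : ℝ) + 1) ^ 4 := one_le_pow₀ (by linarith)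
    have h0 : (0 : ℝ) ≤ (8 * n + 8 : ℝ) ^ 2 := by positivity
    calc (8 * n + 8 : ℝ) ^ 2 = 1 * (8 * n + 8) ^ 2 * 1 := by ring
      _ ≤ ((N : ℝ) + 1) ^ 4 * (8 * n + 8) ^ 2 * 12 ^ N := by
          gcongr
          linarith
  have hX2 : (8 * n + 8 : ℝ) ≤ X := by nlinarith
  have hX3 : ((N : ℝ) + 1) ^ 3 * (8 * n + 8) * 12 ^ N ≤ X := by
    rw [hX]
    gcongr
    · linarith
    · norm_num
    · nlinarith
  have hX4 : 4 * ((N : ℝ) + 1) ^ 2 ≤ X := by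
    rw [hX]
    have h3 : ((N : ℝ) + 1) ^ 2 ≤ ((N : ℝ) + 1) ^ 4 :=
      pow_le_pow_right₀ (by linarith) (by norm_num)
    have h4 : (4 : ℝ) ≤ (8 * n + 8) ^ 2 := by nlinarith
    calc 4 * ((N : ℝ) + 1) ^ 2 = ((N : ℝ) + 1) ^ 2 * 4 * 1 := by ring
      _ ≤ ((N : ℝ) + 1) ^ 4 * (8 * n + 8) ^ 2 * 12 ^ N := by
          gcongr
          linarith
  have hX0 : 0 < X := by linarith
  have hk : 0 < k := by linarith
  have hkX : 4 * ((N : ℝ) + 1) ^ 2 ≤ k := by linarith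
  set ε : ℝ := X / k with hε
  have hε0 : 0 < ε := by positivity
  have hε1 : ε ≤ 1 / 10 ^ 4 := by
    rw [hε, div_le_div_iff₀ hk (by norm_num)]
    linarith
  -- term 1
  have t1 : 12 * (k * b + 4 * n * (2 / k)) ≤ 12 / 3136 + 12 * ε := by
    have : 4 * (n : ℝ) * (2 / k) ≤ ε := by
      rw [hε, mul_div_assoc', div_le_div_iff_of_pos_right hk]
      linarith
    linarith
  -- term 2
  have t21 : k ^ 2 * b / (k - 3) ≤ 2 / 3136 := by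
    rw [div_le_iff₀ (by linarith)]
    nlinarith
  have t22 : k * (2 * n + 3) / (k - 2 * n - 6) ^ 2 ≤ 4 * ε := by
    have h5 : k / 2 ≤ k - 2 * n - 6 := by linarith
    have h6 : (0 : ℝ) < (k / 2) ^ 2 := by positivity
    have h7 : (k / 2) ^ 2 ≤ (k - 2 * n - 6) ^ 2 := by
      apply pow_le_pow_left₀ (by positivity) h5
    calc k * (2 * n + 3) / (k - 2 * n - 6) ^ 2 ≤ k * (2 * n + 3) / (k / 2) ^ 2 := by
          gcongr
      _ = 4 * ((2 * n + 3) / k) := by field_simp; try ring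
      _ ≤ 4 * ε := by
          rw [hε]
          gcongr
          linarith
  have t23 : (2 * n + 8 : ℝ) ^ 2 / (k - 3) ≤ 2 * ε := by
    have h5 : k / 2 ≤ k - 3 := by linarith
    calc (2 * n + 8 : ℝ) ^ 2 / (k - 3) ≤ (2 * n + 8) ^ 2 / (k / 2) := by
          gcongr
      _ = 2 * ((2 * n + 8) ^ 2 / k) := by field_simp; try ring
      _ ≤ 2 * ε := by
          rw [hε]
          gcongr
          nlinarith
  -- term 4
  have hN1 : N - 1 + 1 = N := by omega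
  have h4b : 4 * (k * b) ≤ 1 / 784 := by linarith
  have h4b0 : 0 ≤ 4 * (k * b) := by positivity
  have t41 : 4 ^ N * 2 * (k ^ (N + 1) * b ^ (N - 1)) ≤ 8 / 784 := by
    have e1 : 4 ^ N * 2 * (k ^ (N + 1) * b ^ (N - 1)) = 8 * k ^ 2 * (4 * (k * b)) ^ (N - 1) := by
      obtain ⟨M, rfl⟩ : ∃ M, N = M + 1 := ⟨N - 1, by omega⟩
      simp only [Nat.add_sub_cancel]
      ring
    rw [e1]
    have e2 : (4 * (k * b)) ^ (N - 1) ≤ (1 / 784) ^ (N - 1) := pow_le_pow_left₀ h4b0 h4b _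
    have e3 : ((1 : ℝ) / 784) ^ (N - 1) = 1 / (28 ^ (N - 1)) ^ 2 := by
      rw [one_div_pow, ← pow_mul, mul_comm (N - 1) 2, pow_mul]
      norm_num
    rw [e3] at e2
    have e4 : (28 * k) ^ 2 ≤ ((28 : ℝ) ^ (N - 1)) ^ 2 :=
      pow_le_pow_left₀ (by positivity) h2 2
    have e5 : (1 : ℝ) / (28 ^ (N - 1)) ^ 2 ≤ 1 / (28 * k) ^ 2 := by
      gcongr
    calc 8 * k ^ 2 * (4 * (k * b)) ^ (N - 1) ≤ 8 * k ^ 2 * (1 / (28 * k) ^ 2) := by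
          gcongr
          exact e2.trans e5
      _ = 8 / 784 := by field_simp; norm_num
  have t42 : 4 ^ N * 2 * (((N : ℝ) + 1) ^ 4 * (8 * n + 8) ^ 2 * k ^ (N - 1) * 3 ^ N /
          (k - 2 * (N + 1)) ^ N) ≤ 4 * ε := by
    obtain ⟨p1, p2⟩ := a_pow k N N le_rfl hkX
    have p3 : 0 < k - 2 * ((N : ℝ) + 1) := by linarith
    rw [mul_div_assoc', div_le_iff₀ (by positivity)]
    have e1 : 4 ^ N * 2 * (((N : ℝ) + 1) ^ 4 * (8 * n + 8) ^ 2 * k ^ (N - 1) * 3 ^ N) =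
        2 * ε * k ^ N := by
      rw [hε, hX]
      obtain ⟨M, rfl⟩ : ∃ M, N = M + 1 := ⟨N - 1, by omega⟩
      simp only [Nat.add_sub_cancel]
      have : (12 : ℝ) ^ (M + 1) = 4 ^ (M + 1) * 3 ^ (M + 1) := by
        rw [← mul_pow]; norm_num
      rw [this]
      field_simp
      try ring
    rw [e1]
    have : 0 ≤ 2 * ε := by positivity
    calc 2 * ε * k ^ N ≤ 2 * ε * (2 * (k - 2 * ((N : ℝ) + 1)) ^ N) := by gcongr
      _ = _ := by ring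
  -- term 3
  have t3 : ∑ m ∈ Ico 2 (N + 1), (4 ^ m * 2 * (5 * k ^ m *
        b ^ (m - 1) / (k - 2 * (m + 1)) +
        (m + 1) ^ 2 * (8 * n + 8) * 5 * k ^ (m - 1) * 3 ^ (m - 1) /
          (k - 2 * (m + 1)) ^ m)) ≤ 80 / 783 + 20 * ε := by
    have s1 : ∀ m ∈ Ico 2 (N + 1), (4 ^ m * 2 * (5 * k ^ m *
        b ^ (m - 1) / (k - 2 * (m + 1)) +
        (m + 1) ^ 2 * (8 * n + 8) * 5 * k ^ (m - 1) * 3 ^ (m - 1) /
          (k - 2 * (m + 1)) ^ m)) ≤ 80 * (1 / 784) ^ (m - 1) + 20 * ε / N := by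
      intro m hm
      obtain ⟨hm2, hmN⟩ := mem_Ico.1 hm
      have hmN' : m ≤ N := by omega
      have hmNr : (m : ℝ) ≤ N := by exact_mod_cast hmN'
      have hm0 : (0 : ℝ) ≤ m := by positivity
      obtain ⟨p1, p2⟩ := a_pow k N m hmN' hkX
      have p3 : 0 < k - 2 * ((m : ℝ) + 1) := by linarith
      have q1 : 4 ^ m * 2 * (5 * k ^ m * b ^ (m - 1) / (k - 2 * (m + 1))) ≤
          80 * (1 / 784) ^ (m - 1) := by
        have e1 : 4 ^ m * 2 * (5 * k ^ m * b ^ (m - 1)) = 40 * k * (4 * (k * b)) ^ (m - 1) := by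
          obtain ⟨M, rfl⟩ : ∃ M, m = M + 1 := ⟨m - 1, by omega⟩
          simp only [Nat.add_sub_cancel]
          ring
        rw [mul_div_assoc', div_le_iff₀ p3, e1]
        have e2 : (4 * (k * b)) ^ (m - 1) ≤ (1 / 784) ^ (m - 1) := pow_le_pow_left₀ h4b0 h4b _
        have e3 : (0 : ℝ) ≤ (1 / 784) ^ (m - 1) := by positivity
        calc 40 * k * (4 * (k * b)) ^ (m - 1) ≤ 40 * k * (1 / 784) ^ (m - 1) := by gcongr
          _ = 80 * (1 / 784) ^ (m - 1) * (k / 2) := by ring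
          _ ≤ 80 * (1 / 784) ^ (m - 1) * (k - 2 * (m + 1)) := by gcongr
      have q2 : 4 ^ m * 2 * (((m : ℝ) + 1) ^ 2 * (8 * n + 8) * 5 * k ^ (m - 1) * 3 ^ (m - 1) /
          (k - 2 * (m + 1)) ^ m) ≤ 20 * ε / N := by
        rw [mul_div_assoc', div_le_iff₀ (by positivity)]
        have e1 : 4 ^ m * 2 * (((m : ℝ) + 1) ^ 2 * (8 * n + 8) * 5 * k ^ (m - 1) * 3 ^ (m - 1))
            = 10 / 3 * 12 ^ m * ((m + 1) ^ 2 * (8 * n + 8)) / k * k ^ m := by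
          obtain ⟨M, rfl⟩ : ∃ M, m = M + 1 := ⟨m - 1, by omega⟩
          simp only [Nat.add_sub_cancel]
          have : (12 : ℝ) ^ (M + 1) = 4 ^ (M + 1) * 3 ^ (M + 1) := by
            rw [← mul_pow]; norm_num
          rw [this]
          field_simp
          try ring
        rw [e1]
        have e2 : 10 / 3 * 12 ^ m * (((m : ℝ) + 1) ^ 2 * (8 * n + 8)) / k ≤ 10 * ε / N := by
          rw [hε, mul_div_assoc', div_div, div_le_div_iff₀ hk (by positivity)]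
          have e3 : (12 : ℝ) ^ m ≤ 12 ^ N := pow_le_pow_right₀ (by norm_num) hmN'
          have e4 : 10 / 3 * 12 ^ m * (((m : ℝ) + 1) ^ 2 * (8 * n + 8)) ≤
              10 * 12 ^ N * (((N : ℝ) + 1) ^ 2 * (8 * n + 8)) := by
            gcongr
            norm_num
          have e5 : 10 * 12 ^ N * (((N : ℝ) + 1) ^ 2 * (8 * n + 8)) * N ≤ 10 * X := by
            calc 10 * 12 ^ N * (((N : ℝ) + 1) ^ 2 * (8 * n + 8)) * N
                ≤ 10 * 12 ^ N * (((N : ℝ) + 1) ^ 2 * (8 * n + 8)) * (N + 1) := by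
                  gcongr
                  linarith
              _ = 10 * (((N : ℝ) + 1) ^ 3 * (8 * n + 8) * 12 ^ N) := by ring
              _ ≤ 10 * X := by gcongr
          calc 10 / 3 * 12 ^ m * (((m : ℝ) + 1) ^ 2 * (8 * n + 8)) * (k * N)
              ≤ 10 * 12 ^ N * (((N : ℝ) + 1) ^ 2 * (8 * n + 8)) * (k * N) := by gcongr
            _ = 10 * 12 ^ N * (((N : ℝ) + 1) ^ 2 * (8 * n + 8)) * N * k := by ring
            _ ≤ 10 * X * k := by gcongr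
        calc 10 / 3 * 12 ^ m * (((m : ℝ) + 1) ^ 2 * (8 * n + 8)) / k * k ^ m
            ≤ 10 * ε / N * (2 * (k - 2 * (m + 1)) ^ m) := by gcongr
          _ = 20 * ε / N * (k - 2 * (m + 1)) ^ m := by ring
      rw [mul_add]
      exact add_le_add q1 q2
    refine (sum_le_sum s1).trans ?_
    rw [sum_add_distrib, sum_const, Nat.card_Ico, nsmul_eq_mul]
    have s2 : ∑ m ∈ Ico 2 (N + 1), 80 * ((1 : ℝ) / 784) ^ (m - 1) ≤ 80 / 783 := by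
      rw [← mul_sum]
      have s3 : ∑ m ∈ Ico 2 (N + 1), ((1 : ℝ) / 784) ^ (m - 1) ≤ 1 / 783 := by
        rw [sum_Ico_eq_sum_range]
        have s4 : ∀ j ∈ range (N + 1 - 2), ((1 : ℝ) / 784) ^ (2 + j - 1) =
            1 / 784 * (1 / 784) ^ j := by
          intro j _
          rw [show 2 + j - 1 = j + 1 by omega, pow_succ]
          ring
        rw [sum_congr rfl s4, ← mul_sum, geom_sum_eq (by norm_num)]
        have h7 : (0 : ℝ) ≤ (1 / 784) ^ (N + 1 - 2) := by positivity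
        generalize ((1 : ℝ) / 784) ^ (N + 1 - 2) = y at h7
        have h8 : 1 / 784 * ((y - 1) / (1 / 784 - 1)) = (1 - y) / 783 := by ring
        rw [h8]
        linarith
      linarith
    have s5 : (((N + 1 - 2 : ℕ) : ℝ)) * (20 * ε / N) ≤ 20 * ε := by
      have : ((N + 1 - 2 : ℕ) : ℝ) ≤ N := by
        exact_mod_cast (show N + 1 - 2 ≤ N by omega)
      have hNp : (0 : ℝ) < N := by linarith
      calc ((N + 1 - 2 : ℕ) : ℝ) * (20 * ε / N) ≤ N * (20 * ε / N) := by gcongr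
        _ = 20 * ε := by field_simp
    linarith
  rw [mul_add (4 ^ N * 2 : ℝ)]
  linarith

theorem a_bet (k n : ℕ) (x : ℝ) (hx0 : 0 < x) (hx1 : x ≤ 1 / 50)
    (hn : 2 ^ 52 * Real.log k ≤ n * x) (hk : 10 ^ 5 ≤ k) :
    0 ≤ bet (3 / 10000) (x / 2) 24 n k ∧ k * bet (3 / 10000) (x / 2) 24 n k ≤ 1 / 3136 := by
  have hkr : (10 : ℝ) ^ 5 ≤ k := by exact_mod_cast hk
  have hk0 : (0 : ℝ) < k := by linarith
  unfold bet
  have h1 : (1 - x / 2 / (4 * 4 ^ 24)) ≤ Real.exp (-(x / 2 / (4 * 4 ^ 24))) := by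
    have := Real.add_one_le_exp (-(x / 2 / (4 * 4 ^ 24)))
    linarith
  have h0 : 0 ≤ (1 - x / 2 / (4 * 4 ^ 24)) := by
    have : x / 2 / (4 * 4 ^ 24) ≤ 1 := by
      rw [div_div, div_le_one (by positivity)]
      linarith
    linarith
  have h2 : (1 - x / 2 / (4 * 4 ^ 24)) ^ n ≤ 1 / (k : ℝ) ^ 2 := by
    calc (1 - x / 2 / (4 * 4 ^ 24)) ^ n ≤ Real.exp (-(x / 2 / (4 * 4 ^ 24))) ^ n :=
          pow_le_pow_left₀ h0 h1 n
      _ = Real.exp (n * -(x / 2 / (4 * 4 ^ 24))) := by rw [Real.exp_nat_mul]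
      _ ≤ Real.exp (-(2 * Real.log k)) := by
          apply Real.exp_le_exp.2
          have : (n : ℝ) * -(x / 2 / (4 * 4 ^ 24)) = -(n * x / 2 ^ 51) := by
            norm_num
            ring
          rw [this, neg_le_neg_iff, le_div_iff₀ (by positivity)]
          linarith
      _ = 1 / (k : ℝ) ^ 2 := by
          rw [Real.exp_neg, two_mul, Real.exp_add, Real.exp_log hk0]
          rw [one_div, sq]
  have h3 : 0 ≤ (1 - x / 2 / (4 * 4 ^ 24)) ^ n := pow_nonneg h0 n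
  have h4 : (0 : ℝ) < 1 - x / 2 := by linarith
  have h5 : 0 ≤ 3 / 10000 / ((1 - x / 2) * k) := by positivity
  refine ⟨by linarith, ?_⟩
  rw [mul_add]
  have h6 : (k : ℝ) * (1 - x / 2 / (4 * 4 ^ 24)) ^ n ≤ 1 / 10 ^ 5 := by
    calc (k : ℝ) * (1 - x / 2 / (4 * 4 ^ 24)) ^ n ≤ (k : ℝ) * (1 / (k : ℝ) ^ 2) := by gcongr
      _ = 1 / (k : ℝ) := by field_simp
      _ ≤ 1 / 10 ^ 5 := by gcongr
  have h7 : (k : ℝ) * (3 / 10000 / ((1 - x / 2) * k)) ≤ 3 / 9900 := by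
    have : (k : ℝ) * (3 / 10000 / ((1 - x / 2) * k)) = 3 / (10000 * (1 - x / 2)) := by
      field_simp
    rw [this]
    gcongr
    linarith
  have h8 : (1 : ℝ) / 10 ^ 5 + 3 / 9900 ≤ 1 / 3136 := by norm_num
  linarith

theorem a_log (k : ℕ) (hk : 1 ≤ k) :
    (12 : ℝ) ^ Nat.log 28 k ≤ (k : ℝ) ^ (3 / 4 : ℝ) ∧ (Nat.log 28 k : ℝ) ≤ Real.log k ∧
      28 * (k : ℝ) ≤ 28 ^ (Nat.log 28 k + 2) := by
  have hk0 : (0 : ℝ) < k := by exact_mod_cast hk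
  have h1 : 28 ^ Nat.log 28 k ≤ k := Nat.pow_log_le_self 28 (by omega)
  have h1r : (28 : ℝ) ^ Nat.log 28 k ≤ k := by exact_mod_cast h1
  have h2 : k < 28 ^ (Nat.log 28 k + 1) := Nat.lt_pow_succ_log_self (by norm_num) k
  have h2r : (k : ℝ) ≤ 28 ^ (Nat.log 28 k + 1) := by exact_mod_cast h2.le
  refine ⟨?_, ?_, ?_⟩
  · have h3 : ((12 : ℝ) ^ Nat.log 28 k) ^ 4 ≤ (k : ℝ) ^ 3 := by
      calc ((12 : ℝ) ^ Nat.log 28 k) ^ 4 = (12 ^ 4) ^ Nat.log 28 k := by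
            rw [← pow_mul, ← pow_mul, mul_comm]
        _ ≤ (28 ^ 3) ^ Nat.log 28 k := by
            apply pow_le_pow_left₀ (by positivity)
            norm_num
        _ = (28 ^ Nat.log 28 k) ^ 3 := by rw [← pow_mul, ← pow_mul, mul_comm]
        _ ≤ (k : ℝ) ^ 3 := by gcongr
    have h4 : ((k : ℝ) ^ (3 / 4 : ℝ)) ^ 4 = (k : ℝ) ^ 3 := by
      rw [← Real.rpow_natCast, ← Real.rpow_mul hk0.le]
      norm_num
    rw [← h4] at h3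
    exact le_of_pow_le_pow_left₀ (by norm_num) (by positivity) h3
  · rw [Real.le_log_iff_exp_le hk0]
    calc Real.exp (Nat.log 28 k) = Real.exp 1 ^ Nat.log 28 k := by
          rw [← Real.exp_nat_mul, mul_one]
      _ ≤ 28 ^ Nat.log 28 k := by
          apply pow_le_pow_left₀ (Real.exp_pos 1).le
          have := Real.exp_one_lt_d9
          linarith
      _ ≤ k := h1r
  · calc 28 * (k : ℝ) ≤ 28 * 28 ^ (Nat.log 28 k + 1) := by gcongr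
      _ = 28 ^ (Nat.log 28 k + 2) := by ring

theorem a_size (k : ℕ) (hk : 1 ≤ k) (hlog : 4 ≤ Real.log k)
    (hC : 10 ^ 4 * 16 * 2 ^ 112 * 1728 * Real.log k ^ 6 ≤ (k : ℝ) ^ (1 / 20 : ℝ)) (n : ℕ)
    (hn : (n : ℝ) ≤ 2 ^ 52 * (k : ℝ) ^ (1 / 10 : ℝ) * Real.log k + 1) :
    10 ^ 4 * ((((Nat.log 28 k + 3 : ℕ) : ℝ) + 1) ^ 4 * (8 * n + 8) ^ 2 *
      12 ^ (Nat.log 28 k + 3)) ≤ (k : ℝ) := by
  obtain ⟨h1, h2, -⟩ := a_log k hk
  have hkr : (1 : ℝ) ≤ k := by exact_mod_cast hk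
  have hk0 : (0 : ℝ) < k := by linarith
  have hy : (1 : ℝ) ≤ (k : ℝ) ^ (1 / 10 : ℝ) := Real.one_le_rpow hkr (by norm_num)
  have e1 : (((Nat.log 28 k + 3 : ℕ) : ℝ) + 1) ≤ 2 * Real.log k := by
    push_cast
    linarith
  have e2 : (8 * n + 8 : ℝ) ≤ 2 ^ 56 * ((k : ℝ) ^ (1 / 10 : ℝ) * Real.log k) := by
    have : 4 ≤ (k : ℝ) ^ (1 / 10 : ℝ) * Real.log k := by nlinarith
    linarith
  have e3 : (k : ℝ) ^ (1 / 5 : ℝ) * (k : ℝ) ^ (3 / 4 : ℝ) * (k : ℝ) ^ (1 / 20 : ℝ) = k := by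
    rw [← Real.rpow_add hk0, ← Real.rpow_add hk0]
    norm_num
  have e4 : ((k : ℝ) ^ (1 / 10 : ℝ)) ^ 2 = (k : ℝ) ^ (1 / 5 : ℝ) := by
    rw [← Real.rpow_natCast, ← Real.rpow_mul hk0.le]
    norm_num
  have hl0 : 0 ≤ Real.log k := by linarith
  calc 10 ^ 4 * ((((Nat.log 28 k + 3 : ℕ) : ℝ) + 1) ^ 4 * (8 * n + 8) ^ 2 *
      12 ^ (Nat.log 28 k + 3))
      = 10 ^ 4 * ((((Nat.log 28 k + 3 : ℕ) : ℝ) + 1) ^ 4 * (8 * n + 8) ^ 2 *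
      (12 ^ (Nat.log 28 k) * 1728)) := by
        rw [pow_add (12 : ℝ)]
        norm_num
    _ ≤ 10 ^ 4 * ((2 * Real.log k) ^ 4 * (2 ^ 56 * ((k : ℝ) ^ (1 / 10 : ℝ) * Real.log k)) ^ 2 *
      ((k : ℝ) ^ (3 / 4 : ℝ) * 1728)) := by gcongr
    _ = ((k : ℝ) ^ (1 / 10 : ℝ)) ^ 2 * (k : ℝ) ^ (3 / 4 : ℝ) *
          (10 ^ 4 * 16 * 2 ^ 112 * 1728 * Real.log k ^ 6) := by ring
    _ ≤ ((k : ℝ) ^ (1 / 10 : ℝ)) ^ 2 * (k : ℝ) ^ (3 / 4 : ℝ) * (k : ℝ) ^ (1 / 20 : ℝ) := by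
        gcongr
    _ = k := by rw [e4, e3]

theorem a_event : ∃ K : ℕ, ∀ k : ℕ, K ≤ k → 10 ^ 5 ≤ k ∧ 4 ≤ Real.log k ∧
    (k : ℝ) ^ (-(1 / 10) : ℝ) ≤ 1 / 50 ∧
    10 ^ 4 * 16 * 2 ^ 112 * 1728 * Real.log k ^ 6 ≤ (k : ℝ) ^ (1 / 20 : ℝ) := by
  have h1 : ∀ᶠ k : ℕ in Filter.atTop, 10 ^ 5 ≤ k := Filter.eventually_ge_atTop _
  have h2 : ∀ᶠ k : ℕ in Filter.atTop, 4 ≤ Real.log k :=
    (Real.tendsto_log_atTop.comp tendsto_natCast_atTop_atTop).eventually_ge_atTop 4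
  have h3 : ∀ᶠ k : ℕ in Filter.atTop, (k : ℝ) ^ (-(1 / 10) : ℝ) ≤ 1 / 50 := by
    have := (tendsto_rpow_neg_atTop (y := 1 / 10) (by norm_num)).comp
      (tendsto_natCast_atTop_atTop (R := ℝ))
    have h := this.eventually (gt_mem_nhds (show (0 : ℝ) < 1 / 50 by norm_num))
    filter_upwards [h] with k hk
    exact le_of_lt hk
  have h4 : ∀ᶠ k : ℕ in Filter.atTop,
      10 ^ 4 * 16 * 2 ^ 112 * 1728 * Real.log k ^ 6 ≤ (k : ℝ) ^ (1 / 20 : ℝ) := by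
    have h5 := isLittleO_log_rpow_rpow_atTop (s := 1 / 20) 6 (by norm_num)
    have h6 := h5.bound (show (0 : ℝ) < 1 / (10 ^ 4 * 16 * 2 ^ 112 * 1728) by norm_num)
    have h7 := (tendsto_natCast_atTop_atTop (R := ℝ)).eventually h6
    filter_upwards [h7, h2] with k hk hk2
    have h8 : (0 : ℝ) ≤ Real.log k ^ (6 : ℝ) := Real.rpow_nonneg (by linarith) _
    have h9 : (0 : ℝ) ≤ (k : ℝ) ^ (1 / 20 : ℝ) := by positivity
    rw [Real.norm_of_nonneg h8, Real.norm_of_nonneg h9] at hk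
    have h10 : Real.log k ^ (6 : ℝ) = Real.log k ^ 6 := by
      rw [← Real.rpow_natCast]
      norm_num
    rw [h10] at hk
    rw [one_div, inv_mul_eq_div, le_div_iff₀ (by norm_num)] at hk
    linarith
  obtain ⟨K, hK⟩ := Filter.eventually_atTop.1 (h1.and (h2.and (h3.and h4)))
  exact ⟨K, fun k hk => hK k hk⟩

theorem a_side (k n N : ℕ)
    (h1 : 10 ^ 4 * (((N : ℝ) + 1) ^ 4 * (8 * n + 8) ^ 2 * 12 ^ N) ≤ k) :
    2 * (N + 1) < k ∧ 2 * n + 7 ≤ k ∧ 10 ^ 4 * (((N : ℝ) + 1) * (8 * n + 8)) ^ 2 ≤ k := by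
  have hN0 : (1 : ℝ) ≤ (N : ℝ) + 1 := by
    have : (0 : ℝ) ≤ N := by positivity
    linarith
  have hn0 : (8 : ℝ) ≤ 8 * (n : ℝ) + 8 := by
    have : (0 : ℝ) ≤ n := by positivity
    linarith
  have h3 : 10 ^ 4 * (((N : ℝ) + 1) * (8 * n + 8)) ^ 2 ≤ k := by
    refine le_trans ?_ h1
    have e1 : (((N : ℝ) + 1) * (8 * n + 8)) ^ 2 = (N + 1) ^ 2 * (8 * n + 8) ^ 2 * 1 := by ring
    rw [e1]
    have e2 : (1 : ℝ) ≤ 12 ^ N := one_le_pow₀ (by norm_num)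
    gcongr
    norm_num
  have h4 : ((N : ℝ) + 1) * 8 ≤ (N + 1) * (8 * n + 8) := by gcongr
  have h5 : 1 * (8 * (n : ℝ) + 8) ≤ (N + 1) * (8 * n + 8) := by gcongr
  have h6 : ((N : ℝ) + 1) * (8 * n + 8) ≤ (((N : ℝ) + 1) * (8 * n + 8)) ^ 2 := by
    nlinarith
  refine ⟨?_, ?_, h3⟩
  · have : (2 : ℝ) * (N + 1) < k := by nlinarith
    exact_mod_cast this
  · have : (2 : ℝ) * n + 7 ≤ k := by nlinarith
    exact_mod_cast this

theorem a_root (k : ℕ) (hk : 1 ≤ k) (Y : ℝ) (hY : 0 ≤ Y) (h : 10 ^ 4 * Y ^ 2 ≤ k) :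
    Y ≤ (k : ℝ) ^ (-(1 / 10) : ℝ) / 2 * k := by
  have hkr : (1 : ℝ) ≤ k := by exact_mod_cast hk
  have hk0 : (0 : ℝ) < k := by linarith
  have h2 : ((k : ℝ) ^ (-(1 / 10) : ℝ)) ^ 2 = (k : ℝ) ^ (-(1 / 5) : ℝ) := by
    rw [← Real.rpow_natCast, ← Real.rpow_mul hk0.le]
    norm_num
  have h3 : (k : ℝ) ^ (-1 : ℝ) ≤ (k : ℝ) ^ (-(1 / 5) : ℝ) :=
    Real.rpow_le_rpow_of_exponent_le hkr (by norm_num)
  have h4 : (k : ℝ) ^ (-1 : ℝ) * (k : ℝ) ^ 2 = k := by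
    rw [Real.rpow_neg_one]
    field_simp
  have h5 : Y ^ 2 ≤ ((k : ℝ) ^ (-(1 / 10) : ℝ) / 2 * k) ^ 2 := by
    have e1 : ((k : ℝ) ^ (-(1 / 10) : ℝ) / 2 * k) ^ 2 =
        ((k : ℝ) ^ (-(1 / 10) : ℝ)) ^ 2 * (k : ℝ) ^ 2 / 4 := by ring
    rw [e1, h2]
    have e2 : (k : ℝ) ^ (-1 : ℝ) * (k : ℝ) ^ 2 ≤ (k : ℝ) ^ (-(1 / 5) : ℝ) * (k : ℝ) ^ 2 := by
      gcongr
    rw [h4] at e2
    nlinarith
  exact le_of_sq_le_sq h5 (by positivity)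

theorem arith_large : ∃ K : ℕ, ∀ k : ℕ, K ≤ k → ∃ n N : ℕ, 2 ≤ N ∧ 2 * (N + 1) < k ∧
    2 * n + 7 ≤ k ∧ (k : ℝ) ^ (-(1 / 10) : ℝ) / 2 ≤ 1 / 4 ∧
    (3 : ℝ) + 4 * n ≤ (k : ℝ) ^ (-(1 / 10) : ℝ) / 2 * k ∧
    (2 : ℝ) * (N + 1) + 4 * n * (N + 1) ≤ (k : ℝ) ^ (-(1 / 10) : ℝ) / 2 * k ∧
    12 * (k * bet (3 / 10000) ((k : ℝ) ^ (-(1 / 10) : ℝ) / 2) 24 n k + 4 * n * (2 / k)) +
    384 * ((k : ℝ) ^ 2 * bet (3 / 10000) ((k : ℝ) ^ (-(1 / 10) : ℝ) / 2) 24 n k / (k - 3) +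
        k * (2 * n + 3) / (k - 2 * n - 6) ^ 2 + (2 * n + 8) ^ 2 / (k - 3)) +
    ∑ m ∈ Ico 2 (N + 1), (4 ^ m * 2 * (5 * (k : ℝ) ^ m *
        bet (3 / 10000) ((k : ℝ) ^ (-(1 / 10) : ℝ) / 2) 24 n k ^ (m - 1) / (k - 2 * (m + 1)) +
        (m + 1) ^ 2 * (8 * n + 8) * 5 * (k : ℝ) ^ (m - 1) * 3 ^ (m - 1) /
          (k - 2 * (m + 1)) ^ m)) +
    4 ^ N * 2 * ((k : ℝ) ^ (N + 1) *
        bet (3 / 10000) ((k : ℝ) ^ (-(1 / 10) : ℝ) / 2) 24 n k ^ (N - 1) +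
        (N + 1) ^ 4 * (8 * n + 8) ^ 2 * (k : ℝ) ^ (N - 1) * 3 ^ N /
          (k - 2 * (N + 1)) ^ N) < (1 : ℝ) := by
  obtain ⟨K, hK⟩ := a_event
  refine ⟨K, fun k hk => ?_⟩
  obtain ⟨k5, hlog, hx1, hC⟩ := hK k hk
  have hk1 : 1 ≤ k := by omega
  have hk0 : (0 : ℝ) < k := by exact_mod_cast hk1
  have hn1 : 2 ^ 52 * (k : ℝ) ^ (1 / 10 : ℝ) * Real.log k ≤
      (⌈2 ^ 52 * (k : ℝ) ^ (1 / 10 : ℝ) * Real.log k⌉₊ : ℝ) := Nat.le_ceil _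
  have hn2 : (⌈2 ^ 52 * (k : ℝ) ^ (1 / 10 : ℝ) * Real.log k⌉₊ : ℝ) ≤
      2 ^ 52 * (k : ℝ) ^ (1 / 10 : ℝ) * Real.log k + 1 :=
    (Nat.ceil_lt_add_one (by positivity)).le
  generalize ⌈2 ^ 52 * (k : ℝ) ^ (1 / 10 : ℝ) * Real.log k⌉₊ = n at hn1 hn2
  have hx0 : 0 < (k : ℝ) ^ (-(1 / 10) : ℝ) := by positivity
  have hxy : (k : ℝ) ^ (1 / 10 : ℝ) * (k : ℝ) ^ (-(1 / 10) : ℝ) = 1 := by
    rw [← Real.rpow_add hk0]
    norm_num
  have hn3 : 2 ^ 52 * Real.log k ≤ n * (k : ℝ) ^ (-(1 / 10) : ℝ) := by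
    calc 2 ^ 52 * Real.log k
        = 2 ^ 52 * Real.log k * ((k : ℝ) ^ (1 / 10 : ℝ) * (k : ℝ) ^ (-(1 / 10) : ℝ)) := by
          rw [hxy, mul_one]
      _ = 2 ^ 52 * (k : ℝ) ^ (1 / 10 : ℝ) * Real.log k * (k : ℝ) ^ (-(1 / 10) : ℝ) := by ring
      _ ≤ n * (k : ℝ) ^ (-(1 / 10) : ℝ) := by gcongr
  obtain ⟨b0, b1⟩ := a_bet k n _ hx0 hx1 hn3 k5
  have s1 := a_size k hk1 hlog hC n hn2
  have s2 := (a_log k hk1).2.2
  obtain ⟨c1, c2, c3⟩ := a_side k n (Nat.log 28 k + 3) s1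
  have c4 := a_root k hk1 _ (by positivity) c3
  have hN0 : (0 : ℝ) ≤ ((Nat.log 28 k + 3 : ℕ) : ℝ) := by positivity
  have hn0 : (0 : ℝ) ≤ n := by positivity
  refine ⟨n, Nat.log 28 k + 3, by omega, c1, c2, by linarith, ?_, ?_,
    a_core (k : ℝ) _ n _ (by omega) b0 b1 s1 (by simpa using s2)⟩
  · refine le_trans ?_ c4
    nlinarith [mul_nonneg hN0 hn0]
  · refine le_trans ?_ c4
    nlinarith [mul_nonneg hN0 hn0]

end Pool.Agent.SPQ
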