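import Pool.Agent.Lib_helper26.SEQ.Final

/-!
Definitions for the sparse case of the Alspach-Liversidge conjecture (MP_b4ec45_co), project SPQ.
Positions, orderings, `el`, `ps`, `Dep`, `cnt`, `Co`, `Chain`, `B1`, `B2`, `NC`, `FP` are those of
`Pool.Agent.SEQ`.
-/

namespace Pool.Agent.SPQ

open Finset Equiv Function Pool.Agent.SEQ

variable {G : Type*} [AddCommGroup G] {k : ℕ}

open Classical in
/-- the distribution of the sum of a uniformly random subset of `d 0, ..., d (n - 1)` -/
noncomputable def ff (d : ℕ → G) : ℕ → G → ℝ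
  | 0, x => if x = 0 then 1 else 0
  | n + 1, x => (ff d n x + ff d n (x - d n)) / 2

/-- the autocorrelation of a function with finite support -/
noncomputable def ac (f : G → ℝ) (t : G) : ℝ := ∑' x, f x * f (x + t)

open Classical in
/-- every coset of a subgroup of order at most `3 |A| / c` contains fewer than `θ |A|` elements
of `A` -/
def Spread (A : Finset G) (c θ : ℝ) : Prop :=
  ∀ (H : AddSubgroup G) (x : G), (H : Set G).Finite → (Nat.card H : ℝ) * c ≤ 3 * A.card →
    ((A.filter fun a => a - x ∈ H).card : ℝ) < θ * A.card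

/-- the bound for one equation: `n` pairs of positions -/
noncomputable def bet (c η : ℝ) (J n k : ℕ) : ℝ :=
  (1 - η / (4 * 4 ^ J)) ^ n + c / ((1 - η) * k)

/-- the interchange of two positions -/
def sw (x y : ℕ) : Perm (Fin k) :=
  if h : x < k ∧ y < k then Equiv.swap ⟨x, h.1⟩ ⟨y, h.2⟩ else 1

/-- the standing hypotheses -/
structure Par (e : Fin k → G) (c η : ℝ) (J : ℕ) : Prop where
  inj : Injective e
  c0 : 0 < c
  hJ : 4 / c ≤ (3 / 2 : ℝ) ^ J
  η0 : 0 < η
  η1 : η ≤ 1 / 4
  spread : Spread (univ.map ⟨e, inj⟩) c (1 - 2 * η)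

/-- the composite of the interchanges of the positions `a m` and `b m`, `m ∈ T`, `m < M` -/
def tw (a b : ℕ → ℕ) (T : Finset ℕ) : ℕ → Perm (Fin k)
  | 0 => 1
  | m + 1 => tw a b T m * (if m ∈ T then sw (a m) (b m) else 1)

/-- average of two collision probabilities: the first `n` and the last `n` of `2 n` pairs of
positions `(a j, b j)` -/
noncomputable def rho (e : Fin k → G) (n : ℕ) (a b : ℕ → ℕ) (π : Perm (Fin k)) : ℝ :=
  (ac (ff (fun j => el e π (b j) - el e π (a j)) n) 0 +
    ac (ff (fun j => el e π (b (n + j)) - el e π (a (n + j))) n) 0) / 2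

end Pool.Agent.SPQ
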